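import Mathlib

/-! Definitions for activated random walk on a finite directed multigraph with a sink
(problem MP_df6f8e_pr). -/

open MeasureTheory ProbabilityTheory
open scoped ENNReal NNReal

namespace Pool.Agent.Helper96.ARW

/-- A directed multigraph on `V ∪ {s}` with edge set `E`: the edge `e` goes from the site `src e`
to `tgt e`, where `none` is the sink `s`. The sink has no outgoing edges. -/
structure SinkGraph (V E : Type) where
  src : E → V
  tgt : E → Option V

/-- `G.Reaches x`: there is a directed path from the site `x` to the sink (so in particular `x`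
has an outgoing edge). -/
inductive SinkGraph.Reaches {V E : Type} (G : SinkGraph V E) : V → Prop
  | sink (e : E) (h : G.tgt e = none) : G.Reaches (G.src e)
  | step (e : E) (y : V) (h : G.tgt e = some y) (hy : Reaches G y) : G.Reaches (G.src e)

/-- The graph `G_e`: the edge `e` is redirected to the sink. -/
def SinkGraph.divert {V E : Type} [DecidableEq E] (G : SinkGraph V E) (e : E) : SinkGraph V E where
  src := G.src
  tgt := Function.update G.tgt e none

/-- A configuration. At a site `x`, the value `none` means exactly one particle, which sleeps,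
and the value `some k` means `k` particles, all active. -/
abbrev Config (V : Type) : Type := V → Option ℕ

/-- All sets of configurations are measurable (there are countably many configurations). -/
instance (V : Type) : MeasurableSpace (Config V) := ⊤

instance (V : Type) : DiscreteMeasurableSpace (Config V) := ⟨fun _ => trivial⟩

section defs

variable {V E : Type} [Fintype V] [DecidableEq V] [Fintype E]

/-- The number of edges going out of the site `x`. -/
def SinkGraph.outdeg (G : SinkGraph V E) (x : V) : ℕ :=
  (Finset.univ.filter fun i => G.src i = x).card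

/-- The number of active particles at `x`. -/
def act (ξ : Config V) (x : V) : ℕ := (ξ x).getD 0

/-- The content of a site after the arrival of a particle: a sleeping particle is woken. -/
def inc : Option ℕ → Option ℕ
  | none => some 2
  | some k => some (k + 1)

/-- An active particle leaves the site `x`. -/
def depart (ξ : Config V) (x : V) : Config V := Function.update ξ x ((ξ x).map (· - 1))

/-- A particle arrives at the vertex `t`; it disappears if `t` is the sink. -/
def arrive (ξ : Config V) : Option V → Config V
  | none => ξ
  | some y => Function.update ξ y (inc (ξ y))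

/-- The particle at `x` falls asleep. -/
def putToSleep (ξ : Config V) (x : V) : Config V := Function.update ξ x none

/-- A stable configuration has no active particle. -/
def Stable (ξ : Config V) : Prop := ∀ x, act ξ x = 0

/-- The number of sleeping particles. -/
def sleepers (ξ : Config V) : ℕ := (Finset.univ.filter fun x => ξ x = none).card

/-- The total transition rate out of `ξ`: for every edge `i`, each active particle at the starting
point `x` of `i` jumps along `i` at rate `1 / outdeg x` (so it jumps at total rate `1`, along a
uniformly chosen outgoing edge), and each active particle alone at its site falls asleep at rate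
`lam`. -/
noncomputable def rate (G : SinkGraph V E) (lam : ℝ≥0) (ξ : Config V) : ℝ :=
  (∑ i, (act ξ (G.src i) : ℝ) / (G.outdeg (G.src i) : ℝ)) +
    ∑ x, (if ξ x = some 1 then (lam : ℝ) else 0)

open Classical in
/-- The law of the configuration after the next transition out of `ξ`: each transition is chosen
with probability (its rate) / (total rate). If the total rate is `0`, nothing changes. -/
noncomputable def jump (G : SinkGraph V E) (lam : ℝ≥0) (ξ : Config V) : Measure (Config V) :=
  if rate G lam ξ = 0 then Measure.dirac ξ
  else
    (∑ i, ENNReal.ofReal ((act ξ (G.src i) : ℝ) / (G.outdeg (G.src i) : ℝ) / rate G lam ξ) •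
        Measure.dirac (arrive (depart ξ (G.src i)) (G.tgt i)))
    + ∑ x, ENNReal.ofReal ((if ξ x = some 1 then (lam : ℝ) else 0) / rate G lam ξ) •
        Measure.dirac (putToSleep ξ x)

lemma rate_nonneg (G : SinkGraph V E) (lam : ℝ≥0) (ξ : Config V) : 0 ≤ rate G lam ξ := by
  unfold rate
  refine add_nonneg (Finset.sum_nonneg fun i _ => by positivity)
    (Finset.sum_nonneg fun x _ => ?_)
  split_ifs
  · exact lam.2
  · exact le_rfl

lemma lintegral_jump (G : SinkGraph V E) (lam : ℝ≥0) {ξ : Config V} (h : rate G lam ξ ≠ 0)
    (W : Config V → ℝ) (hW : ∀ ξ, 0 ≤ W ξ) :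
    ∫⁻ ζ, ENNReal.ofReal (W ζ) ∂(jump G lam ξ) = ENNReal.ofReal
      (((∑ i, (act ξ (G.src i) : ℝ) / (G.outdeg (G.src i) : ℝ) *
          W (arrive (depart ξ (G.src i)) (G.tgt i))) +
        ∑ x, (if ξ x = some 1 then (lam : ℝ) else 0) * W (putToSleep ξ x)) / rate G lam ξ) := by
  have hr := rate_nonneg G lam ξ
  have hs : ∀ x, 0 ≤ (if ξ x = some 1 then (lam : ℝ) else 0) := fun x => by
    split_ifs
    · exact lam.2
    · exact le_rfl
  unfold jump
  rw [if_neg h, lintegral_add_measure, lintegral_finsetSum_measure, lintegral_finsetSum_measure]
  simp only [lintegral_smul_measure, lintegral_dirac, smul_eq_mul]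
  rw [add_div, ENNReal.ofReal_add, Finset.sum_div, Finset.sum_div,
    ENNReal.ofReal_sum_of_nonneg, ENNReal.ofReal_sum_of_nonneg]
  · congr 1
    · refine Finset.sum_congr rfl fun i _ => ?_
      rw [← ENNReal.ofReal_mul (by positivity)]
      congr 1
      ring
    · refine Finset.sum_congr rfl fun x _ => ?_
      rw [← ENNReal.ofReal_mul (div_nonneg (hs x) hr)]
      congr 1
      ring
  · intro x _
    exact div_nonneg (mul_nonneg (hs x) (hW _)) hr
  · intro i _
    exact div_nonneg (mul_nonneg (by positivity) (hW _)) hr
  · exact div_nonneg (Finset.sum_nonneg fun i _ => mul_nonneg (by positivity) (hW _)) hr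
  · exact div_nonneg (Finset.sum_nonneg fun x _ => mul_nonneg (hs x) (hW _)) hr

lemma jump_univ (G : SinkGraph V E) (lam : ℝ≥0) (ξ : Config V) :
    jump G lam ξ Set.univ = 1 := by
  by_cases h : rate G lam ξ = 0
  · unfold jump
    rw [if_pos h]
    simp
  · have h1 := lintegral_jump G lam h (fun _ => 1) (fun _ => zero_le_one)
    simp only [ENNReal.ofReal_one, lintegral_const, one_mul, mul_one] at h1
    rw [h1]
    have h2 : ((∑ i, (act ξ (G.src i) : ℝ) / (G.outdeg (G.src i) : ℝ)) +
        ∑ x, (if ξ x = some 1 then (lam : ℝ) else 0)) = rate G lam ξ := rfl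
    rw [h2, div_self h, ENNReal.ofReal_one]

/-- The transition kernel of the embedded jump chain. -/
noncomputable def jumpKernel (G : SinkGraph V E) (lam : ℝ≥0) : Kernel (Config V) (Config V) :=
  Kernel.ofFunOfCountable (jump G lam)

instance (G : SinkGraph V E) (lam : ℝ≥0) : IsMarkovKernel (jumpKernel G lam) :=
  ⟨fun ξ => ⟨jump_univ G lam ξ⟩⟩

/-- The law of the embedded jump chain started from `ξ₀` (Ionescu-Tulcea). -/
noncomputable def chainLaw (G : SinkGraph V E) (lam : ℝ≥0) (ξ₀ : Config V) :
    Measure (ℕ → Config V) :=
  Kernel.traj (X := fun _ => Config V)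
    (fun n => (jumpKernel G lam).comap (fun h => h ⟨n, Finset.mem_Iic.2 le_rfl⟩)
      (measurable_pi_apply _)) 0 (fun _ => ξ₀)

/-- The law of activated random walk: the embedded jump chain together with independent standard
exponential variables, the `n`-th of which, divided by the transition rate, is the time spent in
the `n`-th configuration. -/
noncomputable def arwLaw (G : SinkGraph V E) (lam : ℝ≥0) (ξ₀ : Config V) :
    Measure ((ℕ → Config V) × (ℕ → ℝ)) :=
  (chainLaw G lam ξ₀).prod (Measure.infinitePi (fun _ : ℕ => expMeasure 1))

/-- The time of the `n`-th transition (it is `∞` if the rate of an earlier configuration is `0`,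
that is, if an earlier configuration is stable). -/
noncomputable def jumpTime (G : SinkGraph V E) (lam : ℝ≥0) (ω : (ℕ → Config V) × (ℕ → ℝ))
    (n : ℕ) : ℝ≥0∞ :=
  ∑ j ∈ Finset.range n, ENNReal.ofReal (ω.2 j) / ENNReal.ofReal (rate G lam (ω.1 j))

/-- `IsAt G lam ω t ξ`: the continuous-time process is in the configuration `ξ` at the time `t`. -/
def IsAt (G : SinkGraph V E) (lam : ℝ≥0) (ω : (ℕ → Config V) × (ℕ → ℝ)) (t : ℝ≥0)
    (ξ : Config V) : Prop :=
  ∃ n, jumpTime G lam ω n ≤ t ∧ t < jumpTime G lam ω (n + 1) ∧ ω.1 n = ξ

/-- The event that the process reaches a stable configuration with at least `k` (sleeping)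
particles, that is, the event `N ≥ k`. -/
def endsWith (G : SinkGraph V E) (lam : ℝ≥0) (k : ℕ) : Set ((ℕ → Config V) × (ℕ → ℝ)) :=
  {ω | ∃ (t : ℝ≥0) (ξ : Config V), IsAt G lam ω t ξ ∧ Stable ξ ∧ k ≤ sleepers ξ}

end defs

end Pool.Agent.Helper96.ARW
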