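import Mathlib
import Pool.Agent.Helper96.ArwDefs

/-! The abelian property of activated random walk in law, for a system in which the successive
targets of one edge `e` are prescribed by a sequence `τ`. -/

open Finset

namespace Pool.Agent.Helper96.ARW

section sitewise

variable {V : Type} [DecidableEq V]

/-- apply an operation to the content of one site -/
def app (u : V) (f : Option ℕ → Option ℕ) (ξ : Config V) : Config V :=
  Function.update ξ u (f (ξ u))

/-- effect of a sleep instruction on the content of a site -/
def slp (a : Option ℕ) : Option ℕ := if a = some 1 then none else a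

def dec (a : Option ℕ) : Option ℕ := a.map (· - 1)

lemma app_comm {u v : V} (h : u ≠ v) (f g : Option ℕ → Option ℕ) (ξ : Config V) :
    app u f (app v g ξ) = app v g (app u f ξ) := by
  unfold app
  rw [Function.update_comm h, Function.update_of_ne h, Function.update_of_ne h.symm]

lemma app_app (u : V) (f g : Option ℕ → Option ℕ) (ξ : Config V) :
    app u f (app u g ξ) = app u (fun a => f (g a)) ξ := by
  unfold app
  simp

lemma app_congr (u : V) {f g : Option ℕ → Option ℕ} (ξ : Config V) (h : f (ξ u) = g (ξ u)) :
    app u f ξ = app u g ξ := by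
  unfold app
  rw [h]

lemma app_id (u : V) {f : Option ℕ → Option ℕ} (ξ : Config V) (h : f (ξ u) = ξ u) :
    app u f ξ = ξ := by
  unfold app
  rw [h, Function.update_eq_self]

/-- a sleep instruction at `u` -/
def doze (u : V) (ξ : Config V) : Config V := app u slp ξ

lemma depart_eq (ξ : Config V) (u : V) : depart ξ u = app u dec ξ := rfl

lemma arrive_some (ξ : Config V) (y : V) : arrive ξ (some y) = app y inc ξ := rfl

lemma arrive_none (ξ : Config V) : arrive ξ none = ξ := rfl

lemma inc_slp (a : Option ℕ) : inc (slp a) = inc a := by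
  unfold slp
  split_ifs with h
  · rw [h]; rfl
  · rfl

lemma slp_inc {a : Option ℕ} (h : 0 < a.getD 0) : slp (inc a) = inc a := by
  cases a with
  | none => simp at h
  | some k =>
    simp only [Option.getD_some] at h
    unfold slp inc
    rw [if_neg]
    simp
    omega

lemma inc_dec {a : Option ℕ} (h : 0 < a.getD 0) : inc (dec a) = a := by
  cases a with
  | none => simp at h
  | some k =>
    simp only [Option.getD_some] at h
    simp only [dec, inc, Option.map_some]
    congr 1
    omega

lemma dec_inc {a : Option ℕ} (h : 0 < a.getD 0) : dec (inc a) = a := by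
  cases a with
  | none => simp at h
  | some k => simp [dec, inc]

lemma act_pos_inc (a : Option ℕ) : 0 < (inc a).getD 0 := by
  cases a <;> simp [inc]

lemma act_app_ne {u v : V} (h : u ≠ v) (f : Option ℕ → Option ℕ) (ξ : Config V) :
    act (app v f ξ) u = act ξ u := by
  unfold act app
  rw [Function.update_of_ne h]

lemma app_ne {u v : V} (h : u ≠ v) (f : Option ℕ → Option ℕ) (ξ : Config V) :
    app v f ξ u = ξ u := by
  unfold app
  rw [Function.update_of_ne h]

lemma app_same (u : V) (f : Option ℕ → Option ℕ) (ξ : Config V) :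
    app u f ξ u = f (ξ u) := by
  unfold app
  rw [Function.update_self]

lemma act_arrive_pos {u : V} {ξ : Config V} (h : 0 < act ξ u) (t : Option V) :
    0 < act (arrive ξ t) u := by
  cases t with
  | none => exact h
  | some y =>
    rw [arrive_some]
    by_cases hy : u = y
    · subst hy
      unfold act
      rw [app_same]
      exact act_pos_inc _
    · rw [act_app_ne hy]; exact h

lemma doze_comm {u v : V} (h : u ≠ v) (ξ : Config V) : doze u (doze v ξ) = doze v (doze u ξ) :=
  app_comm h _ _ _

lemma depart_comm {u v : V} (h : u ≠ v) (ξ : Config V) :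
    depart (depart ξ u) v = depart (depart ξ v) u := app_comm h.symm _ _ _

lemma doze_depart {u v : V} (h : u ≠ v) (ξ : Config V) :
    doze u (depart ξ v) = depart (doze u ξ) v := app_comm h _ _ _

lemma arrive_doze {u : V} {ξ : Config V} (h : 0 < act ξ u) (t : Option V) :
    arrive (doze u ξ) t = doze u (arrive ξ t) := by
  cases t with
  | none => rfl
  | some y =>
    rw [arrive_some, arrive_some]
    by_cases hy : u = y
    · subst hy
      unfold doze
      rw [app_app, app_app]
      apply app_congr
      rw [inc_slp, slp_inc h]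
    · exact app_comm (Ne.symm hy) _ _ _

lemma arrive_depart {u : V} {ξ : Config V} (h : 0 < act ξ u) (t : Option V) :
    arrive (depart ξ u) t = depart (arrive ξ t) u := by
  cases t with
  | none => rfl
  | some y =>
    rw [arrive_some, arrive_some]
    by_cases hy : u = y
    · subst hy
      rw [depart_eq, depart_eq, app_app, app_app]
      apply app_congr
      rw [inc_dec h, dec_inc h]
    · exact app_comm (Ne.symm hy) _ _ _

lemma arrive_comm (ξ : Config V) (t t' : Option V) :
    arrive (arrive ξ t) t' = arrive (arrive ξ t') t := by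
  cases t with
  | none => rfl
  | some y =>
    cases t' with
    | none => rfl
    | some y' =>
      simp only [arrive_some]
      by_cases hy : y = y'
      · subst hy; rfl
      · exact app_comm (Ne.symm hy) _ _ _

end sitewise

variable {V E : Type} [Fintype V] [DecidableEq V] [Fintype E] [DecidableEq E]

/-- probability that a jump from `u` uses the edge `i` -/
noncomputable def wt (G : SinkGraph V E) (u : V) (i : E) : ℝ :=
  if G.src i = u then 1 / (G.outdeg u : ℝ) else 0

omit [Fintype V] [DecidableEq E] in
lemma wt_nonneg (G : SinkGraph V E) (u : V) (i : E) : 0 ≤ wt G u i := by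
  unfold wt; split_ifs <;> positivity

omit [Fintype V] [DecidableEq E] in
lemma wt_of_ne {G : SinkGraph V E} {u : V} {i : E} (h : G.src i ≠ u) : wt G u i = 0 := by
  unfold wt; rw [if_neg h]

omit [Fintype V] [DecidableEq E] in
lemma outdeg_pos {G : SinkGraph V E} {u : V} (h : ∃ i, G.src i = u) : 0 < G.outdeg u := by
  obtain ⟨i, hi⟩ := h
  exact Finset.card_pos.2 ⟨i, by simp [hi]⟩

omit [Fintype V] [DecidableEq E] in
lemma sum_wt {G : SinkGraph V E} {u : V} (h : ∃ i, G.src i = u) : ∑ i, wt G u i = 1 := by
  unfold wt
  rw [← Finset.sum_filter, Finset.sum_const, nsmul_eq_mul]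
  have h1 : (0 : ℝ) < G.outdeg u := by exact_mod_cast outdeg_pos h
  change (G.outdeg u : ℝ) * _ = 1
  field_simp

/-- the remaining sequence of targets of `e` after a jump along `i` -/
def adv (e i : E) (τ : ℕ → Option V) : ℕ → Option V := if i = e then fun n => τ (n + 1) else τ

/-- the vertex reached by a jump along `i` -/
def lnd (G : SinkGraph V E) (e i : E) (τ : ℕ → Option V) : Option V :=
  if i = e then τ 0 else G.tgt i

/-- expected value of `W` after one instruction is executed at `u` -/
noncomputable def top (G : SinkGraph V E) (e : E) (q : ℝ) (u : V)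
    (W : (ℕ → Option V) → Config V → ℝ) (τ : ℕ → Option V) (ξ : Config V) : ℝ :=
  q * W τ (doze u ξ) +
    (1 - q) * ∑ i, wt G u i * W (adv e i τ) (arrive (depart ξ u) (lnd G e i τ))

omit [Fintype V] [Fintype E] [DecidableEq V] in
lemma adv_comm (e i j : E) (τ : ℕ → Option V) : adv e j (adv e i τ) = adv e i (adv e j τ) := by
  unfold adv
  split_ifs <;> rfl

omit [Fintype V] in
theorem top_comm (G : SinkGraph V E) (e : E) (q : ℝ) {u v : V} (huv : u ≠ v)
    (W : (ℕ → Option V) → Config V → ℝ) (τ : ℕ → Option V) (ξ : Config V)
    (hu : 0 < act ξ u) (hv : 0 < act ξ v) :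
    top G e q u (top G e q v W) τ ξ = top G e q v (top G e q u W) τ ξ := by
  -- expansion of both sides
  have key : ∀ u v : V, u ≠ v → 0 < act ξ u → 0 < act ξ v →
      top G e q u (top G e q v W) τ ξ =
        q * q * W τ (doze v (doze u ξ)) +
        q * (1 - q) * ∑ j, wt G v j * W (adv e j τ) (doze u (arrive (depart ξ v) (lnd G e j τ))) +
        q * (1 - q) * ∑ i, wt G u i * W (adv e i τ) (doze v (arrive (depart ξ u) (lnd G e i τ))) +
        (1 - q) * (1 - q) * ∑ i, ∑ j, wt G u i * (wt G v j * W (adv e j (adv e i τ))
          (arrive (arrive (depart (depart ξ u) v) (lnd G e i τ)) (lnd G e j τ))) := by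
    intro u v huv hu hv
    have e1 : ∀ t, arrive (depart (doze u ξ) v) t = doze u (arrive (depart ξ v) t) := by
      intro t
      rw [← doze_depart huv, arrive_doze]
      rw [depart_eq, act_app_ne huv]; exact hu
    have e2 : ∀ t t', arrive (depart (arrive (depart ξ u) t) v) t' =
        arrive (arrive (depart (depart ξ u) v) t) t' := by
      intro t t'
      have hv2 : 0 < act (depart ξ u) v := by
        rw [depart_eq, act_app_ne huv.symm]; exact hv
      rw [← arrive_depart hv2]
    have e3 : ∀ i j, wt G u i * (wt G v j * W (adv e j (adv e i τ))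
          (arrive (arrive (depart (depart ξ u) v) (lnd G e i τ)) (lnd G e j (adv e i τ)))) =
        wt G u i * (wt G v j * W (adv e j (adv e i τ))
          (arrive (arrive (depart (depart ξ u) v) (lnd G e i τ)) (lnd G e j τ))) := by
      intro i j
      by_cases hi : G.src i = u
      · by_cases hj : G.src j = v
        · have hij : lnd G e j (adv e i τ) = lnd G e j τ := by
            unfold lnd adv
            by_cases h1 : j = e
            · have h2 : i ≠ e := by
                rintro rfl
                apply huv
                rw [← hi, ← hj, h1]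
              rw [if_pos h1, if_pos h1, if_neg h2]
            · rw [if_neg h1, if_neg h1]
          rw [hij]
        · rw [wt_of_ne hj]; ring
      · rw [wt_of_ne hi]; ring
    simp only [top]
    simp only [e1, e2]
    simp only [mul_add, Finset.mul_sum, Finset.sum_add_distrib]
    have e4 : ∀ i, ∑ j, (1 - q) * (wt G u i * ((1 - q) * (wt G v j * W (adv e j (adv e i τ))
          (arrive (arrive (depart (depart ξ u) v) (lnd G e i τ)) (lnd G e j (adv e i τ))))))
        = ∑ j, (1 - q) * (1 - q) * (wt G u i * (wt G v j * W (adv e j (adv e i τ))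
          (arrive (arrive (depart (depart ξ u) v) (lnd G e i τ)) (lnd G e j τ)))) := by
      intro i
      refine Finset.sum_congr rfl fun j _ => ?_
      rw [← e3 i j]
      ring
    rw [Finset.sum_congr rfl fun i _ => e4 i]
    rw [Finset.sum_congr rfl fun i _ => (show (1 - q) * (wt G u i * (q * W (adv e i τ)
      (doze v (arrive (depart ξ u) (lnd G e i τ))))) = q * (1 - q) * (wt G u i * W (adv e i τ)
      (doze v (arrive (depart ξ u) (lnd G e i τ)))) by ring)]
    rw [Finset.sum_congr rfl fun j _ => (show q * ((1 - q) * (wt G v j * W (adv e j τ)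
      (doze u (arrive (depart ξ v) (lnd G e j τ))))) = q * (1 - q) * (wt G v j * W (adv e j τ)
      (doze u (arrive (depart ξ v) (lnd G e j τ)))) by ring)]
    ring
  rw [key u v huv hu hv, key v u huv.symm hv hu, Finset.sum_comm, doze_comm huv]
  have e5 : ∀ i j, wt G u i * (wt G v j * W (adv e j (adv e i τ))
          (arrive (arrive (depart (depart ξ u) v) (lnd G e i τ)) (lnd G e j τ))) =
      wt G v j * (wt G u i * W (adv e i (adv e j τ))
          (arrive (arrive (depart (depart ξ v) u) (lnd G e j τ)) (lnd G e i τ))) := by
    intro i j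
    rw [adv_comm, depart_comm huv, arrive_comm]
    ring
  simp only [e5]
  ring

/-- Probability that the system stabilises after exactly `M` instructions, at least `k` particles
being left. -/
noncomputable def fM (G : SinkGraph V E) (e : E) (q : ℝ) (k : ℕ) :
    ℕ → (ℕ → Option V) → Config V → ℝ
  | 0 => fun _ ξ => by classical exact if Stable ξ ∧ k ≤ sleepers ξ then 1 else 0
  | M + 1 => fun τ ξ => by
      classical exact if h : ∃ u, 0 < act ξ u then top G e q h.choose (fM G e q k M) τ ξ else 0

omit [Fintype V] [DecidableEq V] in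
lemma not_stable_of_act {ξ : Config V} {u : V} (h : 0 < act ξ u) : ¬ Stable ξ := by
  intro hs
  have := hs u
  omega

lemma fM_zero_of_act (G : SinkGraph V E) (e : E) (q : ℝ) (k : ℕ) (τ : ℕ → Option V)
    {ξ : Config V} {u : V} (h : 0 < act ξ u) : fM G e q k 0 τ ξ = 0 := by
  unfold fM
  rw [if_neg]
  exact fun h' => not_stable_of_act h h'.1

lemma fM_zero_of_stable (G : SinkGraph V E) (e : E) (q : ℝ) (k : ℕ) (τ : ℕ → Option V)
    {ξ : Config V} (h : Stable ξ) : fM G e q k 0 τ ξ = if k ≤ sleepers ξ then 1 else 0 := by
  unfold fM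
  simp [h]

lemma fM_succ_of_stable (G : SinkGraph V E) (e : E) (q : ℝ) (k M : ℕ) (τ : ℕ → Option V)
    {ξ : Config V} (h : Stable ξ) : fM G e q k (M + 1) τ ξ = 0 := by
  unfold fM
  rw [dif_neg]
  rintro ⟨u, hu⟩
  exact not_stable_of_act hu h

lemma fM_succ_choose (G : SinkGraph V E) (e : E) (q : ℝ) (k M : ℕ) (τ : ℕ → Option V)
    {ξ : Config V} (h : ∃ u, 0 < act ξ u) :
    fM G e q k (M + 1) τ ξ = top G e q h.choose (fM G e q k M) τ ξ := by
  conv_lhs => unfold fM
  rw [dif_pos h]

omit [Fintype V] in
/-- the value of `top` only depends on the values of `W` at configurations in which every other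
active site is still active -/
lemma top_congr (G : SinkGraph V E) (e : E) (q : ℝ) {u v : V} (huv : u ≠ v)
    {W W' : (ℕ → Option V) → Config V → ℝ} (τ : ℕ → Option V) (ξ : Config V)
    (hv : 0 < act ξ v) (hW : ∀ τ ξ, 0 < act ξ v → W τ ξ = W' τ ξ) :
    top G e q u W τ ξ = top G e q u W' τ ξ := by
  unfold top
  rw [hW]
  · congr 2
    refine Finset.sum_congr rfl fun i _ => ?_
    rw [hW]
    apply act_arrive_pos
    rw [depart_eq, act_app_ne huv.symm]; exact hv
  · unfold doze
    rw [act_app_ne huv.symm]; exact hv

/-- **Abelian property** (in law): any active site may be toppled. -/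
theorem fM_succ (G : SinkGraph V E) (e : E) (q : ℝ) (k : ℕ) :
    ∀ (M : ℕ) (τ : ℕ → Option V) (ξ : Config V) (u : V), 0 < act ξ u →
      fM G e q k (M + 1) τ ξ = top G e q u (fM G e q k M) τ ξ := by
  intro M
  induction M with
  | zero =>
    intro τ ξ u hu
    have hex : ∃ u, 0 < act ξ u := ⟨u, hu⟩
    rw [fM_succ_choose G e q k 0 τ hex]
    set v := hex.choose with hv
    have hv' : 0 < act ξ v := hex.choose_spec
    by_cases huv : u = v
    · rw [huv]
    · have z : ∀ a b : V, a ≠ b → 0 < act ξ b → top G e q a (fM G e q k 0) τ ξ = 0 := by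
        intro a b hab hb
        rw [top_congr G e q hab (W' := fun _ _ => 0) τ ξ hb
          (fun τ ξ h => fM_zero_of_act G e q k τ h)]
        simp [top]
      rw [z v u (Ne.symm huv) hu, z u v huv hv']
  | succ M ih =>
    intro τ ξ u hu
    have hex : ∃ u, 0 < act ξ u := ⟨u, hu⟩
    rw [fM_succ_choose G e q k (M + 1) τ hex]
    set v := hex.choose with hv
    have hv' : 0 < act ξ v := hex.choose_spec
    by_cases huv : u = v
    · rw [huv]
    · rw [top_congr G e q (Ne.symm huv) (W' := top G e q u (fM G e q k M)) τ ξ hu
        (fun τ ξ h => ih τ ξ u h)]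
      rw [top_congr G e q huv (W' := top G e q v (fM G e q k M)) τ ξ hv'
        (fun τ ξ h => ih τ ξ v h)]
      exact (top_comm G e q huv _ τ ξ hu hv').symm

end Pool.Agent.Helper96.ARW
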