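import Mathlib
import Pool.Agent.Helper96.ArwAbel

/-! The probability of ending with at least `k` sleeping particles, as a function `F` of the
configuration (and of the sequence of targets of `e`). -/

open Finset Filter
open scoped Topology

namespace Pool.Agent.Helper96.ARW

variable {V E : Type} [Fintype V] [DecidableEq V] [Fintype E] [DecidableEq E]

omit [Fintype V] [DecidableEq E] in
lemma sum_wt_le_one (G : SinkGraph V E) (u : V) : ∑ i, wt G u i ≤ 1 := by
  by_cases h : ∃ i, G.src i = u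
  · rw [sum_wt h]
  · have : ∑ i, wt G u i = 0 := by
      refine Finset.sum_eq_zero fun i _ => wt_of_ne fun hi => h ⟨i, hi⟩
    rw [this]; exact zero_le_one

omit [Fintype V] in
lemma top_nonneg (G : SinkGraph V E) (e : E) {q : ℝ} (hq0 : 0 ≤ q) (hq1 : q ≤ 1) (u : V)
    {W : (ℕ → Option V) → Config V → ℝ} (hW : ∀ τ ξ, 0 ≤ W τ ξ) (τ : ℕ → Option V)
    (ξ : Config V) : 0 ≤ top G e q u W τ ξ := by
  unfold top
  have h1 : 0 ≤ ∑ i, wt G u i * W (adv e i τ) (arrive (depart ξ u) (lnd G e i τ)) :=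
    Finset.sum_nonneg fun i _ => mul_nonneg (wt_nonneg G u i) (hW _ _)
  have h2 := hW τ (doze u ξ)
  have h3 : 0 ≤ 1 - q := by linarith
  positivity

omit [Fintype V] in
lemma top_le (G : SinkGraph V E) (e : E) {q : ℝ} (hq0 : 0 ≤ q) (hq1 : q ≤ 1) (u : V)
    {W : (ℕ → Option V) → Config V → ℝ} {C : ℝ} (hC : 0 ≤ C) (hW : ∀ τ ξ, W τ ξ ≤ C)
    (τ : ℕ → Option V) (ξ : Config V) : top G e q u W τ ξ ≤ C := by
  unfold top
  have h1 : ∑ i, wt G u i * W (adv e i τ) (arrive (depart ξ u) (lnd G e i τ)) ≤ C := by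
    calc _ ≤ ∑ i, wt G u i * C :=
          Finset.sum_le_sum fun i _ => mul_le_mul_of_nonneg_left (hW _ _) (wt_nonneg G u i)
      _ = (∑ i, wt G u i) * C := by rw [Finset.sum_mul]
      _ ≤ 1 * C := mul_le_mul_of_nonneg_right (sum_wt_le_one G u) hC
      _ = C := one_mul C
  have h2 := hW τ (doze u ξ)
  have h3 : 0 ≤ 1 - q := by linarith
  nlinarith

lemma fM_nonneg (G : SinkGraph V E) (e : E) {q : ℝ} (hq0 : 0 ≤ q) (hq1 : q ≤ 1) (k M : ℕ)
    (τ : ℕ → Option V) (ξ : Config V) : 0 ≤ fM G e q k M τ ξ := by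
  induction M generalizing τ ξ with
  | zero => unfold fM; split_ifs <;> norm_num
  | succ M ih =>
    unfold fM
    split_ifs with h
    · exact top_nonneg G e hq0 hq1 _ ih _ _
    · exact le_rfl

omit [Fintype V] in
lemma top_sum (G : SinkGraph V E) (e : E) (q : ℝ) (u : V) {ι : Type} (s : Finset ι)
    (W : ι → (ℕ → Option V) → Config V → ℝ) (τ : ℕ → Option V) (ξ : Config V) :
    ∑ j ∈ s, top G e q u (W j) τ ξ = top G e q u (fun τ ξ => ∑ j ∈ s, W j τ ξ) τ ξ := by
  unfold top
  rw [Finset.sum_add_distrib, ← Finset.mul_sum, ← Finset.mul_sum, Finset.sum_comm]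
  simp only [Finset.mul_sum]

lemma fM_sum_le (G : SinkGraph V E) (e : E) {q : ℝ} (hq0 : 0 ≤ q) (hq1 : q ≤ 1) (k n : ℕ)
    (τ : ℕ → Option V) (ξ : Config V) : ∑ M ∈ range n, fM G e q k M τ ξ ≤ 1 := by
  induction n generalizing τ ξ with
  | zero => simp
  | succ n ih =>
    rw [Finset.sum_range_succ']
    by_cases h : ∃ u, 0 < act ξ u
    · obtain ⟨u, hu⟩ := h
      rw [fM_zero_of_act G e q k τ hu, add_zero]
      rw [Finset.sum_congr rfl fun M _ => fM_succ G e q k M τ ξ u hu, top_sum]
      exact top_le G e hq0 hq1 u zero_le_one ih τ ξ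
    · have hs : Stable ξ := fun x => by
        by_contra hx
        exact h ⟨x, by omega⟩
      rw [Finset.sum_congr rfl fun M _ => fM_succ_of_stable G e q k M τ hs,
        fM_zero_of_stable G e q k τ hs]
      simp only [Finset.sum_const_zero, zero_add]
      split_ifs <;> norm_num

lemma fM_summable (G : SinkGraph V E) (e : E) {q : ℝ} (hq0 : 0 ≤ q) (hq1 : q ≤ 1) (k : ℕ)
    (τ : ℕ → Option V) (ξ : Config V) : Summable fun M => fM G e q k M τ ξ :=
  summable_of_sum_range_le (fun M => fM_nonneg G e hq0 hq1 k M τ ξ)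
    (fun n => fM_sum_le G e hq0 hq1 k n τ ξ)

/-- probability of ending with at least `k` particles -/
noncomputable def F (G : SinkGraph V E) (e : E) (q : ℝ) (k : ℕ) (τ : ℕ → Option V)
    (ξ : Config V) : ℝ := ∑' M, fM G e q k M τ ξ

lemma F_nonneg (G : SinkGraph V E) (e : E) {q : ℝ} (hq0 : 0 ≤ q) (hq1 : q ≤ 1) (k : ℕ)
    (τ : ℕ → Option V) (ξ : Config V) : 0 ≤ F G e q k τ ξ :=
  tsum_nonneg fun M => fM_nonneg G e hq0 hq1 k M τ ξ

lemma F_le_one (G : SinkGraph V E) (e : E) {q : ℝ} (hq0 : 0 ≤ q) (hq1 : q ≤ 1) (k : ℕ)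
    (τ : ℕ → Option V) (ξ : Config V) : F G e q k τ ξ ≤ 1 :=
  (fM_summable G e hq0 hq1 k τ ξ).tsum_le_of_sum_range_le
    (fun n => fM_sum_le G e hq0 hq1 k n τ ξ)

lemma sum_le_F (G : SinkGraph V E) (e : E) {q : ℝ} (hq0 : 0 ≤ q) (hq1 : q ≤ 1) (k n : ℕ)
    (τ : ℕ → Option V) (ξ : Config V) : ∑ M ∈ range n, fM G e q k M τ ξ ≤ F G e q k τ ξ :=
  (fM_summable G e hq0 hq1 k τ ξ).sum_le_tsum _ fun M _ => fM_nonneg G e hq0 hq1 k M τ ξ

lemma F_top (G : SinkGraph V E) (e : E) {q : ℝ} (hq0 : 0 ≤ q) (hq1 : q ≤ 1) (k : ℕ)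
    (τ : ℕ → Option V) (ξ : Config V) {u : V} (hu : 0 < act ξ u) :
    F G e q k τ ξ = top G e q u (F G e q k) τ ξ := by
  have hS := fun τ ξ => (fM_summable G e hq0 hq1 k τ ξ).hasSum
  have h1 : HasSum (fun M => top G e q u (fM G e q k M) τ ξ) (top G e q u (F G e q k) τ ξ) := by
    unfold top
    refine ((hS τ (doze u ξ)).mul_left q).add (HasSum.mul_left _ ?_)
    exact hasSum_sum fun i _ => (hS _ _).mul_left _
  have h2 : HasSum (fun M => fM G e q k (M + 1) τ ξ) (top G e q u (F G e q k) τ ξ) := by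
    simpa only [fM_succ G e q k _ τ ξ u hu] using h1
  have h3 := (hasSum_nat_add_iff (f := fun M => fM G e q k M τ ξ) 1).1 h2
  rw [Finset.sum_range_one, fM_zero_of_act G e q k τ hu, add_zero] at h3
  exact (hS τ ξ).unique h3

lemma F_stable (G : SinkGraph V E) (e : E) (q : ℝ) (k : ℕ)
    (τ : ℕ → Option V) {ξ : Config V} (h : Stable ξ) :
    F G e q k τ ξ = if k ≤ sleepers ξ then 1 else 0 := by
  unfold F
  rw [tsum_eq_single 0, fM_zero_of_stable G e q k τ h]
  intro M hM
  obtain ⟨M', rfl⟩ := Nat.exists_eq_succ_of_ne_zero hM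
  exact fM_succ_of_stable G e q k M' τ h

/-- the first `M` instructions only use the first `M` targets -/
lemma fM_local (G : SinkGraph V E) (e : E) (q : ℝ) (k M : ℕ) :
    ∀ (τ τ' : ℕ → Option V) (ξ : Config V), (∀ i < M, τ i = τ' i) →
      fM G e q k M τ ξ = fM G e q k M τ' ξ := by
  induction M with
  | zero => intro τ τ' ξ _; rfl
  | succ M ih =>
    intro τ τ' ξ h
    by_cases hex : ∃ u, 0 < act ξ u
    · obtain ⟨u, hu⟩ := hex
      rw [fM_succ G e q k M τ ξ u hu, fM_succ G e q k M τ' ξ u hu]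
      unfold top
      rw [ih τ τ' _ fun i hi => h i (by omega)]
      congr 2
      refine Finset.sum_congr rfl fun i _ => ?_
      have h1 : lnd G e i τ = lnd G e i τ' := by
        unfold lnd
        rw [h 0 (by omega)]
      rw [h1, ih (adv e i τ) (adv e i τ')]
      intro j hj
      unfold adv
      split_ifs
      · exact h (j + 1) (by omega)
      · exact h j (by omega)
    · have hs : Stable ξ := fun x => by
        by_contra hx
        exact hex ⟨x, by omega⟩
      rw [fM_succ_of_stable G e q k M τ hs, fM_succ_of_stable G e q k M τ' hs]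

/-- number of particles at a site -/
def cnt (a : Option ℕ) : ℕ := a.getD 1

/-- total number of particles -/
def total (ξ : Config V) : ℕ := ∑ x, cnt (ξ x)

lemma total_app (u : V) (f : Option ℕ → Option ℕ) (ξ : Config V) :
    total (app u f ξ) + cnt (ξ u) = total ξ + cnt (f (ξ u)) := by
  unfold total
  rw [← Finset.add_sum_erase _ _ (mem_univ u),
    ← Finset.add_sum_erase (a := u) univ (fun x => cnt (ξ x)) (mem_univ u)]
  rw [app_same]
  rw [Finset.sum_congr rfl fun x hx => (show cnt (app u f ξ x) = cnt (ξ x) by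
    rw [app_ne (Finset.ne_of_mem_erase hx)])]
  ring

lemma total_doze (u : V) (ξ : Config V) : total (doze u ξ) = total ξ := by
  have h := total_app u slp ξ
  have h2 : cnt (slp (ξ u)) = cnt (ξ u) := by
    unfold slp
    split_ifs with h
    · rw [h]; rfl
    · rfl
  unfold doze
  omega

lemma total_depart {u : V} {ξ : Config V} (h : 0 < act ξ u) :
    total (depart ξ u) + 1 = total ξ := by
  have h1 := total_app u dec ξ
  rw [depart_eq]
  unfold act at h
  cases hx : ξ u with
  | none => rw [hx] at h; simp at h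
  | some k =>
    rw [hx] at h h1
    simp only [Option.getD_some] at h
    simp only [dec, Option.map_some, cnt, Option.getD_some] at h1
    omega

lemma total_arrive (ξ : Config V) (t : Option V) : total (arrive ξ t) ≤ total ξ + 1 := by
  cases t with
  | none => exact Nat.le_succ _
  | some y =>
    have h1 := total_app y inc ξ
    rw [arrive_some]
    cases hx : ξ y with
    | none => rw [hx] at h1; simp only [inc, cnt, Option.getD_none, Option.getD_some] at h1; omega
    | some k => rw [hx] at h1; simp only [inc, cnt, Option.getD_some] at h1; omega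

omit [DecidableEq V] in
lemma sleepers_le_total (ξ : Config V) : sleepers ξ ≤ total ξ := by
  unfold sleepers total
  rw [Finset.card_filter]
  refine Finset.sum_le_sum fun x _ => ?_
  split_ifs with h
  · rw [h]; rfl
  · exact Nat.zero_le _

lemma fM_eq_zero_of_total (G : SinkGraph V E) (e : E) (q : ℝ) (k M : ℕ) :
    ∀ (τ : ℕ → Option V) (ξ : Config V), total ξ < k → fM G e q k M τ ξ = 0 := by
  induction M with
  | zero =>
    intro τ ξ h
    unfold fM
    rw [if_neg]
    rintro ⟨_, h2⟩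
    have := sleepers_le_total ξ
    omega
  | succ M ih =>
    intro τ ξ h
    by_cases hex : ∃ u, 0 < act ξ u
    · obtain ⟨u, hu⟩ := hex
      rw [fM_succ G e q k M τ ξ u hu]
      unfold top
      rw [ih τ (doze u ξ) (by rw [total_doze]; exact h)]
      rw [Finset.sum_eq_zero]
      · ring
      · intro i _
        rw [ih, mul_zero]
        have h1 := total_arrive (depart ξ u) (lnd G e i τ)
        have h2 := total_depart hu
        omega
    · have hs : Stable ξ := fun x => by
        by_contra hx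
        exact hex ⟨x, by omega⟩
      rw [fM_succ_of_stable G e q k M τ hs]

lemma F_eq_zero_of_total (G : SinkGraph V E) (e : E) (q : ℝ) (k : ℕ)
    (τ : ℕ → Option V) (ξ : Config V) (h : total ξ < k) : F G e q k τ ξ = 0 := by
  unfold F
  simp [fM_eq_zero_of_total G e q k _ τ ξ h]

end Pool.Agent.Helper96.ARW
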