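import Mathlib
import Pool.Agent.Helper96.ArwF

/-! The comparison: diverting the edge `e` to the sink lowers the probability `F`. -/

open Finset Filter
open scoped Topology

namespace Pool.Agent.Helper96.ARW

/-- A minimum principle. -/
lemma min_principle {S : Type*} (W L : S → ℝ) {B δ : ℝ} (hδ : 0 < δ) (hB : ∀ s, -B ≤ W s)
    (hL : ∀ s, 0 ≤ L s)
    (h : ∀ s, 0 ≤ W s ∨ ∀ ε > 0, ∀ m ≤ 0, (∀ s', m ≤ W s' + ε * L s') →
      m + ε * δ ≤ W s + ε * L s) : ∀ s, 0 ≤ W s := by
  have key : ∀ ε > 0, ∀ s, 0 ≤ W s + ε * L s := by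
    intro ε hε s0
    by_contra hneg
    push Not at hneg
    have : Nonempty S := ⟨s0⟩
    set m := ⨅ s, (W s + ε * L s) with hm
    have hbdd : BddBelow (Set.range fun s => W s + ε * L s) := by
      refine ⟨-B, ?_⟩
      rintro _ ⟨s, rfl⟩
      have := hB s
      have := mul_nonneg hε.le (hL s)
      simp only
      linarith
    have hmle : ∀ s, m ≤ W s + ε * L s := fun s => ciInf_le hbdd s
    have hm0 : m < 0 := lt_of_le_of_lt (hmle s0) hneg
    have hlt : m < min (m + ε * δ) 0 := lt_min (by have := mul_pos hε hδ; linarith) hm0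
    obtain ⟨s1, hs1⟩ := exists_lt_of_ciInf_lt hlt
    have h1 : W s1 + ε * L s1 < m + ε * δ := lt_of_lt_of_le hs1 (min_le_left _ _)
    have h2 : W s1 + ε * L s1 < 0 := lt_of_lt_of_le hs1 (min_le_right _ _)
    rcases h s1 with h3 | h3
    · have := mul_nonneg hε.le (hL s1)
      linarith
    · have := h3 ε hε m hm0.le hmle
      linarith
  intro s
  by_contra hneg
  push Not at hneg
  have h1 := hL s
  have h2 := key (-W s / (2 * (L s + 1))) (by apply div_pos <;> linarith) s
  have h3 : -W s / (2 * (L s + 1)) * L s ≤ -W s / 2 := by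
    rw [div_mul_eq_mul_div, div_le_div_iff₀ (by linarith) (by norm_num)]
    nlinarith
  linarith

variable {V E : Type} [Fintype V] [DecidableEq V] [Fintype E] [DecidableEq E]

/-- extension by zero to the sink -/
def ext0 (h : V → ℝ) : Option V → ℝ
  | none => 0
  | some y => h y

omit [Fintype V] [DecidableEq V] in
lemma ext0_nonneg {h : V → ℝ} (hh : ∀ v, 0 ≤ h v) (t : Option V) : 0 ≤ ext0 h t := by
  cases t with
  | none => exact le_rfl
  | some y => exact hh y

/-- average over the outgoing edges -/
noncomputable def avg (G : SinkGraph V E) (h : Option V → ℝ) (u : V) : ℝ :=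
  ∑ i, wt G u i * h (G.tgt i)

omit [Fintype V] [DecidableEq E] in
lemma avg_mono (G : SinkGraph V E) {h h' : Option V → ℝ} (hh : ∀ t, h t ≤ h' t) (u : V) :
    avg G h u ≤ avg G h' u :=
  Finset.sum_le_sum fun i _ => mul_le_mul_of_nonneg_left (hh _) (wt_nonneg G u i)

omit [Fintype V] [DecidableEq E] in
lemma avg_nonneg (G : SinkGraph V E) {h : Option V → ℝ} (hh : ∀ t, 0 ≤ h t) (u : V) :
    0 ≤ avg G h u :=
  Finset.sum_nonneg fun i _ => mul_nonneg (wt_nonneg G u i) (hh _)

omit [Fintype V] [DecidableEq E] in
lemma avg_const_mul (G : SinkGraph V E) (c : ℝ) (h : Option V → ℝ) (u : V) :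
    avg G (fun t => c * h t) u = c * avg G h u := by
  unfold avg
  rw [Finset.mul_sum]
  refine Finset.sum_congr rfl fun i _ => ?_
  ring

omit [Fintype V] [DecidableEq E] in
lemma wt_src (G : SinkGraph V E) (i : E) : wt G (G.src i) i = 1 / (G.outdeg (G.src i) : ℝ) := by
  unfold wt; rw [if_pos rfl]

omit [Fintype V] [DecidableEq E] in
lemma outdeg_src_pos (G : SinkGraph V E) (i : E) : (0 : ℝ) < (G.outdeg (G.src i) : ℝ) := by
  exact_mod_cast outdeg_pos ⟨i, rfl⟩

omit [Fintype V] in
/-- averaging two functions which differ at the target of `i` -/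
lemma avg_lt (G : SinkGraph V E) {h h' : Option V → ℝ} (hh : ∀ t, h t ≤ h' t) (i : E) {c : ℝ}
    (hi : h (G.tgt i) ≤ h' (G.tgt i) - c) :
    avg G h (G.src i) ≤ avg G h' (G.src i) - c / (G.outdeg (G.src i) : ℝ) := by
  unfold avg
  rw [← Finset.add_sum_erase _ _ (mem_univ i),
    ← Finset.add_sum_erase _ (fun j => wt G (G.src i) j * h' (G.tgt j)) (mem_univ i)]
  have h1 : ∑ x ∈ univ.erase i, wt G (G.src i) x * h (G.tgt x) ≤
      ∑ x ∈ univ.erase i, wt G (G.src i) x * h' (G.tgt x) :=
    Finset.sum_le_sum fun j _ => mul_le_mul_of_nonneg_left (hh _) (wt_nonneg G _ j)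
  have h2 : wt G (G.src i) i * h (G.tgt i) ≤ wt G (G.src i) i * (h' (G.tgt i) - c) :=
    mul_le_mul_of_nonneg_left hi (wt_nonneg G _ i)
  have h3 : wt G (G.src i) i * (h' (G.tgt i) - c) =
      wt G (G.src i) i * h' (G.tgt i) - c / (G.outdeg (G.src i) : ℝ) := by
    rw [wt_src]
    ring
  linarith

omit [Fintype V] in
lemma exists_superharm (G : SinkGraph V E) {x : V} (hx : G.Reaches x) :
    ∃ h : V → ℝ, (∀ v, 0 ≤ h v) ∧ (∀ v, avg G (ext0 h) v ≤ h v) ∧
      avg G (ext0 h) x ≤ h x - 1 := by
  induction hx with
  | sink i hi =>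
    set c : ℝ := (G.outdeg (G.src i) : ℝ) with hc
    have hcpos : 0 < c := outdeg_src_pos G i
    refine ⟨fun _ => c, fun _ => hcpos.le, fun v => ?_, ?_⟩
    · have h1 : avg G (ext0 fun _ => c) v ≤ ∑ j, wt G v j * c := by
        refine Finset.sum_le_sum fun j _ => mul_le_mul_of_nonneg_left ?_ (wt_nonneg G v j)
        cases G.tgt j with
        | none => exact hcpos.le
        | some y => exact le_rfl
      rw [← Finset.sum_mul] at h1
      have := sum_wt_le_one G v
      nlinarith
    · have h1 := avg_lt G (h := ext0 fun _ => c) (h' := fun _ => c) (fun t => by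
        cases t with
        | none => exact hcpos.le
        | some y => exact le_rfl) i (c := c) (by rw [hi]; simp [ext0])
      have h2 : avg G (fun _ => c) (G.src i) = c := by
        unfold avg
        rw [← Finset.sum_mul, sum_wt ⟨i, rfl⟩, one_mul]
      rw [h2, ← hc, div_self hcpos.ne'] at h1
      exact h1
  | step i y hi hy ih =>
    obtain ⟨h, h1, h2, h3⟩ := ih
    set c : ℝ := (G.outdeg (G.src i) : ℝ) with hc
    have hcpos : 0 < c := outdeg_src_pos G i
    set g : V → ℝ := fun v => avg G (ext0 h) v with hg
    have hgh : ∀ t, ext0 g t ≤ ext0 h t := by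
      intro t
      cases t with
      | none => exact le_rfl
      | some v => exact h2 v
    have hc' : ∀ v, avg G (ext0 fun v => c * g v) v = c * avg G (ext0 g) v := by
      intro v
      rw [← avg_const_mul]
      congr 1
      ext t
      cases t with
      | none => simp [ext0]
      | some v => rfl
    refine ⟨fun v => c * g v, fun v => mul_nonneg hcpos.le (avg_nonneg G (ext0_nonneg h1) v),
      fun v => ?_, ?_⟩
    · rw [hc']
      exact mul_le_mul_of_nonneg_left (avg_mono G hgh v) hcpos.le
    · rw [hc']
      have h4 := avg_lt G hgh i (c := 1) (by rw [hi]; exact h3)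
      rw [← hc] at h4
      have h5 : c * avg G (ext0 g) (G.src i) ≤ c * (avg G (ext0 h) (G.src i) - 1 / c) :=
        mul_le_mul_of_nonneg_left h4 hcpos.le
      have h6 : c * (avg G (ext0 h) (G.src i) - 1 / c) = c * g (G.src i) - 1 := by
        rw [hg]
        field_simp
      linarith

lemma exists_lyap (G : SinkGraph V E) (hG : ∀ x, G.Reaches x) :
    ∃ h : V → ℝ, (∀ v, 0 ≤ h v) ∧ ∀ v, avg G (ext0 h) v ≤ h v - 1 := by
  choose H h1 h2 h3 using fun x => exists_superharm G (hG x)
  refine ⟨fun v => ∑ x, H x v, fun v => Finset.sum_nonneg fun x _ => h1 x v, fun v => ?_⟩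
  have h4 : avg G (ext0 fun v => ∑ x, H x v) v = ∑ x, avg G (ext0 (H x)) v := by
    unfold avg
    rw [Finset.sum_comm]
    refine Finset.sum_congr rfl fun i _ => ?_
    rw [← Finset.mul_sum]
    congr 1
    cases G.tgt i with
    | none => simp [ext0]
    | some y => simp [ext0]
  rw [h4]
  beta_reduce
  rw [← Finset.add_sum_erase _ _ (mem_univ v),
    ← Finset.add_sum_erase _ (fun x => H x v) (mem_univ v)]
  have h5 := h3 v
  have h6 : ∑ x ∈ univ.erase v, avg G (ext0 (H x)) v ≤ ∑ x ∈ univ.erase v, H x v :=
    Finset.sum_le_sum fun x _ => h2 x v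
  linarith

/-- the Lyapunov function on configurations -/
def Lf (h : V → ℝ) (ξ : Config V) : ℝ := ∑ x, (2 * (cnt (ξ x) : ℝ) * h x + (ξ x).getD 0)

omit [DecidableEq V] in
lemma Lf_nonneg {h : V → ℝ} (hh : ∀ v, 0 ≤ h v) (ξ : Config V) : 0 ≤ Lf h ξ :=
  Finset.sum_nonneg fun x _ => by have := hh x; positivity

lemma Lf_app (h : V → ℝ) (u : V) (f : Option ℕ → Option ℕ) (ξ : Config V) :
    Lf h (app u f ξ) = Lf h ξ - (2 * (cnt (ξ u) : ℝ) * h u + (ξ u).getD 0) +
      (2 * (cnt (f (ξ u)) : ℝ) * h u + (f (ξ u)).getD 0) := by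
  unfold Lf
  rw [← Finset.add_sum_erase _ _ (mem_univ u),
    ← Finset.add_sum_erase univ (fun x => (2 * (cnt (ξ x) : ℝ) * h x + (ξ x).getD 0))
      (mem_univ u)]
  rw [app_same]
  rw [Finset.sum_congr rfl fun x hx => (show (2 * (cnt (app u f ξ x) : ℝ) * h x +
    (app u f ξ x).getD 0) = (2 * (cnt (ξ x) : ℝ) * h x + (ξ x).getD 0) by
      rw [app_ne (Finset.ne_of_mem_erase hx)])]
  ring

lemma Lf_doze (h : V → ℝ) (u : V) (ξ : Config V) : Lf h (doze u ξ) ≤ Lf h ξ := by
  unfold doze
  rw [Lf_app]
  unfold slp
  split_ifs with h1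
  · rw [h1]; simp [cnt]; linarith
  · simp

lemma Lf_putToSleep (h : V → ℝ) {u : V} {ξ : Config V} (hu : ξ u = some 1) :
    Lf h (putToSleep ξ u) = Lf h ξ - 1 := by
  have : putToSleep ξ u = app u (fun _ => none) ξ := rfl
  rw [this, Lf_app, hu]
  simp [cnt]
  ring

lemma Lf_depart (h : V → ℝ) {u : V} {ξ : Config V} (hu : 0 < act ξ u) :
    Lf h (depart ξ u) = Lf h ξ - 2 * h u - 1 := by
  rw [depart_eq, Lf_app]
  unfold act at hu
  cases hx : ξ u with
  | none => rw [hx] at hu; simp at hu
  | some k =>
    rw [hx] at hu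
    simp only [Option.getD_some] at hu
    obtain ⟨j, rfl⟩ : ∃ j, k = j + 1 := ⟨k - 1, by omega⟩
    simp only [dec, Option.map_some, cnt, Option.getD_some, Nat.add_sub_cancel]
    push_cast
    ring

lemma Lf_arrive (h : V → ℝ) (ξ : Config V) (t : Option V) :
    Lf h (arrive ξ t) ≤ Lf h ξ + 2 * ext0 h t + 2 := by
  cases t with
  | none => rw [arrive_none]; simp [ext0]
  | some y =>
    rw [arrive_some, Lf_app]
    cases hx : ξ y with
    | none => simp only [inc, cnt, Option.getD_none, Option.getD_some, ext0]; push_cast; linarith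
    | some k => simp only [inc, cnt, Option.getD_some, ext0]; push_cast; linarith

omit [DecidableEq E] in
lemma Lf_jump (G : SinkGraph V E) {h : V → ℝ} (hh : ∀ v, avg G (ext0 h) v ≤ h v - 1)
    (hh0 : ∀ v, 0 ≤ h v)
    {u : V} {ξ : Config V} (hu : 0 < act ξ u) :
    ∑ i, wt G u i * Lf h (arrive (depart ξ u) (G.tgt i)) ≤ Lf h ξ - 1 := by
  have h1 : ∑ i, wt G u i * Lf h (arrive (depart ξ u) (G.tgt i)) ≤
      ∑ i, wt G u i * ((Lf h ξ - 2 * h u + 1) + 2 * ext0 h (G.tgt i)) := by
    refine Finset.sum_le_sum fun i _ => mul_le_mul_of_nonneg_left ?_ (wt_nonneg G u i)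
    have := Lf_arrive h (depart ξ u) (G.tgt i)
    rw [Lf_depart h hu] at this
    linarith
  have h2 : ∑ i, wt G u i * ((Lf h ξ - 2 * h u + 1) + 2 * ext0 h (G.tgt i)) =
      (∑ i, wt G u i) * (Lf h ξ - 2 * h u + 1) + 2 * avg G (ext0 h) u := by
    unfold avg
    rw [Finset.sum_mul, Finset.mul_sum, ← Finset.sum_add_distrib]
    refine Finset.sum_congr rfl fun i _ => ?_
    ring
  have h3 := hh u
  have h4 : 0 ≤ Lf h ξ - 2 * h u + 1 := by
    have := Lf_nonneg hh0 (depart ξ u)
    rw [Lf_depart h hu] at this
    linarith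
  have h5 := sum_wt_le_one G u
  nlinarith

omit [DecidableEq E] in
/-- The step estimate used in the minimum principle. -/
lemma step_ineq (G : SinkGraph V E) {q : ℝ} (hq0 : 0 ≤ q) (hq1 : q ≤ 1) {h : V → ℝ}
    (hh0 : ∀ v, 0 ≤ h v) (hh : ∀ v, avg G (ext0 h) v ≤ h v - 1) {W : Config V → ℝ}
    {u : V} {ξ : Config V} (hu : 0 < act ξ u) (c : E → ℝ) (hc0 : ∀ i, 0 ≤ c i)
    (hc1 : ∀ i, c i ≤ 1)
    (hW : q * W (doze u ξ) + (1 - q) * ∑ i, wt G u i * (c i * W (arrive (depart ξ u) (G.tgt i)))
      ≤ W ξ) {ε : ℝ} (hε : 0 < ε) {m : ℝ} (hm : m ≤ 0) (hs : ∀ ξ, m ≤ W ξ + ε * Lf h ξ) :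
    m + ε * (1 - q) ≤ W ξ + ε * Lf h ξ := by
  have hp : 0 ≤ 1 - q := by linarith
  have h1 := Lf_jump G hh hh0 hu
  have h2 := Lf_doze h u ξ
  have h3 : (∑ i, wt G u i * c i) * m ≤ ∑ i, wt G u i * (c i * W (arrive (depart ξ u) (G.tgt i)))
      + ε * ∑ i, wt G u i * Lf h (arrive (depart ξ u) (G.tgt i)) := by
    rw [Finset.sum_mul, Finset.mul_sum, ← Finset.sum_add_distrib]
    refine Finset.sum_le_sum fun i _ => ?_
    have h4 := hs (arrive (depart ξ u) (G.tgt i))
    have h5 := mul_le_mul_of_nonneg_left h4 (mul_nonneg (wt_nonneg G u i) (hc0 i))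
    have h6 : wt G u i * c i * (ε * Lf h (arrive (depart ξ u) (G.tgt i))) ≤
        wt G u i * (ε * Lf h (arrive (depart ξ u) (G.tgt i))) := by
      apply mul_le_mul_of_nonneg_right
      · have := wt_nonneg G u i
        have := hc1 i
        nlinarith
      · exact mul_nonneg hε.le (Lf_nonneg hh0 _)
    nlinarith
  have h7 : m ≤ (∑ i, wt G u i * c i) * m := by
    have : ∑ i, wt G u i * c i ≤ 1 := by
      refine le_trans (Finset.sum_le_sum fun i _ => ?_) (sum_wt_le_one G u)
      have := wt_nonneg G u i
      have := hc1 i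
      nlinarith
    nlinarith
  have h8 := hs (doze u ξ)
  have h9 : (1 - q) * m ≤ (1 - q) * (∑ i, wt G u i * (c i * W (arrive (depart ξ u) (G.tgt i)))
      + ε * (Lf h ξ - 1)) := by
    apply mul_le_mul_of_nonneg_left _ hp
    have := mul_le_mul_of_nonneg_left h1 hε.le
    linarith
  have h10 : q * m ≤ q * (W (doze u ξ) + ε * Lf h ξ) := by
    apply mul_le_mul_of_nonneg_left _ hq0
    have := mul_le_mul_of_nonneg_left h2 hε.le
    linarith
  nlinarith

section const

variable (G : SinkGraph V E) (e : E)

/-- the function `F` for the graph `G` itself -/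
noncomputable def FG (q : ℝ) (k : ℕ) (ξ : Config V) : ℝ := F G e q k (fun _ => G.tgt e) ξ

lemma FG_top {q : ℝ} (hq0 : 0 ≤ q) (hq1 : q ≤ 1) (k : ℕ) (ξ : Config V) {u : V}
    (hu : 0 < act ξ u) : FG G e q k ξ = q * FG G e q k (doze u ξ) +
      (1 - q) * ∑ i, wt G u i * FG G e q k (arrive (depart ξ u) (G.tgt i)) := by
  unfold FG
  rw [F_top G e hq0 hq1 k _ ξ hu]
  unfold top
  congr 2
  refine Finset.sum_congr rfl fun i _ => ?_
  have h1 : adv e i (fun _ => G.tgt e) = (fun _ => G.tgt e : ℕ → Option V) := by
    unfold adv; split_ifs <;> rfl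
  have h2 : lnd G e i (fun _ => G.tgt e) = G.tgt i := by
    unfold lnd
    split_ifs with h
    · rw [h]
    · rfl
  rw [h1, h2]

/-- a sleeping particle is at least as good as an active one -/
lemma sleep_ge {q : ℝ} (hq0 : 0 ≤ q) (hq1 : q < 1) (hG : ∀ x, G.Reaches x) (k : ℕ) (z : V) :
    ∀ ξ : Config V, ξ z = some 0 →
      FG G e q k (app z (fun _ => some 1) ξ) ≤ FG G e q k (app z (fun _ => none) ξ) := by
  obtain ⟨h, hh0, hh⟩ := exists_lyap G hG
  set W : Config V → ℝ := fun ξ => if ξ z = some 0 then
    FG G e q k (app z (fun _ => none) ξ) - FG G e q k (app z (fun _ => some 1) ξ) else 0 with hW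
  have hF0 : ∀ ξ, 0 ≤ FG G e q k ξ := fun ξ => F_nonneg G e hq0 hq1.le k _ ξ
  have hF1 : ∀ ξ, FG G e q k ξ ≤ 1 := fun ξ => F_le_one G e hq0 hq1.le k _ ξ
  have main : ∀ ξ, 0 ≤ W ξ := by
    refine min_principle W (Lf h) (B := 1) (δ := 1 - q) (by linarith) ?_ (Lf_nonneg hh0) ?_
    · intro ξ
      rw [hW]
      simp only
      split_ifs
      · have := hF0 (app z (fun _ => none) ξ)
        have := hF1 (app z (fun _ => some 1) ξ)
        linarith
      · norm_num
    · intro ξ
      by_cases hz : ξ z = some 0
      swap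
      · left; rw [hW]; simp only [if_neg hz]; exact le_rfl
      by_cases hex : ∃ u, u ≠ z ∧ 0 < act ξ u
      · right
        obtain ⟨u, huz, hu⟩ := hex
        intro ε hε m hm hs
        refine step_ineq G hq0 hq1.le hh0 hh hu (fun _ => 1) (fun _ => zero_le_one)
          (fun _ => le_rfl) ?_ hε hm hs
        have hWξ : W ξ = FG G e q k (app z (fun _ => none) ξ) -
            FG G e q k (app z (fun _ => some 1) ξ) := by
          rw [hW]; simp only [if_pos hz]
        have hactc : ∀ c, 0 < act (app z c ξ) u := fun c => by rw [act_app_ne huz]; exact hu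
        rw [hWξ, FG_top G e hq0 hq1.le k _ (hactc _), FG_top G e hq0 hq1.le k _ (hactc _)]
        have e1 : W (doze u ξ) = FG G e q k (doze u (app z (fun _ => none) ξ)) -
            FG G e q k (doze u (app z (fun _ => some 1) ξ)) := by
          have : doze u ξ z = some 0 := by
            unfold doze; rw [app_ne huz.symm]; exact hz
          rw [hW]
          simp only [if_pos this]
          unfold doze
          rw [app_comm huz, app_comm huz]
        have e2 : ∀ t, W (arrive (depart ξ u) t) =
            FG G e q k (arrive (depart (app z (fun _ => none) ξ) u) t) -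
            FG G e q k (arrive (depart (app z (fun _ => some 1) ξ) u) t) := by
          intro t
          simp only [depart_eq]
          rw [app_comm huz, app_comm huz]
          have hdz : app u dec ξ z = some 0 := by rw [app_ne huz.symm]; exact hz
          by_cases ht : t = some z
          · subst ht
            simp only [arrive_some, app_app]
            have : app z inc (app u dec ξ) z ≠ some 0 := by
              rw [app_same, hdz]; simp [inc]
            rw [hW]
            simp only [if_neg this]
            simp [inc]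
          · have h3 : ∀ c, arrive (app z c (app u dec ξ)) t = app z c (arrive (app u dec ξ) t) := by
              intro c
              cases t with
              | none => rfl
              | some y =>
                simp only [arrive_some]
                rw [app_comm]
                rintro rfl
                exact ht rfl
            have h4 : arrive (app u dec ξ) t z = some 0 := by
              cases t with
              | none => exact hdz
              | some y =>
                rw [arrive_some, app_ne]
                · exact hdz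
                · rintro rfl
                  exact ht rfl
            rw [h3, h3, hW]
            simp only [if_pos h4]
        rw [e1]
        simp only [e2]
        apply le_of_eq
        simp only [one_mul, mul_sub, Finset.sum_sub_distrib, Finset.mul_sum]
        ring
      · left
        have hst : Stable (app z (fun _ => none) ξ) := by
          intro x
          by_cases hx : x = z
          · subst hx
            unfold act
            rw [app_same]; rfl
          · rw [act_app_ne hx]
            by_contra h0
            exact hex ⟨x, hx, by omega⟩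
        rw [hW]
        simp only [if_pos hz]
        by_cases hk : k ≤ sleepers (app z (fun _ => none) ξ)
        · have : FG G e q k (app z (fun _ => none) ξ) = 1 := by
            unfold FG
            rw [F_stable G e q k _ hst, if_pos hk]
          rw [this]
          have := hF1 (app z (fun _ => some 1) ξ)
          linarith
        · have : FG G e q k (app z (fun _ => some 1) ξ) = 0 := by
            unfold FG
            apply F_eq_zero_of_total
            have h5 : total (app z (fun _ => some 1) ξ) = sleepers (app z (fun _ => none) ξ) := by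
              unfold total sleepers
              rw [Finset.card_filter]
              refine Finset.sum_congr rfl fun x _ => ?_
              by_cases hx : x = z
              · subst hx
                rw [app_same, app_same]
                simp [cnt]
              · have h6 := hst x
                rw [act_app_ne hx] at h6
                rw [app_ne hx, app_ne hx]
                unfold act at h6
                cases h7 : ξ x with
                | none => simp [cnt]
                | some j => rw [h7] at h6; simp at h6; simp [cnt, h6]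
            rw [h5]
            omega
          rw [this]
          have := hF0 (app z (fun _ => none) ξ)
          linarith
  intro ξ hz
  have := main ξ
  rw [hW] at this
  simp only [if_pos hz] at this
  linarith

/-- landing at `z` is at least as good as making one more step from `z`, provided that no particle
sleeps at `z` -/
lemma rho_nonneg {q : ℝ} (hq0 : 0 ≤ q) (hq1 : q < 1) (hG : ∀ x, G.Reaches x) (k : ℕ) (z : V)
    (ξ : Config V) (hz : ξ z ≠ none) :
    ∑ j, wt G z j * FG G e q k (arrive ξ (G.tgt j)) ≤ FG G e q k (arrive ξ (some z)) := by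
  obtain ⟨n, hn⟩ := Option.ne_none_iff_exists'.1 hz
  have hact : 0 < act (arrive ξ (some z)) z := by
    rw [arrive_some]; unfold act; rw [app_same]; exact act_pos_inc _
  have h1 := FG_top G e hq0 hq1.le k (arrive ξ (some z)) hact
  have h2 : depart (arrive ξ (some z)) z = ξ := by
    rw [depart_eq, arrive_some, app_app]
    apply app_id
    rw [hn]; simp [inc, dec]
  rw [h2] at h1
  cases n with
  | zero =>
    have h3 : arrive ξ (some z) = app z (fun _ => some 1) ξ := by
      rw [arrive_some]
      apply app_congr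
      rw [hn]; rfl
    have h4 : doze z (arrive ξ (some z)) = app z (fun _ => none) ξ := by
      rw [h3]
      unfold doze
      rw [app_app]
      apply app_congr
      simp [slp]
    have h5 := sleep_ge G e hq0 hq1 hG k z ξ hn
    rw [← h4, ← h3] at h5
    nlinarith
  | succ n =>
    have h4 : doze z (arrive ξ (some z)) = arrive ξ (some z) := by
      unfold doze
      apply app_id
      rw [arrive_some, app_same, hn]
      simp [inc, slp]
    rw [h4] at h1
    nlinarith

/-- the first `m` jumps along `e` lead to the sink, the next one to `w`, the others are as in `G` -/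
def seq (m : ℕ) (w : Option V) : ℕ → Option V :=
  fun n => if n < m then none else if n = m then w else G.tgt e

omit [Fintype V] [DecidableEq V] [Fintype E] in
lemma adv_seq_succ (m : ℕ) (w : Option V) : adv e e (seq G e (m + 1) w) = seq G e m w := by
  unfold adv seq
  rw [if_pos rfl]
  ext n : 1
  simp only [Nat.add_lt_add_iff_right, Nat.add_right_cancel_iff]

omit [Fintype V] [DecidableEq V] [Fintype E] in
lemma adv_seq_zero (w : Option V) : adv e e (seq G e 0 w) = fun _ => G.tgt e := by
  unfold adv seq
  rw [if_pos rfl]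
  ext n : 1
  simp

omit [Fintype V] [DecidableEq V] [Fintype E] in
lemma adv_ne {i : E} (hi : i ≠ e) (τ : ℕ → Option V) : adv e i τ = τ := by
  unfold adv; rw [if_neg hi]

omit [Fintype V] [DecidableEq V] [Fintype E] in
lemma lnd_ne {i : E} (hi : i ≠ e) (τ : ℕ → Option V) : lnd G e i τ = G.tgt i := by
  unfold lnd; rw [if_neg hi]

/-- the difference between the case that the `(m+1)`-st jump along `e` leads to `z` and the case that it makes one more step
from `z` -/
noncomputable def D (q : ℝ) (k m : ℕ) (z : V) (ξ : Config V) : ℝ :=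
  F G e q k (seq G e m (some z)) ξ - ∑ j, wt G z j * F G e q k (seq G e m (G.tgt j)) ξ

lemma D_stable (hG : ∀ x, G.Reaches x) (q : ℝ) (k m : ℕ) (z : V) {ξ : Config V}
    (h : Stable ξ) : D G e q k m z ξ = 0 := by
  unfold D
  simp only [F_stable G e q k _ h]
  rw [← Finset.sum_mul, sum_wt, one_mul, sub_self]
  cases hG z with
  | sink i h => exact ⟨i, rfl⟩
  | step i y h hy => exact ⟨i, rfl⟩

/-- value of the term of `D` after a jump along `i` -/
noncomputable def Dn (q : ℝ) (k m : ℕ) (z : V) (i : E) (ξ : Config V) : ℝ :=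
  F G e q k (adv e i (seq G e m (some z))) (arrive ξ (lnd G e i (seq G e m (some z)))) -
    ∑ j, wt G z j * F G e q k (adv e i (seq G e m (G.tgt j)))
      (arrive ξ (lnd G e i (seq G e m (G.tgt j))))

lemma D_top {q : ℝ} (hq0 : 0 ≤ q) (hq1 : q ≤ 1) (k m : ℕ) (z : V) {ξ : Config V} {u : V}
    (hu : 0 < act ξ u) :
    D G e q k m z ξ = q * D G e q k m z (doze u ξ) +
      (1 - q) * ∑ i, wt G u i * Dn G e q k m z i (depart ξ u) := by
  unfold D Dn
  simp only [F_top G e hq0 hq1 k _ ξ hu]
  unfold top
  simp only [mul_add, mul_sub, Finset.sum_add_distrib, Finset.sum_sub_distrib, Finset.mul_sum]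
  have e1 : ∑ x, wt G z x * (q * F G e q k (seq G e m (G.tgt x)) (doze u ξ)) =
      ∑ x, q * (wt G z x * F G e q k (seq G e m (G.tgt x)) (doze u ξ)) :=
    Finset.sum_congr rfl fun x _ => by ring
  have e2 : ∑ x, ∑ i, wt G z x * ((1 - q) * (wt G u i *
        F G e q k (adv e i (seq G e m (G.tgt x)))
          (arrive (depart ξ u) (lnd G e i (seq G e m (G.tgt x)))))) =
      ∑ i, ∑ x, (1 - q) * (wt G u i * (wt G z x *
        F G e q k (adv e i (seq G e m (G.tgt x)))
          (arrive (depart ξ u) (lnd G e i (seq G e m (G.tgt x)))))) := by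
    rw [Finset.sum_comm]
    exact Finset.sum_congr rfl fun i _ => Finset.sum_congr rfl fun x _ => by ring
  rw [e1, e2]
  ring

lemma Dn_nonneg_step {q : ℝ} (hq0 : 0 ≤ q) (hq1 : q < 1) (hG : ∀ x, G.Reaches x) (k m : ℕ)
    (z : V) (ih : ∀ m' < m, ∀ ξ : Config V, ξ z ≠ none → 0 ≤ D G e q k m' z ξ) (ξ : Config V)
    (hz : ξ z ≠ none) : 0 ≤ Dn G e q k m z e ξ := by
  unfold Dn
  have hl0 : ∀ w, lnd G e e (seq G e 0 w) = w := by
    intro w; unfold lnd seq; simp
  have hl : ∀ m w, lnd G e e (seq G e (m + 1) w) = none := by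
    intro m w; unfold lnd seq; simp
  cases m with
  | zero =>
    simp only [adv_seq_zero, hl0]
    have := rho_nonneg G e hq0 hq1 hG k z ξ hz
    unfold FG at this
    linarith
  | succ m =>
    simp only [adv_seq_succ, hl, arrive_none]
    exact ih m (Nat.lt_succ_self m) ξ hz

omit [Fintype V] in
lemma arrive_ne_none {ξ : Config V} {z : V} (hz : ξ z ≠ none) (t : Option V) :
    arrive ξ t z ≠ none := by
  cases t with
  | none => exact hz
  | some y =>
    rw [arrive_some]
    by_cases hy : z = y
    · subst hy
      rw [app_same]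
      cases ξ z <;> simp [inc]
    · rw [app_ne hy]; exact hz

omit [Fintype V] in
lemma depart_ne_none {ξ : Config V} {z : V} (hz : ξ z ≠ none) (u : V) :
    depart ξ u z ≠ none := by
  rw [depart_eq]
  by_cases hy : z = u
  · subst hy
    rw [app_same]
    obtain ⟨n, hn⟩ := Option.ne_none_iff_exists'.1 hz
    rw [hn]; simp [dec]
  · rw [app_ne hy]; exact hz

lemma D_nonneg {q : ℝ} (hq0 : 0 ≤ q) (hq1 : q < 1) (hG : ∀ x, G.Reaches x) (k : ℕ) (z : V) :
    ∀ (m : ℕ) (ξ : Config V), ξ z ≠ none → 0 ≤ D G e q k m z ξ := by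
  obtain ⟨h, hh0, hh⟩ := exists_lyap G hG
  intro m
  induction m using Nat.strong_induction_on with
  | _ m ih =>
  set W : Config V → ℝ := fun ξ => if ξ z = none then 0 else D G e q k m z ξ with hW
  have hW0 : ∀ ξ, ξ z = none → W ξ = 0 := fun ξ h => by rw [hW]; simp only [if_pos h]
  have hWD : ∀ ξ, ξ z ≠ none → W ξ = D G e q k m z ξ := fun ξ h => by
    rw [hW]; simp only [if_neg h]
  have hF0 : ∀ τ ξ, 0 ≤ F G e q k τ ξ := fun τ ξ => F_nonneg G e hq0 hq1.le k τ ξ
  have hF1 : ∀ τ ξ, F G e q k τ ξ ≤ 1 := fun τ ξ => F_le_one G e hq0 hq1.le k τ ξ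
  have main : ∀ ξ, 0 ≤ W ξ := by
    refine min_principle W (Lf h) (B := 1) (δ := 1 - q) (by linarith) ?_ (Lf_nonneg hh0) ?_
    · intro ξ
      by_cases hz : ξ z = none
      · rw [hW0 ξ hz]; norm_num
      · rw [hWD ξ hz]
        unfold D
        have h1 := hF0 (seq G e m (some z)) ξ
        have h2 : ∑ j, wt G z j * F G e q k (seq G e m (G.tgt j)) ξ ≤ ∑ j, wt G z j :=
          Finset.sum_le_sum fun j _ => by
            have := hF1 (seq G e m (G.tgt j)) ξ
            have := wt_nonneg G z j
            nlinarith
        have h3 := sum_wt_le_one G z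
        linarith
    · intro ξ
      by_cases hz : ξ z = none
      · left; rw [hW0 ξ hz]
      by_cases hst : Stable ξ
      · left; rw [hWD ξ hz, D_stable G e hG q k m z hst]
      right
      -- choose a site to topple: not `z` if possible
      obtain ⟨u, hu, huz⟩ : ∃ u, 0 < act ξ u ∧ (u = z → ∀ v, v ≠ z → act ξ v = 0) := by
        by_cases hex : ∃ u, u ≠ z ∧ 0 < act ξ u
        · obtain ⟨u, h1, h2⟩ := hex
          exact ⟨u, h2, fun h => absurd h h1⟩
        · have h1 : ∀ v, v ≠ z → act ξ v = 0 := fun v hv => by
            by_contra h0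
            exact hex ⟨v, hv, by omega⟩
          refine ⟨z, ?_, fun _ => h1⟩
          by_contra h0
          apply hst
          intro x
          by_cases hx : x = z
          · subst hx; omega
          · exact h1 x hx
      intro ε hε mm hmm hs
      refine step_ineq G hq0 hq1.le hh0 hh hu (fun i => if i = e then 0 else 1)
        (fun i => by split_ifs <;> norm_num) (fun i => by split_ifs <;> norm_num) ?_ hε hmm hs
      rw [hWD ξ hz, D_top G e hq0 hq1.le k m z hu]
      have e1 : W (doze u ξ) = D G e q k m z (doze u ξ) := by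
        by_cases h1 : doze u ξ z = none
        · rw [hW0 _ h1]
          have huz' : u = z := by
            by_contra h2
            unfold doze at h1
            rw [app_ne (Ne.symm h2)] at h1
            exact hz h1
          have h3 := huz huz'
          rw [D_stable G e hG]
          intro v
          by_cases hv : v = z
          · subst hv; unfold act; rw [h1]; rfl
          · unfold doze
            rw [huz', act_app_ne hv]
            exact h3 v hv
        · rw [hWD _ h1]
      rw [e1]
      have e2 : ∀ i, wt G u i * ((if i = e then (0 : ℝ) else 1) *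
          W (arrive (depart ξ u) (G.tgt i))) ≤ wt G u i * Dn G e q k m z i (depart ξ u) := by
        intro i
        refine mul_le_mul_of_nonneg_left ?_ (wt_nonneg G u i)
        by_cases hi : i = e
        · subst hi
          simp only [if_true, zero_mul]
          exact Dn_nonneg_step G i hq0 hq1 hG k m z ih _ (depart_ne_none hz u)
        · rw [if_neg hi, one_mul, hWD _ (arrive_ne_none (depart_ne_none hz u) _)]
          unfold D Dn
          simp only [adv_ne e hi, lnd_ne G e hi]
          exact le_rfl
      have e3 := Finset.sum_le_sum (s := univ) fun i _ => e2 i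
      have e4 : (1 - q) * ∑ i, wt G u i * ((if i = e then (0 : ℝ) else 1) *
          W (arrive (depart ξ u) (G.tgt i))) ≤
          (1 - q) * ∑ i, wt G u i * Dn G e q k m z i (depart ξ u) :=
        mul_le_mul_of_nonneg_left e3 (by linarith)
      linarith
  intro ξ hz
  rw [← hWD ξ hz]
  exact main ξ

/-- replacing the target of the `(m+1)`-st jump along `e` by the sink lowers the probability -/
lemma seq_none_le {q : ℝ} (hq0 : 0 ≤ q) (hq1 : q < 1) (hG : ∀ x, G.Reaches x) (k m : ℕ)
    {ξ : Config V} (hξ : ∀ z, ξ z ≠ none) (z : V) :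
    F G e q k (seq G e m none) ξ ≤ F G e q k (seq G e m (some z)) ξ := by
  obtain ⟨h, hh0, hh⟩ := exists_lyap G hG
  set W : V → ℝ := fun z => F G e q k (seq G e m (some z)) ξ - F G e q k (seq G e m none) ξ
    with hW
  have main : ∀ z, 0 ≤ W z := by
    refine min_principle W h (B := 1) (δ := 1) one_pos ?_ hh0 ?_
    · intro z
      have h1 := F_nonneg G e hq0 hq1.le k (seq G e m (some z)) ξ
      have h2 := F_le_one G e hq0 hq1.le k (seq G e m none) ξ
      rw [hW]; simp only; linarith
    · intro z
      right
      intro ε hε mm hmm hs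
      have h1 := D_nonneg G e hq0 hq1 hG k z m ξ (hξ z)
      unfold D at h1
      have h2 := hh z
      have hsum : ∑ j, wt G z j = 1 := by
        apply sum_wt
        cases hG z with
        | sink i h => exact ⟨i, rfl⟩
        | step i y h hy => exact ⟨i, rfl⟩
      have h3 : ∑ j, wt G z j * F G e q k (seq G e m (G.tgt j)) ξ =
          avg G (ext0 W) z + F G e q k (seq G e m none) ξ := by
        unfold avg
        rw [show F G e q k (seq G e m none) ξ = (∑ j, wt G z j) * F G e q k (seq G e m none) ξ by
          rw [hsum, one_mul], Finset.sum_mul, ← Finset.sum_add_distrib]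
        refine Finset.sum_congr rfl fun j _ => ?_
        cases G.tgt j with
        | none => simp [ext0]
        | some y => simp only [ext0, hW]; ring
      have h4 : mm ≤ avg G (ext0 W) z + ε * avg G (ext0 h) z := by
        have h5 : (∑ j, wt G z j) * mm ≤ avg G (ext0 W) z + ε * avg G (ext0 h) z := by
          unfold avg
          rw [Finset.sum_mul, Finset.mul_sum, ← Finset.sum_add_distrib]
          refine Finset.sum_le_sum fun j _ => ?_
          have h6 : mm ≤ ext0 W (G.tgt j) + ε * ext0 h (G.tgt j) := by
            cases G.tgt j with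
            | none => simp only [ext0]; linarith
            | some y => exact hs y
          have := mul_le_mul_of_nonneg_left h6 (wt_nonneg G z j)
          linarith
        rw [hsum, one_mul] at h5
        exact h5
      have h7 : W z = F G e q k (seq G e m (some z)) ξ - F G e q k (seq G e m none) ξ := rfl
      have h8 := mul_le_mul_of_nonneg_left h2 hε.le
      linarith
  have := main z
  rw [hW] at this
  simp only at this
  linarith

/-- the first `m` jumps along `e` lead to the sink -/
def seq' (m : ℕ) : ℕ → Option V := fun n => if n < m then none else G.tgt e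

/-- **Main inequality.** -/
theorem F_divert_le {q : ℝ} (hq0 : 0 ≤ q) (hq1 : q < 1) (hG : ∀ x, G.Reaches x) (k : ℕ)
    {ξ : Config V} (hξ : ∀ z, ξ z ≠ none) :
    F G e q k (fun _ => none) ξ ≤ F G e q k (fun _ => G.tgt e) ξ := by
  have h1 : ∀ m, F G e q k (seq' G e (m + 1)) ξ ≤ F G e q k (seq' G e m) ξ := by
    intro m
    have e1 : seq' G e (m + 1) = seq G e m none := by
      ext n : 1
      unfold seq' seq
      by_cases h1 : n < m
      · rw [if_pos h1, if_pos (by omega)]
      · by_cases h2 : n = m
        · rw [if_neg h1, if_pos h2, if_pos (by omega)]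
        · rw [if_neg h1, if_neg h2, if_neg (by omega)]
    have e2 : seq' G e m = seq G e m (G.tgt e) := by
      ext n : 1
      unfold seq' seq
      by_cases h1 : n < m
      · rw [if_pos h1, if_pos h1]
      · by_cases h2 : n = m
        · rw [if_neg h1, if_neg h1, if_pos h2]
        · rw [if_neg h1, if_neg h1, if_neg h2]
    rw [e1, e2]
    cases h : G.tgt e with
    | none => exact le_rfl
    | some z => exact seq_none_le G e hq0 hq1 hG k m hξ z
  have h2 : ∀ m, F G e q k (seq' G e m) ξ ≤ F G e q k (fun _ => G.tgt e) ξ := by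
    intro m
    induction m with
    | zero =>
      apply le_of_eq
      congr 1
    | succ m ih => exact (h1 m).trans ih
  refine (fM_summable G e hq0 hq1.le k _ ξ).tsum_le_of_sum_range_le fun n => ?_
  refine le_trans (le_of_eq ?_) ((sum_le_F G e hq0 hq1.le k n (seq' G e n) ξ).trans (h2 n))
  refine Finset.sum_congr rfl fun M hM => ?_
  apply fM_local
  intro i hi
  have := Finset.mem_range.1 hM
  unfold seq'
  rw [if_pos (by omega)]

end const

end Pool.Agent.Helper96.ARW
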