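import Mathlib

/-! Definitions for the competing urn scheme (problem MP_d3f74f_pr). -/

open MeasureTheory ProbabilityTheory

namespace Pool.Agent.Helper96.Urn

/-- A configuration: `η v i` is the number of balls of type `i` in the urn at the vertex `v`. -/
abbrev Config (V : Type) (K : ℕ) : Type := V → Fin K → ℕ

/-- The content of an urn with content `u` after a new ball of type `i` has entered it. -/
def enter {K : ℕ} (u : Fin K → ℕ) (i : Fin K) : Fin K → ℕ :=
  if ∀ j, j ≠ i → u j = 0 then Function.update u i (u i + 1)
  else fun j => if j = i then u j else u j - 1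

/-- The configuration after the nucleation of a ball of type `i` at the vertex `v`. -/
def nucleate {V : Type} {K : ℕ} (G : SimpleGraph V) [DecidableRel G.Adj]
    (η : Config V K) (v : V) (i : Fin K) : Config V K :=
  fun w => if G.Adj v w then enter (η w) i else η w

/-- The total number of balls. -/
def total {V : Type} [Fintype V] {K : ℕ} (η : Config V K) : ℕ := ∑ v, ∑ i, η v i

/-- The law of the configuration after the next nucleation: the nucleating ball is uniform among
all balls present. -/
noncomputable def jump {V : Type} [Fintype V] {K : ℕ} (G : SimpleGraph V) [DecidableRel G.Adj]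
    (η : Config V K) : Measure (Config V K) :=
  if total η = 0 then Measure.dirac η
  else ∑ v, ∑ i, ((η v i : ENNReal) / (total η : ENNReal)) • Measure.dirac (nucleate G η v i)

lemma jump_univ {V : Type} [Fintype V] {K : ℕ} (G : SimpleGraph V) [DecidableRel G.Adj]
    (η : Config V K) : jump G η Set.univ = 1 := by
  unfold jump
  split_ifs with h
  · simp
  · simp only [Measure.coe_finsetSum, Measure.coe_smul, Finset.sum_apply, Pi.smul_apply,
      measure_univ, smul_eq_mul, mul_one]
    have h1 : ∑ v, ∑ i, ((η v i : ENNReal) / (total η : ENNReal))
        = (total η : ENNReal) / (total η : ENNReal) := by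
      have h2 : (total η : ENNReal) = ∑ v, ∑ i, (η v i : ENNReal) := by
        unfold total
        push_cast
        rfl
      generalize (total η : ENNReal) = T at h2
      simp only [div_eq_mul_inv]
      rw [h2]
      simp only [Finset.sum_mul]
    rw [h1]
    exact ENNReal.div_self (by exact_mod_cast h) (ENNReal.natCast_ne_top _)

/-- The kernel of the embedded jump chain. -/
noncomputable def jumpKernel {V : Type} [Fintype V] {K : ℕ} (G : SimpleGraph V)
    [DecidableRel G.Adj] : Kernel (Config V K) (Config V K) :=
  Kernel.ofFunOfCountable (jump G)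

instance {V : Type} [Fintype V] {K : ℕ} (G : SimpleGraph V) [DecidableRel G.Adj] :
    IsMarkovKernel (jumpKernel (K := K) G) :=
  ⟨fun η => ⟨jump_univ G η⟩⟩

/-- The law of the embedded jump chain started from `η₀`. -/
noncomputable def chainLaw {V : Type} [Fintype V] {K : ℕ} (G : SimpleGraph V) [DecidableRel G.Adj]
    (η₀ : Config V K) : Measure (ℕ → Config V K) :=
  Kernel.traj (X := fun _ => Config V K)
    (fun n => (jumpKernel G).comap (fun h => h ⟨n, Finset.mem_Iic.2 le_rfl⟩)
      (measurable_pi_apply _)) 0 (fun _ => η₀)

instance : IsProbabilityMeasure (expMeasure 1) := isProbabilityMeasure_expMeasure one_pos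

/-- The law of the pair (embedded jump chain, i.i.d. standard exponential variables). -/
noncomputable def urnLaw {V : Type} [Fintype V] {K : ℕ} (G : SimpleGraph V) [DecidableRel G.Adj]
    (η₀ : Config V K) : Measure ((ℕ → Config V K) × (ℕ → ℝ)) :=
  (chainLaw G η₀).prod (Measure.infinitePi (fun _ : ℕ => expMeasure 1))

/-- The time of the `n`-th nucleation: in a configuration with `N` balls the waiting time is
exponential of rate `N`. -/
noncomputable def jumpTime {V : Type} [Fintype V] {K : ℕ} (ω : (ℕ → Config V K) × (ℕ → ℝ))
    (n : ℕ) : ℝ := ∑ k ∈ Finset.range n, ω.2 k / (total (ω.1 k) : ℝ)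

/-- The hypercube graph. -/
def hypercube (n : ℕ) : SimpleGraph (Fin n → Bool) where
  Adj x y := hammingDist x y = 1
  symm := ⟨fun x y h => by rw [hammingDist_comm]; exact h⟩
  loopless := ⟨fun x h => by simp at h⟩

instance (n : ℕ) : DecidableRel (hypercube n).Adj := fun x y =>
  inferInstanceAs (Decidable (hammingDist x y = 1))

end Pool.Agent.Helper96.Urn
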