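import Mathlib
import Pool.Agent.Helper96.UrnDefs

/-! Probability part: exit estimate from a Lyapunov function, non-explosion. -/

open MeasureTheory ProbabilityTheory Finset Preorder
open scoped ENNReal

namespace Pool.Agent.Helper96.Urn

section general

variable {E : Type} [MeasurableSpace E] (P : Kernel E E) [IsMarkovKernel P]

/-- the path kernel of a time homogeneous Markov chain -/
noncomputable abbrev pathKernel (n : ℕ) : Kernel (Π _ : Finset.Iic n, E) E :=
  P.comap (fun h => h ⟨n, Finset.mem_Iic.2 le_rfl⟩) (measurable_pi_apply _)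

/-- law of the chain -/
noncomputable abbrev pathLaw (x₀ : E) : Measure (ℕ → E) :=
  Kernel.traj (X := fun _ => E) (pathKernel P) 0 (fun _ => x₀)

lemma lintegral_step (x₀ : E) (n : ℕ) (F : (Π _ : Finset.Iic n, E) × E → ℝ≥0∞)
    (hF : Measurable F) :
    ∫⁻ ω, F (frestrictLe (π := fun _ => E) n ω, ω (n + 1)) ∂(pathLaw P x₀) =
      ∫⁻ ω, ∫⁻ y, F (frestrictLe (π := fun _ => E) n ω, y) ∂(P (ω n)) ∂(pathLaw P x₀) := by
  have h1 := Kernel.partialTraj_compProd_eq_map_traj (X := fun _ => E) (κ := pathKernel P)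
    (a := 0) (b := n) (Nat.zero_le n) (x₀ := fun _ => x₀)
  have h2 := Kernel.traj_map_frestrictLe_apply (X := fun _ => E) (κ := pathKernel P) 0 n
    (fun _ => x₀)
  have h3 : ∫⁻ ω, F (frestrictLe (π := fun _ => E) n ω, ω (n + 1)) ∂(pathLaw P x₀)
      = ∫⁻ p, F p ∂((pathLaw P x₀).map
        (fun x ↦ (frestrictLe (π := fun _ => E) n x, x (n + 1)))) := by
    rw [lintegral_map hF (by fun_prop)]
  rw [h3, ← h1, Measure.lintegral_compProd hF, ← h2, lintegral_map ?_ (by fun_prop)]
  · rfl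
  · exact Measurable.lintegral_kernel_prod_right' hF

lemma pathLaw_zero (x₀ : E) [MeasurableSingletonClass E] :
    ∀ᵐ ω ∂(pathLaw P x₀), ω 0 = x₀ := by
  have h2 := Kernel.traj_map_frestrictLe_apply (X := fun _ => E) (κ := pathKernel P) 0 0
    (fun _ => x₀)
  rw [Kernel.partialTraj_self] at h2
  have h3 : ∀ᵐ h ∂((pathLaw P x₀).map (frestrictLe (π := fun _ => E) 0)),
      h ⟨0, Finset.mem_Iic.2 le_rfl⟩ = x₀ := by
    rw [h2, Kernel.id_apply]
    rw [ae_dirac_iff]
    exact (measurable_pi_apply _) (measurableSet_singleton _)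
  exact ae_of_ae_map (by fun_prop) h3

/-- the event that the chain stays in `𝒢` up to time `n` -/
def stay (𝒢 : Set E) (n : ℕ) : Set (ℕ → E) := {ω | ∀ k, k ≤ n → ω k ∈ 𝒢}

lemma measurableSet_stay [DiscreteMeasurableSpace E] (𝒢 : Set E) (n : ℕ) :
    MeasurableSet (stay 𝒢 n) := by
  have : stay 𝒢 n = ⋂ k, ⋂ (_ : k ≤ n), (fun ω : ℕ → E => ω k) ⁻¹' 𝒢 := by
    ext ω; simp [stay]
  rw [this]
  exact MeasurableSet.iInter fun k => MeasurableSet.iInter fun _ =>
    (measurable_pi_apply k) (MeasurableSet.of_discrete)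

theorem exit_bound [DiscreteMeasurableSpace E] (x₀ : E) (𝒢 : Set E) (U : E → ℝ≥0∞)
    (h1 : ∀ x ∈ 𝒢, ∫⁻ y, U y ∂(P x) ≤ U x) (h2 : ∀ x, x ∉ 𝒢 → 1 ≤ U x) :
    pathLaw P x₀ {ω | ∃ n, ω n ∉ 𝒢} ≤ U x₀ := by
  set μ := pathLaw P x₀ with hμ
  have hUm : Measurable U := Measurable.of_discrete
  -- the main monotone quantity
  set a : ℕ → ℝ≥0∞ := fun n => μ (stay 𝒢 n)ᶜ + ∫⁻ ω in stay 𝒢 n, U (ω n) ∂μ with ha
  have hms : ∀ n, MeasurableSet (stay 𝒢 n) := measurableSet_stay 𝒢
  have hstep : ∀ n, a (n + 1) ≤ a n := by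
    intro n
    have hsub : stay 𝒢 (n + 1) ⊆ stay 𝒢 n := fun ω h k hk => h k (by omega)
    have e1 : μ (stay 𝒢 (n + 1))ᶜ = μ (stay 𝒢 n)ᶜ + μ (stay 𝒢 n \ stay 𝒢 (n + 1)) := by
      rw [← measure_union]
      · congr 1
        ext ω
        constructor
        · intro h
          by_cases h' : ω ∈ stay 𝒢 n
          · exact Or.inr ⟨h', h⟩
          · exact Or.inl h'
        · rintro (h | h)
          · exact fun h' => h (hsub h')
          · exact h.2
      · exact Set.disjoint_left.2 fun ω h h' => h h'.1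
      · exact (hms n).diff (hms (n + 1))
    have e2 : μ (stay 𝒢 n \ stay 𝒢 (n + 1)) + ∫⁻ ω in stay 𝒢 (n + 1), U (ω (n + 1)) ∂μ
        ≤ ∫⁻ ω in stay 𝒢 n, U (ω (n + 1)) ∂μ := by
      have e3 : μ (stay 𝒢 n \ stay 𝒢 (n + 1)) ≤
          ∫⁻ ω in stay 𝒢 n \ stay 𝒢 (n + 1), U (ω (n + 1)) ∂μ := by
        calc μ (stay 𝒢 n \ stay 𝒢 (n + 1)) = ∫⁻ ω in stay 𝒢 n \ stay 𝒢 (n + 1), 1 ∂μ := by simp
          _ ≤ _ := by
            refine setLIntegral_mono' ((hms n).diff (hms (n + 1))) fun ω hω => ?_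
            apply h2
            intro hc
            apply hω.2
            intro k hk
            rcases Nat.lt_or_ge k (n + 1) with h | h
            · exact hω.1 k (by omega)
            · have : k = n + 1 := by omega
              rw [this]; exact hc
      refine (add_le_add_left e3 _).trans ?_
      rw [← lintegral_union (hms (n + 1))]
      · refine le_of_eq ?_
        congr 2
        exact Set.sdiff_union_of_subset hsub
      · exact Set.disjoint_left.2 fun ω h h' => h.2 h'
    have e4 : ∫⁻ ω in stay 𝒢 n, U (ω (n + 1)) ∂μ ≤ ∫⁻ ω in stay 𝒢 n, U (ω n) ∂μ := by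
      set B : Set (Π _ : Finset.Iic n, E) := {h | ∀ k, h k ∈ 𝒢} with hB
      have hBm : MeasurableSet B := by
        have : B = ⋂ k, (fun h : (Π _ : Finset.Iic n, E) => h k) ⁻¹' 𝒢 := by
          ext h; simp [hB]
        rw [this]
        exact MeasurableSet.iInter fun k => (measurable_pi_apply k) (MeasurableSet.of_discrete)
      have hmem : ∀ ω : ℕ → E, (frestrictLe (π := fun _ => E) n ω ∈ B ↔ ω ∈ stay 𝒢 n) := by
        intro ω
        constructor
        · intro h k hk
          exact h ⟨k, Finset.mem_Iic.2 hk⟩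
        · intro h k
          exact h k.1 (Finset.mem_Iic.1 k.2)
      have hF := lintegral_step P x₀ n (fun p => B.indicator (fun _ => U p.2) p.1) (by
        have : (fun p : (Π _ : Finset.Iic n, E) × E => B.indicator (fun _ => U p.2) p.1)
            = (Prod.fst ⁻¹' B).indicator (fun p => U p.2) := by
          ext p
          simp only [Set.indicator, Set.mem_preimage]
          rfl
        rw [this]
        exact (hUm.comp measurable_snd).indicator (measurable_fst hBm))
      have l1 : ∫⁻ ω in stay 𝒢 n, U (ω (n + 1)) ∂μ = ∫⁻ ω, B.indicator (fun _ => U (ω (n + 1)))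
          (frestrictLe (π := fun _ => E) n ω) ∂μ := by
        rw [← lintegral_indicator (hms n)]
        refine lintegral_congr fun ω => ?_
        by_cases h : ω ∈ stay 𝒢 n
        · rw [Set.indicator_of_mem h, Set.indicator_of_mem ((hmem ω).2 h)]
        · rw [Set.indicator_of_notMem h, Set.indicator_of_notMem (fun h' => h ((hmem ω).1 h'))]
      rw [l1]
      refine (le_of_eq hF).trans ?_
      rw [← lintegral_indicator (hms n)]
      refine lintegral_mono fun ω => ?_
      by_cases h : ω ∈ stay 𝒢 n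
      · rw [Set.indicator_of_mem h]
        simp only [Set.indicator_of_mem ((hmem ω).2 h)]
        exact h1 _ (h n le_rfl)
      · rw [Set.indicator_of_notMem h]
        simp only [Set.indicator_of_notMem (fun h' => h ((hmem ω).1 h'))]
        simp
    calc a (n + 1) = μ (stay 𝒢 n)ᶜ + (μ (stay 𝒢 n \ stay 𝒢 (n + 1)) +
          ∫⁻ ω in stay 𝒢 (n + 1), U (ω (n + 1)) ∂μ) := by rw [ha]; simp only [e1, add_assoc]
      _ ≤ μ (stay 𝒢 n)ᶜ + ∫⁻ ω in stay 𝒢 n, U (ω (n + 1)) ∂μ := by gcongr
      _ ≤ a n := by rw [ha]; exact add_le_add_right e4 _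
  have h0 : a 0 ≤ U x₀ := by
    have hz := pathLaw_zero P x₀
    by_cases hx : x₀ ∈ 𝒢
    · have hc : μ (stay 𝒢 0)ᶜ = 0 := by
        rw [measure_eq_zero_iff_ae_notMem]
        filter_upwards [hz] with ω hω hc
        apply hc
        intro k hk
        have : k = 0 := by omega
        rw [this, hω]; exact hx
      have hi : ∫⁻ ω in stay 𝒢 0, U (ω 0) ∂μ ≤ U x₀ := by
        calc ∫⁻ ω in stay 𝒢 0, U (ω 0) ∂μ ≤ ∫⁻ ω, U (ω 0) ∂μ := setLIntegral_le_lintegral _ _
          _ = ∫⁻ ω, U x₀ ∂μ := by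
            refine lintegral_congr_ae ?_
            filter_upwards [hz] with ω hω
            rw [hω]
          _ = U x₀ := by simp
      rw [ha]; simp only [hc, zero_add]; exact hi
    · have hc : μ (stay 𝒢 0) = 0 := by
        rw [measure_eq_zero_iff_ae_notMem]
        filter_upwards [hz] with ω hω hc
        apply hx
        rw [← hω]; exact hc 0 le_rfl
      have hi : ∫⁻ ω in stay 𝒢 0, U (ω 0) ∂μ = 0 := setLIntegral_measure_zero _ _ hc
      rw [ha]; simp only [hi, add_zero]
      exact prob_le_one.trans (h2 x₀ hx)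
  have hall : ∀ n, a n ≤ U x₀ := by
    intro n
    induction n with
    | zero => exact h0
    | succ n ih => exact (hstep n).trans ih
  have hset : {ω : ℕ → E | ∃ n, ω n ∉ 𝒢} = ⋃ n, (stay 𝒢 n)ᶜ := by
    ext ω
    simp only [Set.mem_ofPred_eq, Set.mem_iUnion, Set.mem_compl_iff, stay, not_forall]
    constructor
    · rintro ⟨n, hn⟩; exact ⟨n, n, le_rfl, hn⟩
    · rintro ⟨n, k, _, hk⟩; exact ⟨k, hk⟩
  rw [hset, Monotone.measure_iUnion]
  · exact iSup_le fun n => (le_self_add).trans (hall n)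
  · intro m n hmn ω hω h
    exact hω fun k hk => h k (hk.trans hmn)

end general

end Pool.Agent.Helper96.Urn
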