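import Mathlib
import Pool.Agent.Helper96.ArwMono
import Pool.Agent.Helper96.UrnProb

/-! Identification of `F` with the probability for the jump chain. -/

open MeasureTheory ProbabilityTheory Finset Preorder
open scoped ENNReal NNReal

namespace Pool.Agent.Helper96.ARW

open Pool.Agent.Helper96.Urn

section general

variable {S : Type} [MeasurableSpace S] [DiscreteMeasurableSpace S]
  (P : Kernel S S) [IsMarkovKernel P]

/-- A chain with a drift towards the complement of `𝒢` leaves `𝒢`. -/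
theorem exits (x₀ : S) (𝒢 : Set S) (L : S → ℝ≥0∞) (hL : L x₀ ≠ ⊤)
    (h1 : ∀ x ∈ 𝒢, ∫⁻ y, L y ∂(P x) + 1 ≤ L x) :
    pathLaw P x₀ {ω | ∀ n, ω n ∈ 𝒢} = 0 := by
  set μ := pathLaw P x₀ with hμ
  have hms : ∀ n, MeasurableSet (stay 𝒢 n) := measurableSet_stay 𝒢
  have hLm : Measurable L := Measurable.of_discrete
  set b : ℕ → ℝ≥0∞ := fun n => ∫⁻ ω in stay 𝒢 n, L (ω n) ∂μ with hb
  have hstep : ∀ n, b (n + 1) + μ (stay 𝒢 n) ≤ b n := by
    intro n
    have hsub : stay 𝒢 (n + 1) ⊆ stay 𝒢 n := fun ω h k hk => h k (by omega)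
    have e1 : b (n + 1) ≤ ∫⁻ ω in stay 𝒢 n, L (ω (n + 1)) ∂μ :=
      lintegral_mono_set hsub
    set B : Set (Π _ : Finset.Iic n, S) := {h | ∀ k, h k ∈ 𝒢} with hB
    have hBm : MeasurableSet B := by
      have : B = ⋂ k, (fun h : (Π _ : Finset.Iic n, S) => h k) ⁻¹' 𝒢 := by
        ext h; simp [hB]
      rw [this]
      exact MeasurableSet.iInter fun k => (measurable_pi_apply k) (MeasurableSet.of_discrete)
    have hmem : ∀ ω : ℕ → S, (frestrictLe (π := fun _ => S) n ω ∈ B ↔ ω ∈ stay 𝒢 n) := by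
      intro ω
      constructor
      · intro h k hk
        exact h ⟨k, Finset.mem_Iic.2 hk⟩
      · intro h k
        exact h k.1 (Finset.mem_Iic.1 k.2)
    have hF := lintegral_step P x₀ n (fun p => B.indicator (fun _ => L p.2) p.1) (by
      have : (fun p : (Π _ : Finset.Iic n, S) × S => B.indicator (fun _ => L p.2) p.1)
          = (Prod.fst ⁻¹' B).indicator (fun p => L p.2) := by
        ext p
        simp only [Set.indicator, Set.mem_preimage]
        rfl
      rw [this]
      exact (hLm.comp measurable_snd).indicator (measurable_fst hBm))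
    have l1 : ∫⁻ ω in stay 𝒢 n, L (ω (n + 1)) ∂μ = ∫⁻ ω, B.indicator (fun _ => L (ω (n + 1)))
        (frestrictLe (π := fun _ => S) n ω) ∂μ := by
      rw [← lintegral_indicator (hms n)]
      refine lintegral_congr fun ω => ?_
      by_cases h : ω ∈ stay 𝒢 n
      · rw [Set.indicator_of_mem h, Set.indicator_of_mem ((hmem ω).2 h)]
      · rw [Set.indicator_of_notMem h, Set.indicator_of_notMem (fun h' => h ((hmem ω).1 h'))]
    have l2 : ∫⁻ ω in stay 𝒢 n, L (ω (n + 1)) ∂μ =
        ∫⁻ ω in stay 𝒢 n, ∫⁻ y, L y ∂(P (ω n)) ∂μ := by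
      rw [l1]
      refine (hF : _ = _).trans ?_
      rw [← lintegral_indicator (hms n)]
      refine lintegral_congr fun ω => ?_
      by_cases h : ω ∈ stay 𝒢 n
      · rw [Set.indicator_of_mem h]
        simp only [Set.indicator_of_mem ((hmem ω).2 h)]
      · rw [Set.indicator_of_notMem h]
        simp only [Set.indicator_of_notMem (fun h' => h ((hmem ω).1 h'))]
        simp
    calc b (n + 1) + μ (stay 𝒢 n) ≤ ∫⁻ ω in stay 𝒢 n, L (ω (n + 1)) ∂μ + μ (stay 𝒢 n) := by
          gcongr
      _ = ∫⁻ ω in stay 𝒢 n, ∫⁻ y, L y ∂(P (ω n)) ∂μ + ∫⁻ ω in stay 𝒢 n, 1 ∂μ := by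
          rw [l2]; simp
      _ = ∫⁻ ω in stay 𝒢 n, (∫⁻ y, L y ∂(P (ω n)) + 1) ∂μ := by
          rw [lintegral_add_right _ measurable_const]
      _ ≤ b n := setLIntegral_mono' (hms n) fun ω hω => h1 _ (hω n le_rfl)
  have h0 : b 0 ≤ L x₀ := by
    have hz := pathLaw_zero P x₀
    calc b 0 ≤ ∫⁻ ω, L (ω 0) ∂μ := setLIntegral_le_lintegral _ _
      _ = ∫⁻ ω, L x₀ ∂μ := by
        refine lintegral_congr_ae ?_
        filter_upwards [hz] with ω hω
        rw [hω]
      _ = L x₀ := by simp
  set c := μ {ω | ∀ n, ω n ∈ 𝒢} with hc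
  have hcle : ∀ n, c ≤ μ (stay 𝒢 n) := fun n => measure_mono fun ω hω k _ => hω k
  have hsum : ∀ n : ℕ, b n + n * c ≤ L x₀ := by
    intro n
    induction n with
    | zero => simpa using h0
    | succ n ih =>
      calc b (n + 1) + ((n + 1 : ℕ) : ℝ≥0∞) * c = (b (n + 1) + c) + n * c := by
            push_cast; ring
        _ ≤ (b (n + 1) + μ (stay 𝒢 n)) + n * c := by
            gcongr
            exact hcle n
        _ ≤ b n + n * c := by
            gcongr
            exact hstep n
        _ ≤ L x₀ := ih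
  by_contra hne
  have h2 : ∀ n : ℕ, (n : ℝ≥0∞) * c ≤ L x₀ := fun n => le_add_self.trans (hsum n)
  have h3 : (⊤ : ℝ≥0∞) * c ≤ L x₀ := by
    rw [← ENNReal.iSup_natCast, ENNReal.iSup_mul]
    exact iSup_le h2
  rw [ENNReal.top_mul hne] at h3
  exact hL (top_le_iff.1 h3)

end general

variable {V E : Type} [Fintype V] [DecidableEq V] [Fintype E] [DecidableEq E]

section graph

variable (G : SinkGraph V E)

omit [Fintype V] [DecidableEq V] [Fintype E] [DecidableEq E] in
lemma exists_src {G : SinkGraph V E} {x : V} (hx : G.Reaches x) : ∃ i, G.src i = x := by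
  cases hx with
  | sink i h => exact ⟨i, rfl⟩
  | step i y h hy => exact ⟨i, rfl⟩

omit [DecidableEq E] in
/-- resummation of the jump terms by sites -/
lemma sum_jumps (ξ : Config V) (g : V → E → ℝ) :
    ∑ i, (act ξ (G.src i) : ℝ) / (G.outdeg (G.src i) : ℝ) * g (G.src i) i =
      ∑ x, (act ξ x : ℝ) * ∑ i, wt G x i * g x i := by
  simp only [Finset.mul_sum]
  rw [Finset.sum_comm]
  refine Finset.sum_congr rfl fun i _ => ?_
  unfold wt
  rw [Finset.sum_eq_single (G.src i)]
  · rw [if_pos rfl]; ring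
  · intro x _ hx
    rw [if_neg (Ne.symm hx)]; ring
  · intro h; exact absurd (mem_univ _) h

omit [DecidableEq E] in
lemma rate_eq (hG : ∀ x, G.Reaches x) (lam : ℝ≥0) (ξ : Config V) :
    rate G lam ξ = ∑ x, ((act ξ x : ℝ) + if ξ x = some 1 then (lam : ℝ) else 0) := by
  unfold rate
  rw [Finset.sum_add_distrib]
  congr 1
  have h := sum_jumps G ξ (fun _ _ => 1)
  simp only [mul_one] at h
  rw [h]
  refine Finset.sum_congr rfl fun x _ => ?_
  rw [sum_wt (exists_src (hG x)), mul_one]

omit [DecidableEq E] in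
lemma rate_pos (hG : ∀ x, G.Reaches x) (lam : ℝ≥0) {ξ : Config V} (h : ¬ Stable ξ) :
    0 < rate G lam ξ := by
  rw [rate_eq G hG]
  unfold Stable at h
  push Not at h
  obtain ⟨x, hx⟩ := h
  have hnn : ∀ x, 0 ≤ ((act ξ x : ℝ) + if ξ x = some 1 then (lam : ℝ) else 0) := by
    intro x
    split_ifs
    · positivity
    · positivity
  refine lt_of_lt_of_le ?_ (Finset.single_le_sum (fun x _ => hnn x) (mem_univ x))
  have h1 : (0 : ℝ) < act ξ x := by
    have : 0 < act ξ x := by omega
    exact_mod_cast this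
  have h2 : (0 : ℝ) ≤ if ξ x = some 1 then (lam : ℝ) else 0 := by
    split_ifs
    · exact lam.2
    · exact le_rfl
  linarith

omit [DecidableEq E] in
lemma rate_stable (lam : ℝ≥0) {ξ : Config V} (h : Stable ξ) : rate G lam ξ = 0 := by
  unfold rate
  have h1 : ∀ x, ξ x ≠ some 1 := by
    intro x hx
    have := h x
    unfold act at this
    rw [hx] at this
    simp at this
  rw [Finset.sum_eq_zero, Finset.sum_eq_zero, add_zero]
  · intro x _
    rw [if_neg (h1 x)]
  · intro i _
    rw [h (G.src i)]; simp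

omit [DecidableEq E] in
/-- the sum of the transitions, by sites -/
lemma sum_all (lam : ℝ≥0) (ξ : Config V) (W : Config V → ℝ) :
    (∑ i, (act ξ (G.src i) : ℝ) / (G.outdeg (G.src i) : ℝ) *
        W (arrive (depart ξ (G.src i)) (G.tgt i))) +
      ∑ x, (if ξ x = some 1 then (lam : ℝ) else 0) * W (putToSleep ξ x) =
    ∑ x, ((act ξ x : ℝ) * ∑ i, wt G x i * W (arrive (depart ξ x) (G.tgt i)) +
      (if ξ x = some 1 then (lam : ℝ) else 0) * W (putToSleep ξ x)) := by
  rw [Finset.sum_add_distrib, ← sum_jumps G ξ (fun x i => W (arrive (depart ξ x) (G.tgt i)))]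

omit [Fintype V] in
lemma doze_of_one {ξ : Config V} {x : V} (h : ξ x = some 1) : doze x ξ = putToSleep ξ x := by
  unfold doze putToSleep app slp
  rw [if_pos h]

omit [Fintype V] in
lemma doze_of_ne_one {ξ : Config V} {x : V} (h : ξ x ≠ some 1) : doze x ξ = ξ := by
  unfold doze
  apply app_id
  unfold slp
  rw [if_neg h]

/-- the sleep probability -/
noncomputable def qq (lam : ℝ≥0) : ℝ := (lam : ℝ) / (1 + lam)

lemma qq_nonneg (lam : ℝ≥0) : 0 ≤ qq lam := by unfold qq; positivity

lemma qq_lt_one (lam : ℝ≥0) : qq lam < 1 := by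
  unfold qq
  rw [div_lt_one (by positivity)]
  linarith

lemma FG_site (e : E) (lam : ℝ≥0) (k : ℕ) (ξ : Config V) (x : V) :
    (act ξ x : ℝ) * ∑ i, wt G x i * FG G e (qq lam) k (arrive (depart ξ x) (G.tgt i)) +
      (if ξ x = some 1 then (lam : ℝ) else 0) * FG G e (qq lam) k (putToSleep ξ x) =
    ((act ξ x : ℝ) + if ξ x = some 1 then (lam : ℝ) else 0) * FG G e (qq lam) k ξ := by
  have hq0 := qq_nonneg lam
  have hq1 := qq_lt_one lam
  by_cases h0 : act ξ x = 0
  · have h1 : ξ x ≠ some 1 := by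
      intro hx
      unfold act at h0
      rw [hx] at h0
      simp at h0
    rw [h0, if_neg h1]; simp
  · have hpos : 0 < act ξ x := by omega
    have htop := FG_top G e hq0 hq1.le k ξ hpos
    by_cases h1 : ξ x = some 1
    · rw [doze_of_one h1] at htop
      have hact : act ξ x = 1 := by unfold act; rw [h1]; rfl
      rw [if_pos h1, hact]
      set A := ∑ i, wt G x i * FG G e (qq lam) k (arrive (depart ξ x) (G.tgt i)) with hA
      rw [htop]
      have hl : (1 : ℝ) + lam ≠ 0 := by positivity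
      unfold qq
      push_cast
      field_simp
      ring
    · rw [doze_of_ne_one h1] at htop
      rw [if_neg h1]
      set A := ∑ i, wt G x i * FG G e (qq lam) k (arrive (depart ξ x) (G.tgt i)) with hA
      have h2 : A = FG G e (qq lam) k ξ := by
        have h3 : (1 - qq lam) * A = (1 - qq lam) * FG G e (qq lam) k ξ := by linarith
        exact mul_left_cancel₀ (by linarith) h3
      rw [h2]
      ring

lemma FG_harm (hG : ∀ x, G.Reaches x) (e : E) (lam : ℝ≥0) (k : ℕ) (ξ : Config V) :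
    (∑ i, (act ξ (G.src i) : ℝ) / (G.outdeg (G.src i) : ℝ) *
        FG G e (qq lam) k (arrive (depart ξ (G.src i)) (G.tgt i))) +
      ∑ x, (if ξ x = some 1 then (lam : ℝ) else 0) * FG G e (qq lam) k (putToSleep ξ x) =
    rate G lam ξ * FG G e (qq lam) k ξ := by
  rw [sum_all, rate_eq G hG, Finset.sum_mul]
  exact Finset.sum_congr rfl fun x _ => FG_site G e lam k ξ x

omit [DecidableEq E] in
lemma Lf_drift (hG : ∀ x, G.Reaches x) (lam : ℝ≥0) {h : V → ℝ} (hh0 : ∀ v, 0 ≤ h v)
    (hh : ∀ v, avg G (ext0 h) v ≤ h v - 1) (ξ : Config V) :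
    (∑ i, (act ξ (G.src i) : ℝ) / (G.outdeg (G.src i) : ℝ) *
        Lf h (arrive (depart ξ (G.src i)) (G.tgt i))) +
      ∑ x, (if ξ x = some 1 then (lam : ℝ) else 0) * Lf h (putToSleep ξ x) ≤
    rate G lam ξ * (Lf h ξ - 1) := by
  rw [sum_all, rate_eq G hG, Finset.sum_mul]
  refine Finset.sum_le_sum fun x _ => ?_
  rw [add_mul]
  refine add_le_add ?_ ?_
  · by_cases h0 : act ξ x = 0
    · rw [h0]; simp
    · exact mul_le_mul_of_nonneg_left (Lf_jump G hh hh0 (by omega)) (by positivity)
  · split_ifs with h1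
    · rw [Lf_putToSleep h h1]
    · simp

/-- the event, for the chain, that a stable configuration with at least `k` particles is reached -/
def reachSet (k : ℕ) : Set (ℕ → Config V) := {ω | ∃ n, Stable (ω n) ∧ k ≤ sleepers (ω n)}

omit [DecidableEq E] in
lemma jump_stable (lam : ℝ≥0) {ξ : Config V} (h : Stable ξ) : jump G lam ξ = Measure.dirac ξ := by
  unfold jump
  rw [if_pos (rate_stable G lam h)]

/-- the chain reaches a stable configuration -/
lemma chain_absorbed (hG : ∀ x, G.Reaches x) (lam : ℝ≥0) (ξ₀ : Config V) :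
    chainLaw G lam ξ₀ {ω | ∀ n, ¬ Stable (ω n)} = 0 := by
  obtain ⟨h, hh0, hh⟩ := exists_lyap G hG
  have hLn := Lf_nonneg hh0
  refine exits (jumpKernel G lam) ξ₀ {ξ | ¬ Stable ξ} (fun ξ => ENNReal.ofReal (Lf h ξ))
    ENNReal.ofReal_ne_top ?_
  intro ξ hξ
  have hr := rate_pos G hG lam hξ
  have h1 : ∫⁻ y, ENNReal.ofReal (Lf h y) ∂(jumpKernel G lam ξ) =
      ∫⁻ y, ENNReal.ofReal (Lf h y) ∂(jump G lam ξ) := rfl
  rw [h1, lintegral_jump G lam hr.ne' _ hLn]
  have h2 := Lf_drift G hG lam hh0 hh ξ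
  have hnn : 0 ≤ (∑ i, (act ξ (G.src i) : ℝ) / (G.outdeg (G.src i) : ℝ) *
        Lf h (arrive (depart ξ (G.src i)) (G.tgt i))) +
      ∑ x, (if ξ x = some 1 then (lam : ℝ) else 0) * Lf h (putToSleep ξ x) := by
    refine add_nonneg (Finset.sum_nonneg fun i _ => mul_nonneg (by positivity) (hLn _))
      (Finset.sum_nonneg fun x _ => mul_nonneg ?_ (hLn _))
    split_ifs
    · exact lam.2
    · exact le_rfl
  rw [← ENNReal.ofReal_one, ← ENNReal.ofReal_add (div_nonneg hnn hr.le) zero_le_one]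
  apply ENNReal.ofReal_le_ofReal
  rw [← le_sub_iff_add_le, div_le_iff₀ hr, mul_comm]
  exact h2

/-- the probability for the chain is given by `F` -/
theorem chainLaw_reach (hG : ∀ x, G.Reaches x) (e : E) (lam : ℝ≥0) (k : ℕ) (ξ₀ : Config V) :
    chainLaw G lam ξ₀ (reachSet k) = ENNReal.ofReal (FG G e (qq lam) k ξ₀) := by
  have hq0 := qq_nonneg lam
  have hq1 := qq_lt_one lam
  have hF0 : ∀ ξ, 0 ≤ FG G e (qq lam) k ξ := fun ξ => F_nonneg G e hq0 hq1.le k _ ξ
  have hF1 : ∀ ξ, FG G e (qq lam) k ξ ≤ 1 := fun ξ => F_le_one G e hq0 hq1.le k _ ξ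
  have hFs : ∀ ξ, Stable ξ → FG G e (qq lam) k ξ = if k ≤ sleepers ξ then 1 else 0 :=
    fun ξ h => F_stable G e _ k _ h
  -- upper bound
  have hup : chainLaw G lam ξ₀ (reachSet k) ≤ ENNReal.ofReal (FG G e (qq lam) k ξ₀) := by
    have h1 := exit_bound (jumpKernel G lam) ξ₀ {ξ | ¬ (Stable ξ ∧ k ≤ sleepers ξ)}
      (fun ξ => ENNReal.ofReal (FG G e (qq lam) k ξ)) ?_ ?_
    · refine le_trans (le_of_eq ?_) h1
      unfold reachSet
      simp only [Set.mem_ofPred_eq, not_not]
      rfl
    · intro ξ _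
      change ∫⁻ y, ENNReal.ofReal (FG G e (qq lam) k y) ∂(jump G lam ξ) ≤ _
      by_cases hst : Stable ξ
      · rw [jump_stable G lam hst, lintegral_dirac]
      · have hr := rate_pos G hG lam hst
        rw [lintegral_jump G lam hr.ne' _ hF0, FG_harm G hG]
        apply le_of_eq
        congr 1
        field_simp
    · intro ξ hξ
      simp only [Set.mem_ofPred_eq, not_not] at hξ
      simp only [hFs ξ hξ.1, if_pos hξ.2, ENNReal.ofReal_one, le_refl]
  have hlow : chainLaw G lam ξ₀ {ω | ∃ n, Stable (ω n) ∧ sleepers (ω n) < k} ≤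
      ENNReal.ofReal (1 - FG G e (qq lam) k ξ₀) := by
    have h1 := exit_bound (jumpKernel G lam) ξ₀ {ξ | ¬ (Stable ξ ∧ sleepers ξ < k)}
      (fun ξ => ENNReal.ofReal (1 - FG G e (qq lam) k ξ)) ?_ ?_
    · refine le_trans (le_of_eq ?_) h1
      simp only [Set.mem_ofPred_eq, not_not]
      rfl
    · intro ξ _
      change ∫⁻ y, ENNReal.ofReal (1 - FG G e (qq lam) k y) ∂(jump G lam ξ) ≤ _
      by_cases hst : Stable ξ
      · rw [jump_stable G lam hst, lintegral_dirac]
      · have hr := rate_pos G hG lam hst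
        rw [lintegral_jump G lam hr.ne' _ (fun ξ => sub_nonneg.2 (hF1 ξ))]
        apply le_of_eq
        congr 1
        simp only [mul_sub, mul_one, Finset.sum_sub_distrib]
        have h2 := FG_harm G hG e lam k ξ
        have h3 : rate G lam ξ = (∑ i, (act ξ (G.src i) : ℝ) / (G.outdeg (G.src i) : ℝ)) +
          ∑ x, (if ξ x = some 1 then (lam : ℝ) else 0) := rfl
        rw [div_eq_iff hr.ne']
        nlinarith
    · intro ξ hξ
      simp only [Set.mem_ofPred_eq, not_not] at hξ
      simp only [hFs ξ hξ.1, if_neg (not_le.2 hξ.2), sub_zero, ENNReal.ofReal_one, le_refl]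
  have habs := chain_absorbed G hG lam ξ₀
  have : IsProbabilityMeasure (chainLaw G lam ξ₀) := by
    unfold chainLaw; infer_instance
  refine le_antisymm hup ?_
  have hcover : (1 : ℝ≥0∞) ≤ chainLaw G lam ξ₀ (reachSet k) +
      chainLaw G lam ξ₀ {ω | ∃ n, Stable (ω n) ∧ sleepers (ω n) < k} := by
    calc (1 : ℝ≥0∞) = chainLaw G lam ξ₀ Set.univ := measure_univ.symm
      _ ≤ chainLaw G lam ξ₀ (({ω | ∀ n, ¬ Stable (ω n)}) ∪ (reachSet k ∪
          {ω | ∃ n, Stable (ω n) ∧ sleepers (ω n) < k})) := by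
          apply measure_mono
          intro ω _
          by_cases h : ∀ n, ¬ Stable (ω n)
          · exact Or.inl h
          · push Not at h
            obtain ⟨n, hn⟩ := h
            rcases Nat.lt_or_ge (sleepers (ω n)) k with h' | h'
            · exact Or.inr (Or.inr ⟨n, hn, h'⟩)
            · exact Or.inr (Or.inl ⟨n, hn, h'⟩)
      _ ≤ _ := (measure_union_le _ _).trans (by
          rw [habs, zero_add]
          exact measure_union_le _ _)
  have h5 : ENNReal.ofReal (FG G e (qq lam) k ξ₀) + ENNReal.ofReal (1 - FG G e (qq lam) k ξ₀)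
      = 1 := by
    rw [← ENNReal.ofReal_add (hF0 _) (sub_nonneg.2 (hF1 _))]
    simp
  rw [← h5] at hcover
  have h6 : ENNReal.ofReal (FG G e (qq lam) k ξ₀) + ENNReal.ofReal (1 - FG G e (qq lam) k ξ₀) ≤
      chainLaw G lam ξ₀ (reachSet k) + ENNReal.ofReal (1 - FG G e (qq lam) k ξ₀) :=
    hcover.trans (by gcongr)
  exact (ENNReal.add_le_add_iff_right ENNReal.ofReal_ne_top).1 h6

end graph

omit [Fintype V] [DecidableEq V] [Fintype E] in
/-- diverting does not destroy the paths to the sink -/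
lemma divert_reaches (G : SinkGraph V E) (e : E) {x : V} (hx : G.Reaches x) :
    (G.divert e).Reaches x := by
  induction hx with
  | sink i hi =>
    refine SinkGraph.Reaches.sink (G := G.divert e) i ?_
    by_cases h : i = e
    · subst h; simp [SinkGraph.divert]
    · simp [SinkGraph.divert, h, hi]
  | step i y hi hy ih =>
    by_cases h : i = e
    · exact SinkGraph.Reaches.sink (G := G.divert e) i (by subst h; simp [SinkGraph.divert])
    · exact SinkGraph.Reaches.step (G := G.divert e) i y (by simp [SinkGraph.divert, h, hi]) ih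

lemma fM_divert (G : SinkGraph V E) (e : E) (q : ℝ) (k M : ℕ) :
    ∀ (τ : ℕ → Option V) (ξ : Config V), fM (G.divert e) e q k M τ ξ = fM G e q k M τ ξ := by
  induction M with
  | zero => intro τ ξ; rfl
  | succ M ih =>
    intro τ ξ
    by_cases hex : ∃ u, 0 < act ξ u
    · obtain ⟨u, hu⟩ := hex
      rw [fM_succ G e q k M τ ξ u hu, fM_succ (G.divert e) e q k M τ ξ u hu]
      unfold top
      simp only [ih]
      congr 2
      refine Finset.sum_congr rfl fun i _ => ?_
      have h1 : wt (G.divert e) u i = wt G u i := rfl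
      have h2 : lnd (G.divert e) e i τ = lnd G e i τ := by
        unfold lnd
        by_cases h : i = e
        · rw [if_pos h, if_pos h]
        · rw [if_neg h, if_neg h]
          simp [SinkGraph.divert, h]
      rw [h1, h2]
    · have hs : Stable ξ := fun x => by
        by_contra hx
        exact hex ⟨x, by omega⟩
      rw [fM_succ_of_stable G e q k M τ hs, fM_succ_of_stable (G.divert e) e q k M τ hs]

lemma FG_divert (G : SinkGraph V E) (e : E) (q : ℝ) (k : ℕ) (ξ : Config V) :
    FG (G.divert e) e q k ξ = F G e q k (fun _ => none) ξ := by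
  unfold FG F
  have : (G.divert e).tgt e = none := by simp [SinkGraph.divert]
  rw [this]
  simp only [fM_divert]

/-- **The comparison for the jump chain.** -/
theorem chain_divert_le (G : SinkGraph V E) (hG : ∀ x, G.Reaches x) (e : E) (lam : ℝ≥0) (k : ℕ)
    {ξ : Config V} (hξ : ∀ z, ξ z ≠ none) :
    chainLaw (G.divert e) lam ξ (reachSet k) ≤ chainLaw G lam ξ (reachSet k) := by
  rw [chainLaw_reach G hG e, chainLaw_reach (G.divert e) (fun x => divert_reaches G e (hG x)) e,
    FG_divert]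
  exact ENNReal.ofReal_le_ofReal (F_divert_le G e (qq_nonneg lam) (qq_lt_one lam) hG k hξ)

end Pool.Agent.Helper96.ARW
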