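import Mathlib
import Pool.Agent.Helper96.UrnDefs

/-! Non-explosion: weighted sums of i.i.d. exponential variables diverge. -/

open MeasureTheory ProbabilityTheory Finset Filter
open scoped ENNReal Topology

namespace Pool.Agent.Helper96.Urn

lemma laplace_exp (s : ℝ) (hs : 0 ≤ s) :
    ∫⁻ x, ENNReal.ofReal (Real.exp (-(s * x))) ∂(expMeasure 1) = ENNReal.ofReal (1 / (1 + s)) := by
  have h1 : expMeasure 1 = volume.withDensity (exponentialPDF 1) := rfl
  have hm1 : Measurable (exponentialPDF 1) := (measurable_exponentialPDFReal 1).ennreal_ofReal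
  have hm2 : Measurable (exponentialPDF (1 + s)) :=
    (measurable_exponentialPDFReal (1 + s)).ennreal_ofReal
  rw [h1, lintegral_withDensity_eq_lintegral_mul _ hm1 (by fun_prop)]
  have h2 : ∀ x : ℝ, (exponentialPDF 1 * fun x => ENNReal.ofReal (Real.exp (-(s * x)))) x
      = ENNReal.ofReal (1 / (1 + s)) * exponentialPDF (1 + s) x := by
    intro x
    simp only [Pi.mul_apply]
    rcases lt_or_ge x 0 with hx | hx
    · rw [exponentialPDF_of_neg hx, exponentialPDF_of_neg hx]; simp
    · rw [exponentialPDF_of_nonneg hx, exponentialPDF_of_nonneg hx,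
        ← ENNReal.ofReal_mul (by positivity), ← ENNReal.ofReal_mul (by positivity)]
      congr 1
      have hne : (1 + s) ≠ 0 := by positivity
      field_simp
      rw [← Real.exp_add]
      congr 1
      ring
  rw [lintegral_congr h2, lintegral_const_mul _ hm2,
    lintegral_exponentialPDF_eq_one (by positivity), mul_one]

lemma exp_nonneg_ae : ∀ᵐ e ∂(Measure.infinitePi (fun _ : ℕ => expMeasure 1)), ∀ k, 0 ≤ e k := by
  rw [ae_all_iff]
  intro k
  have h1 : ∀ᵐ x ∂(expMeasure 1), 0 ≤ x := by
    have h2 : expMeasure 1 (Set.Iio 0) = 0 := by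
      have h1 : expMeasure 1 = volume.withDensity (exponentialPDF 1) := rfl
      rw [h1, withDensity_apply _ measurableSet_Iio]
      exact lintegral_exponentialPDF_of_nonpos le_rfl
    rw [ae_iff]
    convert h2 using 2
    ext x
    simp
  have h3 := Measure.infinitePi_map_eval (fun _ : ℕ => expMeasure 1) k
  rw [← h3] at h1
  exact ae_of_ae_map (measurable_pi_apply k).aemeasurable h1

lemma prod_bound (c : ℕ → ℝ) (hc : ∀ k, 0 ≤ c k) (n : ℕ) :
    1 + ∑ k ∈ range n, c k ≤ ∏ k ∈ range n, (1 + c k) := by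
  induction n with
  | zero => simp
  | succ n ih =>
    rw [Finset.sum_range_succ, Finset.prod_range_succ]
    have h3 : (1 : ℝ) ≤ ∏ k ∈ range n, (1 + c k) :=
      le_trans (by have := Finset.sum_nonneg (s := range n) (fun k _ => hc k); linarith) ih
    nlinarith [hc n]

lemma sum_tendsto (a b : ℝ) (ha : 0 < a) (hb : 0 < b) :
    Tendsto (fun n : ℕ => ∑ k ∈ range n, 1 / (a + b * (k : ℝ))) atTop atTop := by
  have h1 := Real.tendsto_sum_range_one_div_nat_succ_atTop
  have h2 := h1.const_mul_atTop (show (0 : ℝ) < 1 / (a + b) by positivity)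
  refine tendsto_atTop_mono (fun n => ?_) h2
  rw [Finset.mul_sum]
  refine Finset.sum_le_sum fun k _ => ?_
  rw [div_mul_div_comm, one_mul]
  apply one_div_le_one_div_of_le (by positivity)
  nlinarith [show (0 : ℝ) ≤ k by positivity]

/-- `∑ e k / (a + b k) = ∞` almost surely. -/
theorem sum_exp_tendsto (a b : ℝ) (ha : 0 < a) (hb : 0 < b) :
    ∀ᵐ e ∂(Measure.infinitePi (fun _ : ℕ => expMeasure 1)),
      Tendsto (fun n => ∑ k ∈ range n, e k / (a + b * k)) atTop atTop := by
  set μ := Measure.infinitePi (fun _ : ℕ => expMeasure 1) with hμ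
  have hpos : ∀ k : ℕ, 0 < a + b * k := fun k => by positivity
  have hcpos : ∀ k : ℕ, 0 < 1 / (a + b * k) := fun k => by have := hpos k; positivity
  -- Laplace transform of the partial sums
  have hL : ∀ n : ℕ, ∫⁻ e, ENNReal.ofReal (Real.exp (-(∑ k ∈ range n, e k / (a + b * k)))) ∂μ
      = ENNReal.ofReal (∏ k ∈ range n, (1 / (1 + 1 / (a + b * k)))) := by
    intro n
    have hind : iIndepFun (fun (k : ℕ) (e : ℕ → ℝ) =>
        ENNReal.ofReal (Real.exp (-(1 / (a + b * k) * e k)))) μ :=
      iIndepFun_infinitePi (P := fun _ : ℕ => expMeasure 1)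
        (X := fun (k : ℕ) (x : ℝ) => ENNReal.ofReal (Real.exp (-(1 / (a + b * k) * x))))
        (fun k => by fun_prop)
    have h := lintegral_prod_eq_prod_lintegral_of_indepFun (range n) _ hind
      (fun k => by fun_prop)
    have h' : ∀ e : ℕ → ℝ, ENNReal.ofReal (Real.exp (-(∑ k ∈ range n, e k / (a + b * k))))
        = ∏ k ∈ range n, ENNReal.ofReal (Real.exp (-(1 / (a + b * k) * e k))) := by
      intro e
      rw [← ENNReal.ofReal_prod_of_nonneg (fun k _ => (Real.exp_pos _).le), ← Real.exp_sum]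
      congr 2
      rw [← Finset.sum_neg_distrib]
      refine Finset.sum_congr rfl fun k _ => ?_
      ring
    rw [lintegral_congr h', h, ENNReal.ofReal_prod_of_nonneg
      (fun k _ => by have := hcpos k; positivity)]
    refine Finset.prod_congr rfl fun k _ => ?_
    have h3 := Measure.infinitePi_map_eval (fun _ : ℕ => expMeasure 1) k
    rw [← laplace_exp (1 / (a + b * k)) (hcpos k).le, ← h3,
      lintegral_map (by fun_prop) (by fun_prop)]
  -- the product tends to zero
  have hprod : Tendsto (fun n => ∏ k ∈ range n, (1 / (1 + 1 / (a + b * (k : ℝ)))))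
      atTop (𝓝 0) := by
    have hb1 : ∀ n : ℕ, ∏ k ∈ range n, (1 / (1 + 1 / (a + b * (k : ℝ)))) ≤
        1 / (1 + ∑ k ∈ range n, 1 / (a + b * (k : ℝ))) := by
      intro n
      have h1 : ∏ k ∈ range n, (1 / (1 + 1 / (a + b * (k : ℝ)))) =
          1 / ∏ k ∈ range n, (1 + 1 / (a + b * (k : ℝ))) := by
        rw [Finset.prod_div_distrib]; simp
      rw [h1]
      apply one_div_le_one_div_of_le
      · have := Finset.sum_nonneg (s := range n) (fun k _ => (hcpos k).le)
        linarith
      · exact prod_bound _ (fun k => (hcpos k).le) n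
    have h2 : Tendsto (fun n : ℕ => 1 / (1 + ∑ k ∈ range n, 1 / (a + b * (k : ℝ)))) atTop (𝓝 0) := by
      simp only [one_div]
      apply tendsto_inv_atTop_zero.comp
      have := sum_tendsto a b ha hb
      simp only [one_div] at this
      exact tendsto_atTop_add_const_left _ _ this
    refine squeeze_zero (fun n => Finset.prod_nonneg fun k _ => ?_) hb1 h2
    have := hcpos k
    positivity
  -- Markov inequality
  have hM : ∀ M : ℕ, μ {e | ∀ n, ∑ k ∈ range n, e k / (a + b * k) ≤ (M : ℝ)} = 0 := by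
    intro M
    have hle : ∀ n : ℕ, μ {e | ∀ n, ∑ k ∈ range n, e k / (a + b * k) ≤ (M : ℝ)} ≤
        ENNReal.ofReal (Real.exp M) *
          ENNReal.ofReal (∏ k ∈ range n, (1 / (1 + 1 / (a + b * (k : ℝ))))) := by
      intro n
      rw [← hL n, ← lintegral_const_mul _ (by fun_prop)]
      have hms : MeasurableSet {e : ℕ → ℝ | ∑ k ∈ range n, e k / (a + b * k) ≤ (M : ℝ)} :=
        measurableSet_le (by fun_prop) (by fun_prop)
      calc μ {e | ∀ n, ∑ k ∈ range n, e k / (a + b * k) ≤ (M : ℝ)}
          ≤ μ {e | ∑ k ∈ range n, e k / (a + b * k) ≤ (M : ℝ)} :=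
            measure_mono fun e he => he n
        _ = ∫⁻ e in {e | ∑ k ∈ range n, e k / (a + b * k) ≤ (M : ℝ)}, 1 ∂μ := by simp
        _ ≤ ∫⁻ e in {e | ∑ k ∈ range n, e k / (a + b * k) ≤ (M : ℝ)},
            ENNReal.ofReal (Real.exp M) *
              ENNReal.ofReal (Real.exp (-(∑ k ∈ range n, e k / (a + b * k)))) ∂μ := by
            refine setLIntegral_mono' hms fun e he => ?_
            rw [← ENNReal.ofReal_mul (Real.exp_pos _).le, ← Real.exp_add]
            rw [← ENNReal.ofReal_one]
            apply ENNReal.ofReal_le_ofReal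
            apply Real.one_le_exp
            have : ∑ k ∈ range n, e k / (a + b * k) ≤ (M : ℝ) := he
            linarith
        _ ≤ _ := setLIntegral_le_lintegral _ _
    have hlim : Tendsto (fun n => ENNReal.ofReal (Real.exp M) *
        ENNReal.ofReal (∏ k ∈ range n, (1 / (1 + 1 / (a + b * (k : ℝ)))))) atTop (𝓝 0) := by
      have h1 := (ENNReal.tendsto_ofReal hprod)
      have h2 := ENNReal.Tendsto.const_mul h1
        (Or.inr (ENNReal.ofReal_ne_top (r := Real.exp M)))
      simpa using h2
    exact le_antisymm (ge_of_tendsto' hlim hle) zero_le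
  have hM' : ∀ᵐ e ∂μ, ∀ M : ℕ, ∃ n, (M : ℝ) < ∑ k ∈ range n, e k / (a + b * k) := by
    rw [ae_all_iff]
    intro M
    rw [ae_iff]
    convert hM M using 2
    ext e
    simp
  filter_upwards [hM', exp_nonneg_ae] with e he1 he2
  refine tendsto_atTop_atTop_of_monotone ?_ ?_
  · intro m n hmn
    refine Finset.sum_le_sum_of_subset_of_nonneg (Finset.range_mono hmn) fun k _ _ => ?_
    exact div_nonneg (he2 k) (hpos k).le
  · intro x
    obtain ⟨M, hxM⟩ := exists_nat_ge x
    obtain ⟨n, hn⟩ := he1 M
    exact ⟨n, by linarith⟩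

end Pool.Agent.Helper96.Urn
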