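import Mathlib
import Pool.Agent.Helper96.ArwChain
import Pool.Agent.Helper96.UrnTime

/-! From the jump chain to the continuous-time process. -/

open MeasureTheory ProbabilityTheory Finset Preorder
open scoped ENNReal NNReal

namespace Pool.Agent.Helper96.ARW

open Pool.Agent.Helper96.Urn

variable {V E : Type} [Fintype V] [DecidableEq V] [Fintype E] [DecidableEq E]

omit [DecidableEq E] in
/-- almost surely the chain does not move any more once it is stable -/
lemma chain_stays (G : SinkGraph V E) (lam : ℝ≥0) (ξ₀ : Config V) :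
    ∀ᵐ ω ∂(chainLaw G lam ξ₀), ∀ m, Stable (ω m) → ω (m + 1) = ω m := by
  rw [ae_all_iff]
  intro m
  rw [ae_iff]
  set A : Set ((Π _ : Finset.Iic m, Config V) × Config V) :=
    {p | Stable (p.1 ⟨m, Finset.mem_Iic.2 le_rfl⟩) ∧ p.2 ≠ p.1 ⟨m, Finset.mem_Iic.2 le_rfl⟩}
    with hA
  have hAm : MeasurableSet A := by
    have h1 : A = (fun p : (Π _ : Finset.Iic m, Config V) × Config V =>
        (p.1 ⟨m, Finset.mem_Iic.2 le_rfl⟩, p.2)) ⁻¹'
        {p : Config V × Config V | Stable p.1 ∧ p.2 ≠ p.1} := rfl
    rw [h1]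
    have h2 : Measurable (fun p : (Π _ : Finset.Iic m, Config V) × Config V =>
        (p.1 ⟨m, Finset.mem_Iic.2 le_rfl⟩, p.2)) :=
      ((measurable_pi_apply _).comp measurable_fst).prodMk measurable_snd
    exact h2 (MeasurableSet.of_discrete)
  have hF := lintegral_step (jumpKernel G lam) ξ₀ m (A.indicator fun _ => 1)
    (measurable_const.indicator hAm)
  have h1 : chainLaw G lam ξ₀ {ω | ¬ (Stable (ω m) → ω (m + 1) = ω m)} =
      ∫⁻ ω, A.indicator (fun _ => 1) (frestrictLe (π := fun _ => Config V) m ω, ω (m + 1))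
        ∂(pathLaw (jumpKernel G lam) ξ₀) := by
    have h2 : ∀ ω : ℕ → Config V, A.indicator (fun _ => (1 : ℝ≥0∞))
        (frestrictLe (π := fun _ => Config V) m ω, ω (m + 1)) =
        ({ω | ¬ (Stable (ω m) → ω (m + 1) = ω m)} : Set (ℕ → Config V)).indicator
          (fun _ => 1) ω := by
      intro ω
      simp only [Set.indicator]
      congr 1
      simp only [hA, Set.mem_ofPred_eq, Classical.not_imp, eq_iff_iff]
      rfl
    simp only [h2]
    have hm2 : MeasurableSet ({ω | ¬ (Stable (ω m) → ω (m + 1) = ω m)} : Set (ℕ → Config V)) := by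
      have h3 : ({ω | ¬ (Stable (ω m) → ω (m + 1) = ω m)} : Set (ℕ → Config V)) =
          (fun ω : ℕ → Config V => (ω m, ω (m + 1))) ⁻¹'
            {p : Config V × Config V | ¬ (Stable p.1 → p.2 = p.1)} := rfl
      rw [h3]
      have h4 : Measurable (fun ω : ℕ → Config V => (ω m, ω (m + 1))) :=
        (measurable_pi_apply _).prodMk (measurable_pi_apply _)
      exact h4 (MeasurableSet.of_discrete)
    rw [lintegral_indicator hm2]
    simp
    rfl
  rw [h1]
  refine (hF : _ = _).trans ?_
  refine (lintegral_congr fun ω => ?_).trans lintegral_zero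
  change ∫⁻ y, A.indicator (fun _ => 1) (frestrictLe (π := fun _ => Config V) m ω, y)
    ∂(jump G lam (ω m)) = 0
  by_cases hs : Stable (ω m)
  · rw [jump_stable G lam hs, lintegral_dirac]
    apply Set.indicator_of_notMem
    rintro ⟨_, h3⟩
    exact h3 rfl
  · have : ∀ y, A.indicator (fun _ => (1 : ℝ≥0∞))
        (frestrictLe (π := fun _ => Config V) m ω, y) = 0 := by
      intro y
      apply Set.indicator_of_notMem
      rintro ⟨h3, _⟩
      exact hs h3
    simp [this]

lemma exp_pos_ae : ∀ᵐ e ∂(Measure.infinitePi (fun _ : ℕ => expMeasure 1)), ∀ k, 0 < e k := by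
  rw [ae_all_iff]
  intro k
  have h1 : ∀ᵐ x ∂(expMeasure 1), 0 < x := by
    have h2 : expMeasure 1 (Set.Iic 0) = 0 := by
      have h1 : expMeasure 1 = volume.withDensity (exponentialPDF 1) := rfl
      rw [h1, withDensity_apply _ measurableSet_Iic, setLIntegral_congr Iio_ae_eq_Iic.symm]
      exact lintegral_exponentialPDF_of_nonpos le_rfl
    rw [ae_iff]
    convert h2 using 2
    ext x
    simp
  have h3 := Measure.infinitePi_map_eval (fun _ : ℕ => expMeasure 1) k
  rw [← h3] at h1
  exact ae_of_ae_map (measurable_pi_apply k).aemeasurable h1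

/-- the continuous-time event has the same probability as the event for the chain -/
theorem arwLaw_endsWith (G : SinkGraph V E) (hG : ∀ x, G.Reaches x) (lam : ℝ≥0) (ξ₀ : Config V)
    (k : ℕ) : arwLaw G lam ξ₀ (endsWith G lam k) = chainLaw G lam ξ₀ (reachSet k) := by
  have : IsProbabilityMeasure (chainLaw G lam ξ₀) := by
    unfold chainLaw; infer_instance
  have h1 : ∀ᵐ ω ∂(arwLaw G lam ξ₀), ∀ m, Stable (ω.1 m) → ω.1 (m + 1) = ω.1 m :=
    (Measure.quasiMeasurePreserving_fst (μ := chainLaw G lam ξ₀)
      (ν := Measure.infinitePi (fun _ : ℕ => expMeasure 1))).ae (chain_stays G lam ξ₀)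
  have h2 : ∀ᵐ ω ∂(arwLaw G lam ξ₀), ∀ m, 0 < ω.2 m :=
    (Measure.quasiMeasurePreserving_snd (μ := chainLaw G lam ξ₀)
      (ν := Measure.infinitePi (fun _ : ℕ => expMeasure 1))).ae exp_pos_ae
  have h3 : endsWith G lam k =ᵐ[arwLaw G lam ξ₀] (reachSet k ×ˢ Set.univ : Set _) := by
    filter_upwards [h1, h2] with ω hω1 hω2
    apply propext
    change ω ∈ endsWith G lam k ↔ ω ∈ (reachSet k ×ˢ Set.univ : Set _)
    constructor
    · rintro ⟨t, ξ, ⟨n, _, _, hn⟩, hs, hk⟩
      exact ⟨⟨n, by rw [hn]; exact hs, by rw [hn]; exact hk⟩, trivial⟩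
    · rintro ⟨⟨n, hs, hk⟩, _⟩
      classical
      have hex : ∃ n, Stable (ω.1 n) := ⟨n, hs⟩
      set n0 := Nat.find hex with hn0
      have hs0 : Stable (ω.1 n0) := Nat.find_spec hex
      have hlt : ∀ j < n0, ¬ Stable (ω.1 j) := fun j hj => Nat.find_min hex hj
      have hle : n0 ≤ n := Nat.find_min' hex hs
      have hconst : ∀ j, ω.1 (n0 + j) = ω.1 n0 := by
        intro j
        induction j with
        | zero => rfl
        | succ j ih =>
          have := hω1 (n0 + j) (by rw [ih]; exact hs0)
          rw [← add_assoc, this, ih]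
      have hk0 : k ≤ sleepers (ω.1 n0) := by
        have := hconst (n - n0)
        rw [Nat.add_sub_cancel' hle] at this
        rw [← this]; exact hk
      have hfin : jumpTime G lam ω n0 ≠ ⊤ := by
        unfold jumpTime
        refine ENNReal.sum_ne_top.2 fun j hj => ?_
        have hr := rate_pos G hG lam (hlt j (Finset.mem_range.1 hj))
        refine ENNReal.div_ne_top ENNReal.ofReal_ne_top ?_
        simpa using hr
      refine ⟨(jumpTime G lam ω n0).toNNReal, ω.1 n0, ⟨n0, ?_, ?_, rfl⟩, hs0, hk0⟩
      · rw [ENNReal.coe_toNNReal hfin]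
      · rw [ENNReal.coe_toNNReal hfin]
        have htop : jumpTime G lam ω (n0 + 1) = ⊤ := by
          unfold jumpTime
          rw [Finset.sum_range_succ, rate_stable G lam hs0, ENNReal.ofReal_zero,
            ENNReal.div_zero]
          · simp
          · simpa using hω2 n0
        rw [htop]
        exact lt_top_iff_ne_top.2 hfin
  rw [measure_congr h3]
  unfold arwLaw
  rw [Measure.prod_prod]
  simp

/-- the process reaches a stable configuration almost surely -/
theorem arwLaw_absorbed (G : SinkGraph V E) (hG : ∀ x, G.Reaches x) (lam : ℝ≥0) (ξ₀ : Config V) :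
    arwLaw G lam ξ₀ (endsWith G lam 0) = 1 := by
  rw [arwLaw_endsWith G hG]
  have : IsProbabilityMeasure (chainLaw G lam ξ₀) := by
    unfold chainLaw; infer_instance
  have h1 : (reachSet 0 : Set (ℕ → Config V)) = {ω | ∀ n, ¬ Stable (ω n)}ᶜ := by
    ext ω
    simp [reachSet]
  apply le_antisymm prob_le_one
  calc (1 : ℝ≥0∞) = chainLaw G lam ξ₀ Set.univ := measure_univ.symm
    _ ≤ chainLaw G lam ξ₀ ({ω | ∀ n, ¬ Stable (ω n)} ∪ reachSet 0) := by
      apply measure_mono
      intro ω _
      rw [h1]
      exact Classical.em _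
    _ ≤ _ := (measure_union_le _ _).trans (by rw [chain_absorbed G hG, zero_add])

/-- **Diverting an edge to the sink lowers the number of particles stochastically.** -/
theorem divert_le (G : SinkGraph V E) (hG : ∀ x, G.Reaches x) (e : E) (lam : ℝ≥0)
    (η : V → ℕ) (k : ℕ) :
    arwLaw (G.divert e) lam (fun x => some (η x)) (endsWith (G.divert e) lam k) ≤
      arwLaw G lam (fun x => some (η x)) (endsWith G lam k) := by
  rw [arwLaw_endsWith G hG, arwLaw_endsWith (G.divert e) (fun x => divert_reaches G e (hG x))]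
  exact chain_divert_le G hG e lam k (fun z => by simp)

end Pool.Agent.Helper96.ARW
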