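import Mathlib
import Pool.Agent.Helper96.UrnDefs

/-! Lyapunov function for the competing urn scheme. -/

open MeasureTheory ProbabilityTheory Finset Filter
open scoped ENNReal Topology

set_option linter.unusedSectionVars false
set_option linter.unusedVariables false

namespace Pool.Agent.Helper96.Urn

/-! ### urn contents -/

section content

variable {K : ℕ}

lemma sum_enter_pure (u : Fin K → ℕ) (i : Fin K) (h : ∀ j, j ≠ i → u j = 0) :
    ∑ j, enter u i j = ∑ j, u j + 1 := by
  rw [enter, if_pos h, Finset.sum_update_of_mem (Finset.mem_univ i)]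
  rw [← Finset.add_sum_erase _ _ (Finset.mem_univ i)]
  have : (univ : Finset (Fin K)) \ {i} = univ.erase i := by
    ext j; simp
  rw [this]
  ring

lemma sum_enter_other (u : Fin K → ℕ) (i : Fin K) (hu : ∀ a b, 0 < u a → 0 < u b → a = b)
    (h : ¬ ∀ j, j ≠ i → u j = 0) :
    ∑ j, enter u i j + 1 = ∑ j, u j := by
  rw [enter, if_neg h]
  push Not at h
  obtain ⟨t, hti, ht⟩ := h
  have hz : ∀ j, j ≠ t → u j = 0 := by
    intro j hj
    by_contra hc
    exact hj (hu j t (Nat.pos_of_ne_zero hc) (Nat.pos_of_ne_zero ht))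
  rw [Finset.sum_eq_single t, Finset.sum_eq_single t, if_neg hti]
  · omega
  · intro j _ hj; exact hz j hj
  · simp
  · intro j _ hj
    split_ifs with h1
    · exact hz j hj
    · rw [hz j hj]
      rfl
  · simp

lemma enter_adm (u : Fin K → ℕ) (i : Fin K) (hu : ∀ a b, 0 < u a → 0 < u b → a = b) :
    ∀ a b, 0 < enter u i a → 0 < enter u i b → a = b := by
  intro a b
  rw [enter]
  split_ifs with h
  · intro ha hb
    have key : ∀ c, 0 < Function.update u i (u i + 1) c → c = i := by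
      intro c hc
      by_contra hci
      rw [Function.update_of_ne hci, h c hci] at hc
      exact lt_irrefl _ hc
    rw [key a ha, key b hb]
  · intro ha hb
    have key : ∀ c, 0 < (if c = i then u c else u c - 1) → 0 < u c := by
      intro c hc
      split_ifs at hc with h1
      · exact hc
      · omega
    exact hu a b (key a ha) (key b hb)

lemma enter_only (u : Fin K → ℕ) (i t : Fin K) (h : ∀ j, j ≠ t → u j = 0) (hi : i = t ∨ 0 < u t) :
    ∀ j, j ≠ t → enter u i j = 0 := by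
  intro j hj
  rw [enter]
  split_ifs with h1
  · by_cases hit : i = t
    · rw [hit, Function.update_of_ne hj, h j hj]
    · have h2 := h1 t (fun h' => hit h'.symm)
      rcases hi with hi | hi
      · exact absurd hi hit
      · omega
  · simp only
    split_ifs with h2
    · exact h j hj
    · rw [h j hj]

end content

variable {V : Type} [Fintype V] [DecidableEq V] {K : ℕ} (G : SimpleGraph V) [DecidableRel G.Adj]
  (D : Finset V) (τ : V → Fin K) (r : ℕ)

/-- The structural hypotheses of the coexistence criterion. -/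
structure Crit : Prop where
  rpos : 0 < r
  Dne : D.Nonempty
  reg : ∀ v ∈ D, (D.filter (fun w => G.Adj v w)).card = r
  typ : ∀ v ∈ D, ∀ w ∈ D, G.Adj v w → τ v = τ w
  maj : ∀ z, z ∉ D → ∀ i, 2 * (D.filter (fun w => G.Adj z w ∧ τ w = i)).card <
    (D.filter (fun w => G.Adj z w)).card

/-- admissible configurations -/
def Adm (η : Config V K) : Prop := ∀ v i j, 0 < η v i → 0 < η v j → i = j

/-- number of balls at a vertex -/
def N (η : Config V K) (v : V) : ℝ := ∑ i, (η v i : ℝ)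

lemma N_nonneg (η : Config V K) (v : V) : 0 ≤ N η v := Finset.sum_nonneg fun _ _ => by positivity

/-- number of balls on `D` -/
def S (η : Config V K) : ℝ := ∑ v ∈ D, N η v

lemma S_nonneg (η : Config V K) : 0 ≤ S D η := Finset.sum_nonneg fun _ _ => N_nonneg _ _

/-- number of balls off `D` -/
def Z (η : Config V K) : ℝ := ∑ v ∈ Dᶜ, N η v

lemma Z_nonneg (η : Config V K) : 0 ≤ Z D η := Finset.sum_nonneg fun _ _ => N_nonneg _ _

/-- weight -/
def wt (θ : ℝ) (v : V) : ℝ := if v ∈ D then 1 else θ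

/-- quadratic form -/
def A (θ : ℝ) (η : Config V K) : ℝ := ∑ v, wt D θ v * (N η v) ^ 2

/-- Lyapunov function -/
noncomputable def Φ (θ C : ℝ) (η : Config V K) : ℝ := A D θ η / (S D η) ^ 2 + C / S D η

/-- sign of the change of the number of balls at `w` when a ball of type `i` at `v` nucleates -/
def sg (η : Config V K) (v : V) (i : Fin K) (w : V) : ℝ :=
  if G.Adj v w then (if ∀ j, j ≠ i → η w j = 0 then 1 else -1) else 0

lemma sg_sq (η : Config V K) (v : V) (i : Fin K) (w : V) :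
    (sg G η v i w) ^ 2 = if G.Adj v w then 1 else 0 := by
  unfold sg
  split_ifs <;> norm_num

lemma sg_abs (η : Config V K) (v : V) (i : Fin K) (w : V) :
    |sg G η v i w| ≤ 1 := by
  unfold sg
  split_ifs <;> norm_num

lemma N_nucleate (η : Config V K) (hη : Adm η) (v : V) (i : Fin K) (w : V) :
    N (nucleate G η v i) w = N η w + sg G η v i w := by
  unfold N nucleate sg
  split_ifs with h1 h2
  · have := sum_enter_pure (η w) i h2
    have h3 : (∑ j, (enter (η w) i j : ℝ)) = ∑ j, (η w j : ℝ) + 1 := by exact_mod_cast this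
    exact h3
  · have := sum_enter_other (η w) i (hη w) h2
    have h3 : (∑ j, (enter (η w) i j : ℝ)) + 1 = ∑ j, (η w j : ℝ) := by exact_mod_cast this
    linarith
  · simp

lemma Adm_nucleate (η : Config V K) (hη : Adm η) (v : V) (i : Fin K) :
    Adm (nucleate G η v i) := by
  intro w a b
  unfold nucleate
  split_ifs with h
  · exact enter_adm (η w) i (hη w) a b
  · exact hη w a b

lemma S_nucleate (η : Config V K) (hη : Adm η) (v : V) (i : Fin K) :
    S D (nucleate G η v i) = S D η + ∑ w ∈ D, sg G η v i w := by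
  unfold S
  rw [← Finset.sum_add_distrib]
  exact Finset.sum_congr rfl fun w _ => N_nucleate G η hη v i w

lemma A_nucleate (θ : ℝ) (η : Config V K) (hη : Adm η) (v : V) (i : Fin K) :
    A D θ (nucleate G η v i) = A D θ η +
      ∑ w, wt D θ w * (2 * N η w * sg G η v i w + (sg G η v i w) ^ 2) := by
  unfold A
  rw [← Finset.sum_add_distrib]
  refine Finset.sum_congr rfl fun w _ => ?_
  rw [N_nucleate G η hη v i w]
  ring

/-! ### pure inequalities -/

lemma zpart (a A' S' s C n : ℝ) (hA0 : 0 ≤ A') (hA : A' ≤ 2 * S' ^ 2)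
    (ha : a ≤ 3 * n * S') (hs : |s| ≤ n) (hn : 1 ≤ n) (hC : 0 ≤ C) (hS : 4 * n * C ≤ S')
    (hS2 : 4 * n ≤ S') :
    (A' + a) / (S' + s) ^ 2 + C / (S' + s) ≤ A' / S' ^ 2 + C / S' + (28 * n + 1) / S' := by
  have hSpos : 0 < S' := by linarith
  obtain ⟨hs1, hs2⟩ := abs_le.1 hs
  set T := S' + s with hT
  have hT1 : S' - n ≤ T := by linarith
  have hT2 : 3 / 4 * S' ≤ T := by linarith
  have hTpos : 0 < T := by linarith
  have hTsq : S' ^ 2 - 2 * n * S' ≤ T ^ 2 := by nlinarith
  have hTsq2 : 9 / 16 * S' ^ 2 ≤ T ^ 2 := by nlinarith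
  -- first piece
  have p1 : A' / T ^ 2 ≤ A' / S' ^ 2 + 8 * n / S' := by
    rw [div_le_iff₀ (by positivity)]
    have e1 : (A' / S' ^ 2 + 8 * n / S') * T ^ 2 = (A' / S' ^ 2) * T ^ 2 + (8 * n / S') * T ^ 2 := by
      ring
    rw [e1]
    have hα : A' / S' ^ 2 ≤ 2 := by rw [div_le_iff₀ (by positivity)]; exact hA
    have hα0 : 0 ≤ A' / S' ^ 2 := by positivity
    have e2 : (A' / S' ^ 2) * (S' ^ 2 - 2 * n * S') ≤ (A' / S' ^ 2) * T ^ 2 :=
      mul_le_mul_of_nonneg_left hTsq hα0
    have e3 : (8 * n / S') * (9 / 16 * S' ^ 2) ≤ (8 * n / S') * T ^ 2 :=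
      mul_le_mul_of_nonneg_left hTsq2 (by positivity)
    have e4 : (8 * n / S') * (9 / 16 * S' ^ 2) = 9 / 2 * n * S' := by field_simp; ring
    have e5 : (A' / S' ^ 2) * (S' ^ 2 - 2 * n * S') = A' - (A' / S' ^ 2) * (2 * n * S') := by
      field_simp
    have e6 : (A' / S' ^ 2) * (2 * n * S') ≤ 2 * (2 * n * S') :=
      mul_le_mul_of_nonneg_right hα (by positivity)
    nlinarith [mul_pos (show (0 : ℝ) < n by linarith) hSpos]
  -- second piece
  have p2 : a / T ^ 2 ≤ 6 * n / S' := by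
    rw [div_le_iff₀ (by positivity)]
    have e3 : (6 * n / S') * (9 / 16 * S' ^ 2) ≤ (6 * n / S') * T ^ 2 :=
      mul_le_mul_of_nonneg_left hTsq2 (by positivity)
    have e4 : (6 * n / S') * (9 / 16 * S' ^ 2) = 27 / 8 * n * S' := by field_simp; ring
    nlinarith [mul_pos (show (0 : ℝ) < n by linarith) hSpos]
  -- third piece
  have p3 : C / T ≤ C / S' + 1 / S' := by
    rw [← add_div, div_le_div_iff₀ hTpos hSpos]
    nlinarith [mul_nonneg hC (show 0 ≤ T - (S' - n) by linarith)]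
  have e0 : (A' + a) / T ^ 2 = A' / T ^ 2 + a / T ^ 2 := by rw [add_div]
  have e1 : (28 * n + 1) / S' = 28 * n / S' + 1 / S' := by rw [add_div]
  have e2 : 8 * n / S' + 6 * n / S' ≤ 28 * n / S' := by
    rw [← add_div]
    gcongr
    linarith
  rw [e0, e1]
  linarith

lemma dpart (A' S' P C n r θ d Z' : ℝ) (hA0 : 0 ≤ A') (hn : 1 ≤ n) (hr : 1 ≤ r) (hθ : 0 ≤ θ)
    (hd : 0 < d) (hZ : 0 ≤ Z') (hC : C = r + θ * n) (hSr : r ≤ S')
    (hP : P ≤ 2 * r * A' + (r + θ * n) * S' - θ * (S' / d) * Z') :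
    (S' * A' + P) / (S' + r) ^ 2 + C * S' / (S' + r) ≤ A' / S' + C - θ * Z' / (4 * d * S') := by
  have hSpos : 0 < S' := by linarith
  set T := S' + r with hT
  have hTpos : 0 < T := by linarith
  have hT2 : T ≤ 2 * S' := by linarith
  have hCpos : 0 < C := by rw [hC]; positivity
  have q1 : (S' * A' + 2 * r * A') / T ^ 2 ≤ A' / S' := by
    rw [div_le_div_iff₀ (by positivity) hSpos]
    have : (S' * A' + 2 * r * A') * S' = A' * (T ^ 2 - r ^ 2) := by rw [hT]; ring
    rw [this]
    nlinarith [mul_nonneg hA0 (sq_nonneg r)]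
  have q2 : C * S' / T ^ 2 + C * S' / T ≤ C := by
    have : C * S' / T ^ 2 + C * S' / T = C * (S' + S' * T) / T ^ 2 := by
      field_simp
    rw [this, div_le_iff₀ (by positivity)]
    apply mul_le_mul_of_nonneg_left _ hCpos.le
    rw [hT]
    nlinarith
  have q3 : θ * Z' / (4 * d * S') ≤ θ * (S' / d) * Z' / T ^ 2 := by
    rw [div_le_div_iff₀ (by positivity) (by positivity)]
    have h1 : T ^ 2 ≤ 4 * S' ^ 2 := by nlinarith
    have h2 : θ * (S' / d) * Z' * (4 * d * S') = θ * Z' * (4 * S' ^ 2) := by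
      field_simp
    rw [h2]
    exact mul_le_mul_of_nonneg_left h1 (by positivity)
  have q4 : (S' * A' + P) / T ^ 2 ≤
      (S' * A' + 2 * r * A') / T ^ 2 + C * S' / T ^ 2 - θ * (S' / d) * Z' / T ^ 2 := by
    rw [← add_div, ← sub_div]
    apply div_le_div_of_nonneg_right _ (by positivity)
    rw [hC]
    linarith
  linarith

/-! ### constants and the good region -/

/-- number of vertices -/
noncomputable def cn (V : Type) [Fintype V] : ℝ := Fintype.card V

/-- number of vertices in `D` -/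
noncomputable def cd : ℝ := D.card

/-- weight of the vertices off `D` -/
noncomputable def cθ : ℝ := 4 * cd D * (28 * cn V + 1)

/-- coefficient of `1 / S` -/
noncomputable def cC : ℝ := r + cθ D * cn V

/-- size of the region -/
noncomputable def cv : ℝ := 1 / (4 * cn V ^ 2 * cd D ^ 2 * cθ D)

/-- The good region. -/
structure Reg (η : Config V K) : Prop where
  adm : Adm η
  only : ∀ v ∈ D, ∀ i, i ≠ τ v → η v i = 0
  Spos : 0 < S D η
  small : Φ D (cθ D) (cC D r) η < 1 / cd D + cv D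

section facts

variable {G D τ r}

lemma cd_ge (h : D.Nonempty) : 1 ≤ cd D := by
  unfold cd
  exact_mod_cast h.card_pos

lemma cn_ge (h : D.Nonempty) : 1 ≤ cn V := by
  unfold cn
  obtain ⟨v, _⟩ := h
  have : 0 < Fintype.card V := Fintype.card_pos_iff.2 ⟨v⟩
  exact_mod_cast this

lemma cθ_ge (h : D.Nonempty) : 1 ≤ cθ D := by
  unfold cθ
  have := cd_ge h
  have := cn_ge h
  nlinarith

lemma cC_ge (h : D.Nonempty) : cθ D ≤ cC D r := by
  unfold cC
  have := cn_ge h
  have h1 := cθ_ge h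
  have h2 : (0 : ℝ) ≤ r := Nat.cast_nonneg r
  nlinarith

lemma cC_ge_r (h : D.Nonempty) : (r : ℝ) ≤ cC D r := by
  unfold cC
  have := cn_ge h
  have h1 := cθ_ge h
  nlinarith

lemma cv_pos (h : D.Nonempty) : 0 < cv D := by
  unfold cv
  have := cd_ge h
  have := cn_ge h
  have := cθ_ge h
  positivity

lemma cv_mul_θ (h : D.Nonempty) : cv D * cθ D ≤ 1 := by
  unfold cv
  have h1 := cd_ge h
  have h2 := cn_ge h
  have h3 := cθ_ge h
  rw [div_mul_eq_mul_div, one_mul, div_le_one (by positivity)]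
  have h4 : 1 ≤ cn V ^ 2 := by nlinarith
  have h5 : 1 ≤ cd D ^ 2 := by nlinarith
  have h6 : 1 ≤ 4 * cn V ^ 2 * cd D ^ 2 := by nlinarith
  nlinarith

lemma cv_le (h : D.Nonempty) : cv D ≤ 1 / (2 * cn V * cd D) ^ 2 := by
  unfold cv
  have h1 := cd_ge h
  have h2 := cn_ge h
  have h3 := cθ_ge h
  apply one_div_le_one_div_of_le (by positivity)
  have h4 : 0 < (2 * cn V * cd D) ^ 2 := by positivity
  nlinarith

lemma cv_le_one (h : D.Nonempty) : cv D ≤ 1 := by
  have h1 := cv_mul_θ h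
  have h2 := cθ_ge h
  have h3 := cv_pos h
  nlinarith

lemma A_split (θ : ℝ) (η : Config V K) :
    A D θ η = ∑ v ∈ D, (N η v) ^ 2 + θ * ∑ v ∈ Dᶜ, (N η v) ^ 2 := by
  unfold A wt
  rw [← Finset.sum_add_sum_compl D, Finset.mul_sum]
  congr 1
  · refine Finset.sum_congr rfl fun v hv => ?_
    rw [if_pos hv, one_mul]
  · refine Finset.sum_congr rfl fun v hv => ?_
    rw [if_neg (Finset.mem_compl.1 hv)]

lemma A_nonneg (h : D.Nonempty) (η : Config V K) : 0 ≤ A D (cθ D) η := by
  rw [A_split]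
  have := cθ_ge h
  have h1 := Finset.sum_nonneg (s := D) (fun v _ => sq_nonneg (N η v))
  have h2 := Finset.sum_nonneg (s := Dᶜ) (fun v _ => sq_nonneg (N η v))
  positivity

lemma sq_le_A (h : D.Nonempty) (η : Config V K) : ∑ v ∈ D, (N η v) ^ 2 ≤ A D (cθ D) η := by
  rw [A_split]
  have := cθ_ge h
  have h2 := Finset.sum_nonneg (s := Dᶜ) (fun v _ => sq_nonneg (N η v))
  nlinarith

lemma S_sq_le (h : D.Nonempty) (η : Config V K) :
    (S D η) ^ 2 ≤ cd D * ∑ v ∈ D, (N η v) ^ 2 := by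
  unfold S cd
  exact sq_sum_le_card_mul_sum_sq

lemma Φ_ge (h : D.Nonempty) (η : Config V K) (hS : 0 < S D η) :
    1 / cd D ≤ Φ D (cθ D) (cC D r) η := by
  have h1 := cd_ge h
  have h2 := S_sq_le h η
  have h3 := sq_le_A h η
  have h4 : 0 ≤ cC D r := by have := cθ_ge h; have := cC_ge (r := r) h; linarith
  have h5 : 1 / cd D ≤ A D (cθ D) η / (S D η) ^ 2 := by
    rw [div_le_div_iff₀ (by positivity) (by positivity)]
    nlinarith
  have h6 : 0 ≤ cC D r / S D η := by positivity
  unfold Φ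
  linarith

variable {η : Config V K}

lemma Reg.CS (h : D.Nonempty) (hη : Reg D τ r η) : cC D r / S D η < cv D := by
  have h1 := cd_ge h
  have h2 := S_sq_le h η
  have h3 := sq_le_A h η
  have h5 : 1 / cd D ≤ A D (cθ D) η / (S D η) ^ 2 := by
    have := hη.Spos
    rw [div_le_div_iff₀ (by positivity) (by positivity)]
    nlinarith
  have h6 := hη.small
  unfold Φ at h6
  linarith

lemma Reg.AS (h : D.Nonempty) (hη : Reg D τ r η) :
    A D (cθ D) η ≤ (1 / cd D + cv D) * (S D η) ^ 2 := by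
  have h4 : 0 ≤ cC D r := by have := cθ_ge h; have := cC_ge (r := r) h; linarith
  have h5 := hη.Spos
  have h6 : 0 ≤ cC D r / S D η := by positivity
  have h7 := hη.small
  unfold Φ at h7
  have h8 : A D (cθ D) η / (S D η) ^ 2 ≤ 1 / cd D + cv D := by linarith
  rwa [div_le_iff₀ (by positivity)] at h8

lemma Reg.S_large (h : D.Nonempty) (hη : Reg D τ r η) :
    4 * cn V * cC D r ≤ S D η := by
  have h1 := hη.CS h
  have h2 := hη.Spos
  have h3 := cv_pos h
  have h4 := cn_ge h
  have h5 := cd_ge h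
  have h6 := cθ_ge h
  have h7 := cC_ge (r := r) h
  rw [div_lt_iff₀ h2] at h1
  have h8 : cv D * (4 * cn V ^ 2 * cd D ^ 2 * cθ D) = 1 := by
    unfold cv
    field_simp
  have h9 : 0 < 4 * cn V ^ 2 * cd D ^ 2 * cθ D := by positivity
  have h10 : cC D r * (4 * cn V ^ 2 * cd D ^ 2 * cθ D) ≤ S D η := by
    calc cC D r * (4 * cn V ^ 2 * cd D ^ 2 * cθ D)
        ≤ (cv D * S D η) * (4 * cn V ^ 2 * cd D ^ 2 * cθ D) :=
          mul_le_mul_of_nonneg_right h1.le h9.le
      _ = (cv D * (4 * cn V ^ 2 * cd D ^ 2 * cθ D)) * S D η := by ring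
      _ = S D η := by rw [h8, one_mul]
  have h11 : 1 ≤ cd D ^ 2 * cθ D := by nlinarith
  have h12 : 4 * cn V ≤ 4 * cn V ^ 2 * cd D ^ 2 * cθ D := by
    have : 4 * cn V ^ 2 * cd D ^ 2 * cθ D = (4 * cn V ^ 2) * (cd D ^ 2 * cθ D) := by ring
    rw [this]
    nlinarith
  have h13 : 0 ≤ cC D r := by linarith
  nlinarith

lemma Reg.S_large2 (h : D.Nonempty) (hη : Reg D τ r η) :
    4 * cn V * cθ D ≤ S D η := by
  have h1 := hη.S_large h
  have h2 := cC_ge (r := r) h
  have h3 := cn_ge h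
  nlinarith

lemma Reg.S_large3 (h : D.Nonempty) (hη : Reg D τ r η) : 4 * cn V ≤ S D η := by
  have h1 := hη.S_large2 h
  have h2 := cθ_ge h
  have h3 := cn_ge h
  nlinarith

/-- each count on `D` is close to the average. -/
lemma Reg.N_close (h : D.Nonempty) (hη : Reg D τ r η) {v : V} (hv : v ∈ D) :
    |N η v - S D η / cd D| ≤ S D η / cd D / (2 * cn V) := by
  have h1 := cd_ge h
  have h2 := cn_ge h
  have hS := hη.Spos
  have e1 : ∑ w ∈ D, (N η w - S D η / cd D) ^ 2 =
      ∑ w ∈ D, (N η w) ^ 2 - (S D η) ^ 2 / cd D := by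
    have e2 : ∀ w ∈ D, (N η w - S D η / cd D) ^ 2 =
        (N η w) ^ 2 - 2 * (S D η / cd D) * N η w + (S D η / cd D) ^ 2 := fun w _ => by ring
    rw [Finset.sum_congr rfl e2, Finset.sum_add_distrib, Finset.sum_sub_distrib,
      ← Finset.mul_sum, Finset.sum_const, nsmul_eq_mul]
    have e3 : ∑ w ∈ D, N η w = S D η := rfl
    have e4 : (D.card : ℝ) = cd D := rfl
    rw [e3, e4]
    field_simp
    ring
  have e5 : (N η v - S D η / cd D) ^ 2 ≤ ∑ w ∈ D, (N η w - S D η / cd D) ^ 2 :=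
    Finset.single_le_sum (f := fun w => (N η w - S D η / cd D) ^ 2) (fun w _ => sq_nonneg _) hv
  have e6 := hη.AS h
  have e7 := sq_le_A h η
  have e8 := cv_le h
  have e9 : (N η v - S D η / cd D) ^ 2 ≤ cv D * (S D η) ^ 2 := by
    have : (1 / cd D + cv D) * (S D η) ^ 2 = (S D η) ^ 2 / cd D + cv D * (S D η) ^ 2 := by ring
    linarith
  have e10 : cv D * (S D η) ^ 2 ≤ (S D η / cd D / (2 * cn V)) ^ 2 := by
    have : (S D η / cd D / (2 * cn V)) ^ 2 = 1 / (2 * cn V * cd D) ^ 2 * (S D η) ^ 2 := by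
      field_simp
    rw [this]
    exact mul_le_mul_of_nonneg_right e8 (by positivity)
  exact abs_le_of_sq_le_sq (e9.trans e10) (by positivity)

lemma Reg.N_pos (h : D.Nonempty) (hη : Reg D τ r η) {v : V} (hv : v ∈ D) : 0 < N η v := by
  have h1 := cd_ge h
  have h2 := cn_ge h
  have hS := hη.Spos
  have h3 := (abs_le.1 (hη.N_close h hv)).1
  have h4 : 0 < S D η / cd D := by positivity
  have h5 : S D η / cd D / (2 * cn V) ≤ S D η / cd D / 2 := by
    apply div_le_div_of_nonneg_left h4.le (by norm_num)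
    linarith
  linarith

lemma Reg.N_le_S (hη : Reg D τ r η) {v : V} (hv : v ∈ D) : N η v ≤ S D η :=
  Finset.single_le_sum (f := fun w => N η w) (fun w _ => N_nonneg _ _) hv

lemma Reg.θN_le (h : D.Nonempty) (hη : Reg D τ r η) {z : V} (hz : z ∉ D) :
    cθ D * N η z ≤ S D η := by
  have h0 := cd_ge h
  have h1 := cθ_ge h
  have h2 := hη.AS h
  have h3 := S_sq_le h η
  have hS := hη.Spos
  have e1 : (N η z) ^ 2 ≤ ∑ w ∈ Dᶜ, (N η w) ^ 2 :=
    Finset.single_le_sum (f := fun w => (N η w) ^ 2) (fun w _ => sq_nonneg _)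
      (Finset.mem_compl.2 hz)
  rw [A_split] at h2
  have e2 : (S D η) ^ 2 / cd D ≤ ∑ v ∈ D, (N η v) ^ 2 := by
    rw [div_le_iff₀ (by positivity)]
    linarith
  have e3 : (1 / cd D + cv D) * (S D η) ^ 2 = (S D η) ^ 2 / cd D + cv D * (S D η) ^ 2 := by ring
  have e4 : cθ D * (N η z) ^ 2 ≤ cv D * (S D η) ^ 2 := by nlinarith
  have e5 : (cθ D * N η z) ^ 2 ≤ (S D η) ^ 2 := by
    calc (cθ D * N η z) ^ 2 = cθ D * (cθ D * (N η z) ^ 2) := by ring
      _ ≤ cθ D * (cv D * (S D η) ^ 2) := mul_le_mul_of_nonneg_left e4 (by linarith)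
      _ = (cv D * cθ D) * (S D η) ^ 2 := by ring
      _ ≤ 1 * (S D η) ^ 2 := mul_le_mul_of_nonneg_right (cv_mul_θ h) (by positivity)
      _ = (S D η) ^ 2 := one_mul _
  exact (abs_le_of_sq_le_sq' e5 hS.le).2

lemma Reg.A_le (h : D.Nonempty) (hη : Reg D τ r η) : A D (cθ D) η ≤ 2 * (S D η) ^ 2 := by
  have h0 := cd_ge h
  have h1 := hη.AS h
  have h2 := cv_le_one h
  have h3 : 1 / cd D ≤ 1 := by rw [div_le_one (by linarith)]; exact h0
  nlinarith [sq_nonneg (S D η)]

end facts

/-! ### sums over the graph -/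

section sums

variable {G D τ r} {η : Config V K}

lemma sum_adj (hc : Crit G D τ r) (f : V → ℝ) :
    ∑ w ∈ D, ∑ v ∈ D, (if G.Adj v w then f v else 0) = r * ∑ v ∈ D, f v := by
  rw [Finset.sum_comm, Finset.mul_sum]
  refine Finset.sum_congr rfl fun v hv => ?_
  rw [← Finset.sum_filter, Finset.sum_const, hc.reg v hv, nsmul_eq_mul]

lemma sum_adj' (hc : Crit G D τ r) (f : V → ℝ) :
    ∑ w ∈ D, ∑ v ∈ D, (if G.Adj v w then f w else 0) = r * ∑ v ∈ D, f v := by
  rw [Finset.mul_sum]
  refine Finset.sum_congr rfl fun w hw => ?_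
  rw [← Finset.sum_filter, Finset.sum_const, nsmul_eq_mul]
  congr 2
  rw [← hc.reg w hw]
  congr 1
  ext v
  simp only [Finset.mem_filter, SimpleGraph.adj_comm]

lemma sg_D (hc : Crit G D τ r) (hη : Reg D τ r η) {v w : V} (hv : v ∈ D) (hw : w ∈ D) :
    sg G η v (τ v) w = if G.Adj v w then 1 else 0 := by
  unfold sg
  by_cases h : G.Adj v w
  · rw [if_pos h, if_pos h, if_pos]
    intro j hj
    apply hη.only w hw
    rw [← hc.typ v hv w hw h]
    exact hj
  · rw [if_neg h, if_neg h]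

lemma K1 (hc : Crit G D τ r) (hη : Reg D τ r η) {z : V} (hz : z ∉ D) :
    N η z * ∑ v ∈ D, N η v * sg G η v (τ v) z ≤ -(S D η / (2 * cd D)) * N η z := by
  by_cases h0 : ∀ i, η z i = 0
  · have : N η z = 0 := by unfold N; simp [h0]
    rw [this]; simp
  push Not at h0
  obtain ⟨t, ht⟩ := h0
  have ht' : 0 < η z t := Nat.pos_of_ne_zero ht
  have hpure : ∀ i, (∀ j, j ≠ i → η z j = 0) ↔ i = t := by
    intro i
    constructor
    · intro h
      by_contra hit
      exact ht (h t (fun h' => hit h'.symm))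
    · rintro rfl j hj
      by_contra hc
      exact hj (hη.adm z j i (Nat.pos_of_ne_zero hc) ht')
  have hD := hc.Dne
  have hd := cd_ge hD
  have hn := cn_ge hD
  have hS := hη.Spos
  set m := S D η / cd D with hm
  have hmpos : 0 < m := by positivity
  set ε := 1 / (2 * cn V) with hε
  have hεpos : 0 < ε := by positivity
  have hεn : ε * cn V = 1 / 2 := by rw [hε]; field_simp
  set F := D.filter (fun w => G.Adj z w) with hF
  set F' := D.filter (fun w => G.Adj z w ∧ τ w = t) with hF'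
  have hmaj : 2 * F'.card < F.card := hc.maj z hz t
  have e1 : ∑ v ∈ D, N η v * sg G η v (τ v) z =
      ∑ v ∈ F, N η v * (if τ v = t then 1 else -1) := by
    rw [hF, Finset.sum_filter]
    refine Finset.sum_congr rfl fun v hv => ?_
    unfold sg
    by_cases h : G.Adj v z
    · rw [if_pos h, if_pos h.symm]
      congr 1
      by_cases h1 : τ v = t
      · rw [if_pos h1, if_pos ((hpure _).2 h1)]
      · rw [if_neg h1, if_neg (fun h' => h1 ((hpure _).1 h'))]
    · rw [if_neg h, if_neg (fun h' => h h'.symm)]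
      simp
  have e2 : ∑ v ∈ F, N η v * (if τ v = t then 1 else -1) ≤
      ∑ v ∈ F, (-((1 - ε) * m) + if τ v = t then 2 * m else 0) := by
    refine Finset.sum_le_sum fun v hv => ?_
    have hvD : v ∈ D := (Finset.mem_filter.1 hv).1
    have h1 := abs_le.1 (hη.N_close hD hvD)
    have h2 : S D η / cd D / (2 * cn V) = ε * m := by rw [hε, hm]; ring
    rw [h2] at h1
    split_ifs with h3
    · linarith [h1.2]
    · linarith [h1.1]
  have e3 : ∑ v ∈ F, (-((1 - ε) * m) + if τ v = t then 2 * m else 0) =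
      -(F.card * ((1 - ε) * m)) + F'.card * (2 * m) := by
    rw [Finset.sum_add_distrib, Finset.sum_const, nsmul_eq_mul, ← Finset.sum_filter,
      Finset.sum_const, nsmul_eq_mul, hF, Finset.filter_filter]
    ring
  have e4 : (F.card : ℝ) ≤ cn V := by
    unfold cn
    exact_mod_cast Finset.card_le_univ F
  have e5 : (2 * F'.card + 1 : ℝ) ≤ F.card := by exact_mod_cast hmaj
  have e6 : -(F.card * ((1 - ε) * m)) + F'.card * (2 * m) ≤ -(m / 2) := by
    have : (F.card : ℝ) * ε ≤ 1 / 2 := by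
      rw [← hεn, mul_comm]
      exact mul_le_mul_of_nonneg_left e4 hεpos.le
    nlinarith
  have e7 : ∑ v ∈ D, N η v * sg G η v (τ v) z ≤ -(m / 2) := by
    rw [e1]; linarith
  have e8 : -(S D η / (2 * cd D)) = -(m / 2) := by rw [hm]; field_simp
  rw [e8, mul_comm]
  exact mul_le_mul_of_nonneg_right e7 (N_nonneg _ _)

/-- The total drift of the quadratic form caused by the nucleations on `D`. -/
lemma P_le (hc : Crit G D τ r) (hη : Reg D τ r η) :
    ∑ v ∈ D, N η v * ∑ w, wt D (cθ D) w *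
        (2 * N η w * sg G η v (τ v) w + (sg G η v (τ v) w) ^ 2) ≤
      2 * r * A D (cθ D) η + (r + cθ D * cn V) * S D η -
        cθ D * (S D η / cd D) * Z D η := by
  have hD := hc.Dne
  have hθ := cθ_ge hD
  have hd := cd_ge hD
  have hS := hη.Spos
  have e1 : ∑ v ∈ D, N η v * ∑ w, wt D (cθ D) w *
        (2 * N η w * sg G η v (τ v) w + (sg G η v (τ v) w) ^ 2) =
      ∑ w ∈ D, ∑ v ∈ D, N η v * (2 * N η w * sg G η v (τ v) w + (sg G η v (τ v) w) ^ 2) +
      cθ D * ∑ w ∈ Dᶜ, ∑ v ∈ D,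
        N η v * (2 * N η w * sg G η v (τ v) w + (sg G η v (τ v) w) ^ 2) := by
    have : ∀ v ∈ D, N η v * ∑ w, wt D (cθ D) w *
        (2 * N η w * sg G η v (τ v) w + (sg G η v (τ v) w) ^ 2) =
        ∑ w ∈ D, N η v * (2 * N η w * sg G η v (τ v) w + (sg G η v (τ v) w) ^ 2) +
        cθ D * ∑ w ∈ Dᶜ, N η v * (2 * N η w * sg G η v (τ v) w + (sg G η v (τ v) w) ^ 2) := by
      intro v _
      rw [← Finset.sum_add_sum_compl D, mul_add, Finset.mul_sum, Finset.mul_sum, Finset.mul_sum]
      congr 1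
      · refine Finset.sum_congr rfl fun w hw => ?_
        unfold wt
        rw [if_pos hw, one_mul]
      · refine Finset.sum_congr rfl fun w hw => ?_
        unfold wt
        rw [if_neg (Finset.mem_compl.1 hw)]
        ring
    rw [Finset.sum_congr rfl this, Finset.sum_add_distrib, Finset.sum_comm, ← Finset.mul_sum,
      Finset.sum_comm (s := D) (t := Dᶜ)]
  have e2 : ∑ w ∈ D, ∑ v ∈ D, N η v * (2 * N η w * sg G η v (τ v) w + (sg G η v (τ v) w) ^ 2) ≤
      2 * r * ∑ v ∈ D, (N η v) ^ 2 + r * S D η := by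
    have h1 : ∀ w ∈ D, ∑ v ∈ D, N η v * (2 * N η w * sg G η v (τ v) w +
        (sg G η v (τ v) w) ^ 2) ≤ ∑ v ∈ D, (if G.Adj v w then (N η v) ^ 2 else 0) +
        ∑ v ∈ D, (if G.Adj v w then (N η w) ^ 2 else 0) +
        ∑ v ∈ D, (if G.Adj v w then (N η v) else 0) := by
      intro w hw
      rw [← Finset.sum_add_distrib, ← Finset.sum_add_distrib]
      refine Finset.sum_le_sum fun v hv => ?_
      rw [sg_D hc hη hv hw]
      split_ifs
      · nlinarith [sq_nonneg (N η v - N η w)]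
      · simp
    refine (Finset.sum_le_sum h1).trans ?_
    rw [Finset.sum_add_distrib, Finset.sum_add_distrib, sum_adj hc (fun v => (N η v) ^ 2),
      sum_adj' hc (fun v => (N η v) ^ 2), sum_adj hc (fun v => N η v)]
    have : S D η = ∑ v ∈ D, N η v := rfl
    rw [this]
    linarith
  have e3 : ∑ w ∈ Dᶜ, ∑ v ∈ D,
      N η v * (2 * N η w * sg G η v (τ v) w + (sg G η v (τ v) w) ^ 2) ≤
      cn V * S D η - (S D η / cd D) * Z D η := by
    have h1 : ∀ w ∈ Dᶜ, ∑ v ∈ D, N η v * (2 * N η w * sg G η v (τ v) w +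
        (sg G η v (τ v) w) ^ 2) ≤ S D η - (S D η / cd D) * N η w := by
      intro w hw
      have hw' := Finset.mem_compl.1 hw
      have h2 : ∑ v ∈ D, N η v * (2 * N η w * sg G η v (τ v) w + (sg G η v (τ v) w) ^ 2) =
          2 * (N η w * ∑ v ∈ D, N η v * sg G η v (τ v) w) +
          ∑ v ∈ D, N η v * (sg G η v (τ v) w) ^ 2 := by
        rw [Finset.mul_sum, Finset.mul_sum, ← Finset.sum_add_distrib]
        refine Finset.sum_congr rfl fun v _ => ?_
        ring
      have h3 := K1 hc hη hw'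
      have h4 : ∑ v ∈ D, N η v * (sg G η v (τ v) w) ^ 2 ≤ S D η := by
        refine Finset.sum_le_sum fun v _ => ?_
        rw [sg_sq]
        split_ifs
        · simp
        · simpa using N_nonneg η v
      have h5 : -(S D η / (2 * cd D)) * N η w = -(S D η / cd D) * N η w / 2 := by
        field_simp
      rw [h2]
      linarith
    refine (Finset.sum_le_sum h1).trans ?_
    rw [Finset.sum_sub_distrib, Finset.sum_const, nsmul_eq_mul, ← Finset.mul_sum]
    have h6 : ((Dᶜ).card : ℝ) ≤ cn V := by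
      unfold cn
      exact_mod_cast Finset.card_le_univ _
    have h7 : Z D η = ∑ w ∈ Dᶜ, N η w := rfl
    rw [h7]
    nlinarith
  have e4 : 2 * (r : ℝ) * ∑ v ∈ D, (N η v) ^ 2 ≤ 2 * r * A D (cθ D) η := by
    apply mul_le_mul_of_nonneg_left (sq_le_A hD η) (by positivity)
  have e5 := mul_le_mul_of_nonneg_left e3 (show 0 ≤ cθ D by linarith)
  rw [e1]
  nlinarith

lemma r_le_cn (hc : Crit G D τ r) : (r : ℝ) ≤ cn V := by
  obtain ⟨v, hv⟩ := hc.Dne
  unfold cn
  rw [← hc.reg v hv]
  exact_mod_cast Finset.card_le_univ _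

/-- Drift caused by nucleations on `D`. -/
lemma gen_D (hc : Crit G D τ r) (hη : Reg D τ r η) :
    ∑ v ∈ D, N η v * (Φ D (cθ D) (cC D r) (nucleate G η v (τ v)) - Φ D (cθ D) (cC D r) η) ≤
      -(cθ D * Z D η / (4 * cd D * S D η)) := by
  have hD := hc.Dne
  have hθ := cθ_ge hD
  have hd := cd_ge hD
  have hn := cn_ge hD
  have hS := hη.Spos
  have hSl := hη.S_large3 hD
  have hr1 : (1 : ℝ) ≤ r := by exact_mod_cast hc.rpos
  have hrn := r_le_cn hc
  set P := ∑ v ∈ D, N η v * ∑ w, wt D (cθ D) w *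
        (2 * N η w * sg G η v (τ v) w + (sg G η v (τ v) w) ^ 2) with hP
  have hS' : ∀ v ∈ D, S D (nucleate G η v (τ v)) = S D η + r := by
    intro v hv
    rw [S_nucleate G D η hη.adm]
    congr 1
    rw [Finset.sum_congr rfl fun w hw => sg_D hc hη hv hw, ← Finset.sum_filter,
      Finset.sum_const, hc.reg v hv]
    simp
  have e1 : ∑ v ∈ D, N η v * (Φ D (cθ D) (cC D r) (nucleate G η v (τ v)) -
      Φ D (cθ D) (cC D r) η) =
      (S D η * A D (cθ D) η + P) / (S D η + r) ^ 2 + cC D r * S D η / (S D η + r) -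
      (A D (cθ D) η / S D η + cC D r) := by
    have e2 : ∀ v ∈ D, N η v * (Φ D (cθ D) (cC D r) (nucleate G η v (τ v)) -
        Φ D (cθ D) (cC D r) η) =
        (N η v * A D (cθ D) η + N η v * ∑ w, wt D (cθ D) w *
        (2 * N η w * sg G η v (τ v) w + (sg G η v (τ v) w) ^ 2)) / (S D η + r) ^ 2 +
        cC D r * N η v / (S D η + r) -
        N η v * (A D (cθ D) η / (S D η) ^ 2 + cC D r / S D η) := by
      intro v hv
      unfold Φ
      rw [hS' v hv, A_nucleate G D _ η hη.adm]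
      ring
    rw [Finset.sum_congr rfl e2, Finset.sum_sub_distrib, Finset.sum_add_distrib,
      ← Finset.sum_div, ← Finset.sum_div, Finset.sum_add_distrib, ← Finset.sum_mul,
      ← Finset.mul_sum, ← Finset.sum_mul]
    have : ∑ v ∈ D, N η v = S D η := rfl
    rw [this, ← hP]
    congr 1
    field_simp
  rw [e1]
  have := dpart (A D (cθ D) η) (S D η) P (cC D r) (cn V) r (cθ D) (cd D) (Z D η)
    (A_nonneg hD η) hn hr1 (by linarith) (by linarith) (Z_nonneg D η) rfl (by linarith)
    (P_le hc hη)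
  linarith

/-- A single nucleation, anywhere, increases the Lyapunov function by at most `M / S`. -/
lemma Φ_step (hc : Crit G D τ r) (hη : Reg D τ r η) (v : V) (i : Fin K) :
    Φ D (cθ D) (cC D r) (nucleate G η v i) ≤
      Φ D (cθ D) (cC D r) η + (28 * cn V + 1) / S D η := by
  have hD := hc.Dne
  have hθ := cθ_ge hD
  have hd := cd_ge hD
  have hn := cn_ge hD
  have hS := hη.Spos
  have hSl := hη.S_large3 hD
  have hSl2 := hη.S_large2 hD
  unfold Φ
  rw [S_nucleate G D η hη.adm, A_nucleate G D _ η hη.adm]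
  apply zpart
  · exact A_nonneg hD η
  · exact hη.A_le hD
  · have h1 : ∀ w ∈ (univ : Finset V), wt D (cθ D) w * (2 * N η w * sg G η v i w +
        (sg G η v i w) ^ 2) ≤ 3 * S D η := by
      intro w _
      have h2 : 2 * N η w * sg G η v i w + (sg G η v i w) ^ 2 ≤ 2 * N η w + 1 := by
        have h3 := abs_le.1 (sg_abs G η v i w)
        have h4 := N_nonneg η w
        have h5 : (sg G η v i w) ^ 2 ≤ 1 := by rw [sg_sq]; split_ifs <;> norm_num
        nlinarith [h3.2]
      unfold wt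
      split_ifs with hw
      · have := hη.N_le_S hw
        linarith
      · have h6 := hη.θN_le hD hw
        have h7 := mul_le_mul_of_nonneg_left h2 (show 0 ≤ cθ D by linarith)
        nlinarith
    have h2 := Finset.sum_le_sum h1
    rw [Finset.sum_const, nsmul_eq_mul, Finset.card_univ] at h2
    have h3 : (Fintype.card V : ℝ) = cn V := rfl
    rw [h3] at h2
    linarith
  · calc |∑ w ∈ D, sg G η v i w| ≤ ∑ w ∈ D, |sg G η v i w| := Finset.abs_sum_le_sum_abs _ _
      _ ≤ ∑ w ∈ D, (1 : ℝ) := Finset.sum_le_sum fun w _ => sg_abs G η v i w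
      _ = D.card := by simp
      _ ≤ cn V := by unfold cn; exact_mod_cast Finset.card_le_univ _
  · exact hn
  · have := cC_ge (r := r) hD
    linarith
  · exact hη.S_large hD
  · exact hSl

/-- The Lyapunov inequality. -/
theorem gen_le (hc : Crit G D τ r) (hη : Reg D τ r η) :
    ∑ v, ∑ i, (η v i : ℝ) * (Φ D (cθ D) (cC D r) (nucleate G η v i) -
      Φ D (cθ D) (cC D r) η) ≤ 0 := by
  have hD := hc.Dne
  have hd := cd_ge hD
  have hS := hη.Spos
  rw [← Finset.sum_add_sum_compl D]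
  have e1 : ∑ v ∈ D, ∑ i, (η v i : ℝ) * (Φ D (cθ D) (cC D r) (nucleate G η v i) -
      Φ D (cθ D) (cC D r) η) = ∑ v ∈ D, N η v *
      (Φ D (cθ D) (cC D r) (nucleate G η v (τ v)) - Φ D (cθ D) (cC D r) η) := by
    refine Finset.sum_congr rfl fun v hv => ?_
    rw [Finset.sum_eq_single (τ v)]
    · congr 1
      unfold N
      rw [Finset.sum_eq_single (τ v)]
      · intro i _ hi
        rw [hη.only v hv i hi]; simp
      · simp
    · intro i _ hi
      rw [hη.only v hv i hi]; simp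
    · simp
  have e2 : ∑ v ∈ Dᶜ, ∑ i, (η v i : ℝ) * (Φ D (cθ D) (cC D r) (nucleate G η v i) -
      Φ D (cθ D) (cC D r) η) ≤ Z D η * ((28 * cn V + 1) / S D η) := by
    unfold Z
    rw [Finset.sum_mul]
    refine Finset.sum_le_sum fun v _ => ?_
    unfold N
    rw [Finset.sum_mul]
    refine Finset.sum_le_sum fun i _ => ?_
    apply mul_le_mul_of_nonneg_left _ (by positivity)
    have := Φ_step hc hη v i
    linarith
  have e3 := gen_D hc hη
  have e4 : cθ D * Z D η / (4 * cd D * S D η) = Z D η * ((28 * cn V + 1) / S D η) := by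
    unfold cθ
    field_simp
  rw [e1]
  linarith

end sums

end Pool.Agent.Helper96.Urn
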