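import Mathlib
import Pool.Agent.Helper96.UrnDefs
import Pool.Agent.Helper96.UrnProb
import Pool.Agent.Helper96.UrnTime
import Pool.Agent.Helper96.UrnLyap

/-! The coexistence criterion. -/

open MeasureTheory ProbabilityTheory Finset Filter
open scoped ENNReal Topology

set_option linter.unusedSectionVars false
set_option linter.unusedVariables false

namespace Pool.Agent.Helper96.Urn

variable {V : Type} [Fintype V] [DecidableEq V] {K : ℕ} {G : SimpleGraph V} [DecidableRel G.Adj]
  {D : Finset V} {τ : V → Fin K} {r : ℕ}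

lemma Reg.pos {η : Config V K} (hD : D.Nonempty) (hη : Reg D τ r η) {v : V} (hv : v ∈ D) :
    0 < η v (τ v) := by
  have h := hη.N_pos hD hv
  have h2 : N η v = η v (τ v) := by
    unfold N
    rw [Finset.sum_eq_single (τ v)]
    · intro i _ hi
      rw [hη.only v hv i hi]; simp
    · simp
  rw [h2] at h
  exact_mod_cast h

/-- Leaving the region forces the Lyapunov function to be large. -/
lemma exit_large (hc : Crit G D τ r) {η : Config V K} (hη : Reg D τ r η) (v : V) (i : Fin K)
    (hn : ¬ Reg D τ r (nucleate G η v i)) :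
    1 / cd D + cv D ≤ Φ D (cθ D) (cC D r) (nucleate G η v i) := by
  by_contra hlt
  push Not at hlt
  apply hn
  have hD := hc.Dne
  refine ⟨Adm_nucleate G η hη.adm v i, ?_, ?_, hlt⟩
  · intro w hw j hj
    unfold nucleate
    split_ifs with h
    · exact enter_only (η w) i (τ w) (fun j hj => hη.only w hw j hj)
        (Or.inr (hη.pos hD hw)) j hj
    · exact hη.only w hw j hj
  · rw [S_nucleate G D η hη.adm]
    have h1 : |∑ w ∈ D, sg G η v i w| ≤ cn V := by
      calc |∑ w ∈ D, sg G η v i w| ≤ ∑ w ∈ D, |sg G η v i w| := Finset.abs_sum_le_sum_abs _ _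
        _ ≤ ∑ w ∈ D, (1 : ℝ) := Finset.sum_le_sum fun w _ => sg_abs G η v i w
        _ = D.card := by simp
        _ ≤ cn V := by unfold cn; exact_mod_cast Finset.card_le_univ _
    have h2 := hη.S_large3 hD
    have h3 := cn_ge (V := V) hD
    have h4 := (abs_le.1 h1).1
    linarith

open Classical in
/-- The truncated Lyapunov function. -/
noncomputable def U (D : Finset V) (τ : V → Fin K) (r : ℕ) (η : Config V K) : ℝ :=
  if Reg D τ r η then (Φ D (cθ D) (cC D r) η - 1 / cd D) / cv D else 1

lemma U_nonneg (hD : D.Nonempty) (η : Config V K) : 0 ≤ U D τ r η := by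
  unfold U
  split_ifs with h
  · have h1 := Φ_ge (r := r) hD η h.Spos
    have h2 := cv_pos hD
    exact div_nonneg (by linarith) h2.le
  · norm_num

lemma U_le (hc : Crit G D τ r) {η : Config V K} (hη : Reg D τ r η) (v : V) (i : Fin K) :
    U D τ r (nucleate G η v i) ≤
      (Φ D (cθ D) (cC D r) (nucleate G η v i) - 1 / cd D) / cv D := by
  unfold U
  split_ifs with h
  · exact le_rfl
  · have h1 := exit_large hc hη v i h
    have h2 := cv_pos hc.Dne
    rw [le_div_iff₀ h2]
    linarith

lemma total_pos {η : Config V K} (hD : D.Nonempty) (hη : Reg D τ r η) : 0 < total η := by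
  obtain ⟨v, hv⟩ := hD
  have h1 := hη.pos ⟨v, hv⟩ hv
  unfold total
  have h2 : η v (τ v) ≤ ∑ i, η v i :=
    Finset.single_le_sum (f := fun i => η v i) (fun _ _ => Nat.zero_le _) (Finset.mem_univ _)
  have h3 : ∑ i, η v i ≤ ∑ v, ∑ i, η v i :=
    Finset.single_le_sum (f := fun v => ∑ i, η v i) (fun _ _ => Nat.zero_le _) (Finset.mem_univ _)
  omega

lemma total_eq (η : Config V K) : (total η : ℝ) = ∑ v, ∑ i, (η v i : ℝ) := by
  unfold total
  push_cast
  rfl

lemma sum_U_le (hc : Crit G D τ r) {η : Config V K} (hη : Reg D τ r η) :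
    ∑ v, ∑ i, (η v i : ℝ) / total η * U D τ r (nucleate G η v i) ≤ U D τ r η := by
  have hD := hc.Dne
  have hpos : (0 : ℝ) < total η := by exact_mod_cast total_pos hD hη
  have hv := cv_pos hD
  have h1 : ∑ v, ∑ i, (η v i : ℝ) / total η * U D τ r (nucleate G η v i) ≤
      ∑ v, ∑ i, (η v i : ℝ) / total η *
        ((Φ D (cθ D) (cC D r) (nucleate G η v i) - 1 / cd D) / cv D) := by
    refine Finset.sum_le_sum fun v _ => Finset.sum_le_sum fun i _ => ?_
    exact mul_le_mul_of_nonneg_left (U_le hc hη v i) (by positivity)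
  refine h1.trans ?_
  have h2 := gen_le hc hη
  have h3 : ∑ v, ∑ i, (η v i : ℝ) / total η *
        ((Φ D (cθ D) (cC D r) (nucleate G η v i) - 1 / cd D) / cv D) =
      (1 / (total η * cv D)) * (∑ v, ∑ i, (η v i : ℝ) * (Φ D (cθ D) (cC D r) (nucleate G η v i) -
      Φ D (cθ D) (cC D r) η)) +
      ((Φ D (cθ D) (cC D r) η - 1 / cd D) / cv D) * ((∑ v, ∑ i, (η v i : ℝ)) / total η) := by
    rw [Finset.mul_sum, Finset.sum_div, Finset.mul_sum, ← Finset.sum_add_distrib]
    refine Finset.sum_congr rfl fun v _ => ?_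
    rw [Finset.mul_sum, Finset.sum_div, Finset.mul_sum, ← Finset.sum_add_distrib]
    refine Finset.sum_congr rfl fun i _ => ?_
    field_simp
    ring
  rw [h3, ← total_eq, div_self hpos.ne', mul_one]
  unfold U
  rw [if_pos hη]
  have h4 : 0 < 1 / ((total η : ℝ) * cv D) := by positivity
  nlinarith

lemma lintegral_jump (f : Config V K → ℝ≥0∞) {η : Config V K} (h : total η ≠ 0) :
    ∫⁻ y, f y ∂(jumpKernel G η) =
      ∑ v, ∑ i, ((η v i : ENNReal) / (total η : ENNReal)) * f (nucleate G η v i) := by
  have h1 : jumpKernel G η = jump G η := rfl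
  rw [h1, jump, if_neg h, lintegral_finsetSum_measure]
  refine Finset.sum_congr rfl fun v _ => ?_
  rw [lintegral_finsetSum_measure]
  refine Finset.sum_congr rfl fun i _ => ?_
  rw [lintegral_smul_measure, lintegral_dirac]
  rfl

lemma lintegral_U (hc : Crit G D τ r) {η : Config V K} (hη : Reg D τ r η) :
    ∫⁻ y, ENNReal.ofReal (U D τ r y) ∂(jumpKernel G η) ≤ ENNReal.ofReal (U D τ r η) := by
  have hD := hc.Dne
  have hpos := total_pos hD hη
  rw [lintegral_jump _ hpos.ne']
  refine le_trans (le_of_eq ?_) (ENNReal.ofReal_le_ofReal (sum_U_le hc hη))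
  rw [ENNReal.ofReal_sum_of_nonneg]
  · refine Finset.sum_congr rfl fun v _ => ?_
    rw [ENNReal.ofReal_sum_of_nonneg]
    · refine Finset.sum_congr rfl fun i _ => ?_
      rw [ENNReal.ofReal_mul (by positivity), ENNReal.ofReal_div_of_pos (by exact_mod_cast hpos),
        ENNReal.ofReal_natCast, ENNReal.ofReal_natCast]
    · intro i _
      exact mul_nonneg (by positivity) (U_nonneg hD _)
  · intro v _
    exact Finset.sum_nonneg fun i _ => mul_nonneg (by positivity) (U_nonneg hD _)

lemma chain_exit (hc : Crit G D τ r) {η₀ : Config V K} (hη : Reg D τ r η₀) :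
    chainLaw G η₀ {ω | ∃ n, ¬ Reg D τ r (ω n)} ≤
      ENNReal.ofReal ((Φ D (cθ D) (cC D r) η₀ - 1 / cd D) / cv D) := by
  have h := exit_bound (jumpKernel (K := K) G) η₀ {η | Reg D τ r η}
    (fun η => ENNReal.ofReal (U D τ r η)) (fun η hη => lintegral_U hc hη) (by
      intro η hη
      have hη' : ¬ Reg D τ r η := hη
      have : U D τ r η = 1 := by
        unfold U
        rw [if_neg hη']
      rw [this]; simp)
  have h2 : U D τ r η₀ = (Φ D (cθ D) (cC D r) η₀ - 1 / cd D) / cv D := by
    unfold U
    rw [if_pos hη]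
  rw [← h2]
  exact h

/-! ### growth of the total number of balls -/

lemma total_nucleate_le (η : Config V K) (v : V) (i : Fin K) :
    total (nucleate G η v i) ≤ total η + Fintype.card V := by
  have h1 : ∀ w, ∑ j, nucleate G η v i w j ≤ ∑ j, η w j + 1 := by
    intro w
    unfold nucleate
    split_ifs with h
    · by_cases hp : ∀ j, j ≠ i → η w j = 0
      · rw [sum_enter_pure _ _ hp]
      · rw [enter, if_neg hp]
        refine le_trans (Finset.sum_le_sum (g := fun j => η w j) fun j _ => ?_) (Nat.le_succ _)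
        split_ifs <;> omega
    · omega
  unfold total
  calc ∑ w, ∑ j, nucleate G η v i w j ≤ ∑ w, (∑ j, η w j + 1) :=
        Finset.sum_le_sum fun w _ => h1 w
    _ = ∑ w, ∑ j, η w j + Fintype.card V := by
      rw [Finset.sum_add_distrib]; simp

lemma jump_null (η : Config V K) :
    jumpKernel G η {η' | ¬ total η' ≤ total η + Fintype.card V} = 0 := by
  have h1 : jumpKernel G η = jump G η := rfl
  rw [h1, jump]
  split_ifs with h
  · rw [Measure.dirac_apply' _ MeasurableSet.of_discrete]
    simp
  · simp only [Measure.coe_finsetSum, Finset.sum_apply]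
    refine Finset.sum_eq_zero fun v _ => ?_
    refine Finset.sum_eq_zero fun i _ => ?_
    rw [Measure.smul_apply, Measure.dirac_apply' _ MeasurableSet.of_discrete]
    have := total_nucleate_le (G := G) η v i
    simp [this]

lemma chain_total (η₀ : Config V K) :
    ∀ᵐ ω ∂(chainLaw G η₀), ∀ n, total (ω n) ≤ total η₀ + Fintype.card V * n := by
  have h1 : ∀ᵐ ω ∂(chainLaw G η₀), ∀ n, total (ω (n + 1)) ≤ total (ω n) + Fintype.card V := by
    rw [ae_all_iff]
    intro n
    have h2 := lintegral_step (jumpKernel (K := K) G) η₀ n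
      (fun p => if total p.2 ≤ total (p.1 ⟨n, Finset.mem_Iic.2 le_rfl⟩) + Fintype.card V
        then 0 else 1) (by
          refine Measurable.ite ?_ measurable_const measurable_const
          have hmt : Measurable (fun η : Config V K => total η) := Measurable.of_discrete
          have hm1 : Measurable (fun a : (Finset.Iic n → Config V K) × Config V K =>
            a.1 ⟨n, Finset.mem_Iic.2 le_rfl⟩) :=
            (measurable_pi_apply (⟨n, Finset.mem_Iic.2 le_rfl⟩ : Finset.Iic n)).comp measurable_fst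
          exact measurableSet_le (hmt.comp measurable_snd) ((hmt.comp hm1).add_const _))
    have h3 : ∫⁻ ω : ℕ → Config V K, (if total (ω (n + 1)) ≤ total (ω n) + Fintype.card V
        then 0 else 1 : ℝ≥0∞) ∂(chainLaw G η₀) = 0 := by
      refine h2.trans ?_
      rw [lintegral_eq_zero_iff']
      · refine Filter.Eventually.of_forall fun ω => ?_
        have h4 := jump_null (G := G) (ω n)
        have h5 : ∫⁻ y : Config V K, (if total y ≤ total (ω n) + Fintype.card V
            then 0 else 1 : ℝ≥0∞) ∂(jumpKernel G (ω n)) = 0 := by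
          rw [lintegral_eq_zero_iff Measurable.of_discrete]
          have h6 : ∀ᵐ y ∂(jumpKernel G (ω n)), total y ≤ total (ω n) + Fintype.card V := by
            rw [ae_iff]
            exact h4
          filter_upwards [h6] with y hy
          simp [hy]
        exact h5
      · refine Measurable.aemeasurable ?_
        have : (fun ω : ℕ → Config V K => ∫⁻ (y : Config V K),
          (if total y ≤ total (ω n) + Fintype.card V then 0 else 1 : ℝ≥0∞) ∂(jumpKernel G (ω n)))
          = (fun η : Config V K => ∫⁻ (y : Config V K),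
          (if total y ≤ total η + Fintype.card V then 0 else 1 : ℝ≥0∞) ∂(jumpKernel G η)) ∘
            (fun ω : ℕ → Config V K => ω n) := rfl
        exact this ▸ (Measurable.of_discrete.comp (measurable_pi_apply n))
    have h7 : Measurable fun ω : ℕ → Config V K =>
        (if total (ω (n + 1)) ≤ total (ω n) + Fintype.card V then 0 else 1 : ℝ≥0∞) := by
      refine Measurable.ite ?_ measurable_const measurable_const
      have hmt : Measurable (fun η : Config V K => total η) := Measurable.of_discrete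
      have hm1 : ∀ m, Measurable (fun ω : ℕ → Config V K => ω m) := fun m => measurable_pi_apply m
      exact measurableSet_le (hmt.comp (hm1 (n + 1))) ((hmt.comp (hm1 n)).add_const _)
    rw [lintegral_eq_zero_iff h7] at h3
    filter_upwards [h3] with ω hω
    by_contra hcon
    simp only [hcon, if_false, Pi.zero_apply] at hω
    exact one_ne_zero hω
  filter_upwards [h1, pathLaw_zero (jumpKernel (K := K) G) η₀] with ω h2 h3
  intro n
  induction n with
  | zero => rw [h3]; omega
  | succ n ih =>
    have := h2 n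
    rw [Nat.mul_succ]
    omega

/-! ### the starting configuration -/

/-- `m` balls of type `τ v` at each `v ∈ D`. -/
def start (D : Finset V) (τ : V → Fin K) (m : ℕ) : Config V K :=
  fun v i => if v ∈ D ∧ i = τ v then m else 0

lemma N_start_D {m : ℕ} {v : V} (hv : v ∈ D) : N (start D τ m) v = m := by
  unfold N start
  rw [Finset.sum_eq_single (τ v)]
  · simp [hv]
  · intro i _ hi; simp [hi]
  · simp

lemma N_start_compl {m : ℕ} {v : V} (hv : v ∉ D) : N (start D τ m) v = 0 := by
  unfold N start
  simp [hv]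

lemma S_start {m : ℕ} : S D (start D τ m) = cd D * m := by
  unfold S cd
  rw [Finset.sum_congr rfl fun v hv => N_start_D hv]
  simp

lemma A_start {m : ℕ} : A D (cθ D) (start D τ m) = cd D * m ^ 2 := by
  rw [A_split, Finset.sum_congr rfl fun v hv => by rw [N_start_D hv],
    Finset.sum_congr (s₁ := Dᶜ) rfl fun v hv => by rw [N_start_compl (Finset.mem_compl.1 hv)]]
  unfold cd
  simp

lemma Φ_start (hD : D.Nonempty) {m : ℕ} (hm : 0 < m) :
    Φ D (cθ D) (cC D r) (start D τ m) = 1 / cd D + cC D r / (cd D * m) := by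
  have h1 := cd_ge hD
  have h2 : (0 : ℝ) < m := by exact_mod_cast hm
  unfold Φ
  rw [S_start, A_start]
  congr 1
  field_simp

lemma exists_start (hc : Crit G D τ r) : ∃ m : ℕ, 0 < m ∧ Reg D τ r (start D τ m) ∧
    (Φ D (cθ D) (cC D r) (start D τ m) - 1 / cd D) / cv D < 1 := by
  have hD := hc.Dne
  have h1 := cd_ge hD
  have h2 := cv_pos hD
  have h3 : 0 < cC D r := by have := cθ_ge hD; have := cC_ge (r := r) hD; linarith
  obtain ⟨m, hm⟩ := exists_nat_gt (cC D r / (cd D * cv D))
  have hmpos : (0 : ℝ) < m := lt_trans (by positivity) hm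
  have hm0 : 0 < m := by exact_mod_cast hmpos
  have h4 : cC D r / (cd D * m) < cv D := by
    rw [div_lt_iff₀ (by positivity)] at hm ⊢
    nlinarith
  refine ⟨m, hm0, ⟨?_, ?_, ?_, ?_⟩, ?_⟩
  · intro v i j hi hj
    unfold start at hi hj
    by_cases hv : v ∈ D ∧ i = τ v
    · by_cases hv' : v ∈ D ∧ j = τ v
      · rw [hv.2, hv'.2]
      · simp [hv'] at hj
    · simp [hv] at hi
  · intro v hv i hi
    unfold start
    simp [hi]
  · rw [S_start]; positivity
  · rw [Φ_start hD hm0]; linarith
  · rw [Φ_start hD hm0, div_lt_one h2]; linarith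

/-- The coexistence criterion. -/
theorem coexist (hc : Crit G D τ r) : ∃ η₀ : Config V K,
    (∀ v i j, 0 < η₀ v i → 0 < η₀ v j → i = j) ∧ η₀ ≠ 0 ∧
    0 < urnLaw G η₀ {ω | ∀ t : ℝ, 0 ≤ t → ∃ n, jumpTime ω n ≤ t ∧ t < jumpTime ω (n + 1) ∧
      ∀ v ∈ D, 0 < ω.1 n v (τ v)} := by
  have hD := hc.Dne
  obtain ⟨m, hm, hreg, hlt⟩ := exists_start hc
  refine ⟨start D τ m, hreg.adm, ?_, ?_⟩
  · intro h0
    obtain ⟨v, hv⟩ := hD
    have : start D τ m v (τ v) = 0 := by rw [h0]; rfl
    unfold start at this
    simp [hv] at this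
    omega
  set η₀ := start D τ m with hη₀
  have hT : 0 < total η₀ := total_pos hD hreg
  set a : ℝ := ((total η₀ : ℕ) : ℝ) with ha
  set b : ℝ := ((Fintype.card V : ℕ) : ℝ) with hb
  have hapos : 0 < a := by rw [ha]; exact_mod_cast hT
  have hbpos : 0 < b := by
    have := cn_ge (V := V) hD
    unfold cn at this
    linarith
  -- the good events
  set E₁ : Set (ℕ → Config V K) := {ω | (∀ n, Reg D τ r (ω n)) ∧
    ∀ n, total (ω n) ≤ total η₀ + Fintype.card V * n} with hE₁
  set E₂ : Set (ℕ → ℝ) := {e | Tendsto (fun n => ∑ k ∈ range n, e k / (a + b * k)) atTop atTop ∧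
    ∀ k, 0 ≤ e k} with hE₂
  have hP₂ : Measure.infinitePi (fun _ : ℕ => expMeasure 1) E₂ = 1 := by
    have h : ∀ᵐ e ∂(Measure.infinitePi (fun _ : ℕ => expMeasure 1)), e ∈ E₂ := by
      filter_upwards [sum_exp_tendsto a b hapos hbpos, exp_nonneg_ae] with e h1 h2
      exact ⟨h1, h2⟩
    have h' : Measure.infinitePi (fun _ : ℕ => expMeasure 1) E₂ =
        Measure.infinitePi (fun _ : ℕ => expMeasure 1) Set.univ := by
      apply measure_congr
      filter_upwards [h] with e he
      exact propext ⟨fun _ => trivial, fun _ => he⟩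
    rw [h', measure_univ]
  have hprob : IsProbabilityMeasure (chainLaw G η₀) := by unfold chainLaw; infer_instance
  have hP₁ : 0 < chainLaw G η₀ E₁ := by
    have h1 := chain_exit (G := G) hc hreg
    have h2 : chainLaw G η₀ {ω | ∃ n, ¬ Reg D τ r (ω n)} < 1 := by
      refine lt_of_le_of_lt h1 ?_
      rw [ENNReal.ofReal_lt_one]
      exact hlt
    have h3 : chainLaw G η₀ E₁ᶜ < 1 := by
      refine lt_of_le_of_lt ?_ h2
      refine measure_mono_ae ?_
      filter_upwards [chain_total (G := G) η₀] with ω hω hmem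
      by_contra hcon
      apply hmem
      refine ⟨?_, hω⟩
      intro n
      by_contra h
      exact hcon ⟨n, h⟩
    by_contra h0
    have h4 : chainLaw G η₀ E₁ = 0 := le_antisymm (not_lt.1 h0) zero_le
    have h5 : (1 : ℝ≥0∞) ≤ chainLaw G η₀ E₁ + chainLaw G η₀ E₁ᶜ := by
      calc (1 : ℝ≥0∞) = chainLaw G η₀ Set.univ := measure_univ.symm
        _ = chainLaw G η₀ (E₁ ∪ E₁ᶜ) := by rw [Set.union_compl_self]
        _ ≤ _ := measure_union_le _ _
    rw [h4, zero_add] at h5
    exact absurd h3 (not_lt.2 h5)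
  have hsub : E₁ ×ˢ E₂ ⊆ {ω | ∀ t : ℝ, 0 ≤ t → ∃ n, jumpTime ω n ≤ t ∧ t < jumpTime ω (n + 1) ∧
      ∀ v ∈ D, 0 < ω.1 n v (τ v)} := by
    rintro ⟨ω, e⟩ ⟨⟨hR, hTot⟩, hten, hnn⟩ t ht
    have hle : ∀ n, ∑ k ∈ range n, e k / (a + b * k) ≤ jumpTime (ω, e) n := by
      intro n
      unfold jumpTime
      refine Finset.sum_le_sum fun k _ => ?_
      have h1 : (0 : ℝ) < total (ω k) := by exact_mod_cast total_pos hD (hR k)
      have h2 : (total (ω k) : ℝ) ≤ a + b * k := by rw [ha, hb]; exact_mod_cast hTot k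
      exact div_le_div_of_nonneg_left (hnn k) h1 h2
    have hex : ∃ n, t < jumpTime (ω, e) n := by
      obtain ⟨n, hn⟩ := (hten.eventually (eventually_gt_atTop t)).exists
      exact ⟨n, lt_of_lt_of_le hn (hle n)⟩
    classical
    set n₀ := Nat.find hex with hn₀
    have h1 : t < jumpTime (ω, e) n₀ := Nat.find_spec hex
    have h2 : n₀ ≠ 0 := by
      intro h0
      rw [h0] at h1
      unfold jumpTime at h1
      simp at h1
      linarith
    obtain ⟨n, hn⟩ := Nat.exists_eq_succ_of_ne_zero h2
    refine ⟨n, ?_, ?_, ?_⟩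
    · by_contra h3
      push Not at h3
      have := Nat.find_min' hex h3
      omega
    · rw [hn] at h1; exact h1
    · intro v hv
      exact (hR n).pos hD hv
  refine lt_of_lt_of_le ?_ (measure_mono hsub)
  unfold urnLaw
  rw [Measure.prod_prod, hP₂, mul_one]
  exact hP₁

end Pool.Agent.Helper96.Urn
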