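import Mathlib
import Pool.Agent.Helper96.UrnDefs
import Pool.Agent.Helper96.UrnLyap
import Pool.Agent.Helper96.UrnMain

/-! Hypercubes satisfy the coexistence criterion. -/

open MeasureTheory ProbabilityTheory Finset Filter

set_option linter.unusedSectionVars false
set_option linter.unusedVariables false

namespace Pool.Agent.Helper96.Urn

/-- flip a coordinate -/
def flip {n : ℕ} (x : Fin n → Bool) (j : Fin n) : Fin n → Bool := Function.update x j (!x j)

lemma flip_self {n : ℕ} (x : Fin n → Bool) (j : Fin n) : flip x j j = !x j := by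
  unfold flip; simp

lemma flip_ne {n : ℕ} (x : Fin n → Bool) {i j : Fin n} (h : i ≠ j) : flip x j i = x i := by
  unfold flip; rw [Function.update_of_ne h]

lemma flip_inj {n : ℕ} (x : Fin n → Bool) : Function.Injective (flip x) := by
  intro i j h
  by_contra hij
  have h1 := congrFun h i
  rw [flip_self, flip_ne x hij] at h1
  cases hx : x i <;> simp [hx] at h1

lemma adj_iff {n : ℕ} (x y : Fin n → Bool) : (hypercube n).Adj x y ↔ ∃ j, y = flip x j := by
  change hammingDist x y = 1 ↔ _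
  unfold hammingDist
  rw [Finset.card_eq_one]
  constructor
  · rintro ⟨j, hj⟩
    refine ⟨j, ?_⟩
    funext i
    by_cases hij : i = j
    · subst hij
      rw [flip_self]
      have : i ∈ ({i} : Finset (Fin n)) := Finset.mem_singleton_self i
      rw [← hj, Finset.mem_filter] at this
      have h2 := this.2
      cases hx : x i <;> cases hy : y i <;> simp [hx, hy] at h2 ⊢
    · rw [flip_ne x hij]
      by_contra hne
      have : i ∈ Finset.univ.filter (fun i => x i ≠ y i) :=
        Finset.mem_filter.2 ⟨Finset.mem_univ _, fun h => hne h.symm⟩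
      rw [hj, Finset.mem_singleton] at this
      exact hij this
  · rintro ⟨j, rfl⟩
    refine ⟨j, ?_⟩
    ext i
    rw [Finset.mem_filter, Finset.mem_singleton]
    constructor
    · rintro ⟨_, h⟩
      by_contra hij
      exact h (flip_ne x hij).symm
    · rintro rfl
      refine ⟨Finset.mem_univ _, ?_⟩
      rw [flip_self]
      cases x i <;> simp

section weights

variable {m : ℕ} {A : Type} [AddCommGroup A] [DecidableEq A]

/-- sum of the weights of the coordinates `1, ..., m` that are `true` -/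
def wsum (w : ℕ → A) (x : Fin (m + 1) → Bool) : A :=
  ∑ j : Fin m, if x j.succ then w j else 0

lemma wsum_flip_zero (w : ℕ → A) (x : Fin (m + 1) → Bool) : wsum w (flip x 0) = wsum w x := by
  unfold wsum
  refine Finset.sum_congr rfl fun j _ => ?_
  rw [flip_ne x (Fin.succ_ne_zero j)]

lemma wsum_flip_succ (h2 : ∀ a : A, a + a = 0) (w : ℕ → A) (x : Fin (m + 1) → Bool) (j : Fin m) :
    wsum w (flip x j.succ) = wsum w x + w j := by
  unfold wsum
  have h : ∀ k : Fin m, (if flip x j.succ k.succ then w k else 0) =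
      (if x k.succ then w k else 0) + (if k = j then w j else 0) := by
    intro k
    by_cases hk : k = j
    · subst hk
      rw [flip_self, if_pos rfl]
      cases hx : x k.succ <;> simp [h2]
    · rw [flip_ne x (fun h => hk (Fin.succ_injective _ h)), if_neg hk, add_zero]
  rw [Finset.sum_congr rfl fun k _ => h k, Finset.sum_add_distrib]
  simp

end weights

variable {m : ℕ} {A : Type} [AddCommGroup A] [DecidableEq A] {K : ℕ}

/-- the growing vertices: even parity of the coordinates `1, ..., m` -/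
def cubeD (m : ℕ) : Finset (Fin (m + 1) → Bool) :=
  Finset.univ.filter (fun x => wsum (fun _ => (1 : ZMod 2)) x = 0)

lemma mem_cubeD {x : Fin (m + 1) → Bool} :
    x ∈ cubeD m ↔ wsum (fun _ => (1 : ZMod 2)) x = 0 := by
  unfold cubeD
  simp

lemma zmod2 (a : ZMod 2) : a + a = 0 := by revert a; decide

lemma zmod2' (a : ZMod 2) (h : a ≠ 0) : a + 1 = 0 := by revert a; decide

lemma flip_zero_mem {x : Fin (m + 1) → Bool} : flip x 0 ∈ cubeD m ↔ x ∈ cubeD m := by
  rw [mem_cubeD, mem_cubeD, wsum_flip_zero]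

lemma flip_succ_mem {x : Fin (m + 1) → Bool} {j : Fin m} :
    flip x j.succ ∈ cubeD m ↔ x ∉ cubeD m := by
  rw [mem_cubeD, mem_cubeD, wsum_flip_succ zmod2]
  generalize wsum (fun _ => (1 : ZMod 2)) x = a
  revert a
  decide

theorem crit_cube (h2 : ∀ a : A, a + a = 0) (w : ℕ → A) (g : A → Fin K)
    (hmaj : ∀ s i, 2 * Nat.count (fun j => g (s + w j) = i) m < m) :
    Crit (hypercube (m + 1)) (cubeD m) (fun x => g (wsum w x)) 1 := by
  have hadjD : ∀ x y, x ∈ cubeD m → y ∈ cubeD m → (hypercube (m + 1)).Adj x y →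
      y = flip x 0 := by
    intro x y hx hy h
    obtain ⟨j, rfl⟩ := (adj_iff x y).1 h
    rcases Fin.eq_zero_or_eq_succ j with rfl | ⟨j, rfl⟩
    · rfl
    · exact absurd hx (flip_succ_mem.1 hy)
  refine ⟨one_pos, ⟨fun _ => false, ?_⟩, ?_, ?_, ?_⟩
  · rw [mem_cubeD]; unfold wsum; simp
  · intro v hv
    rw [Finset.card_eq_one]
    refine ⟨flip v 0, ?_⟩
    ext y
    rw [Finset.mem_filter, Finset.mem_singleton]
    constructor
    · rintro ⟨hy, h⟩
      exact hadjD v y hv hy h
    · rintro rfl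
      exact ⟨flip_zero_mem.2 hv, (adj_iff _ _).2 ⟨0, rfl⟩⟩
  · intro v hv y hy h
    rw [hadjD v y hv hy h]
    simp only [wsum_flip_zero]
  · intro z hz i
    have himg : ∀ P : A → Prop, ∀ _ : DecidablePred P,
        ((cubeD m).filter (fun y => (hypercube (m + 1)).Adj z y ∧ P (wsum w y))).card =
        Nat.count (fun j => P (wsum w z + w j)) m := by
      intro P _
      have e1 : (cubeD m).filter (fun y => (hypercube (m + 1)).Adj z y ∧ P (wsum w y)) =
          (Finset.univ.filter (fun j : Fin m => P (wsum w z + w j))).image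
            (fun j => flip z j.succ) := by
        ext y
        rw [Finset.mem_filter, Finset.mem_image]
        constructor
        · rintro ⟨hy, h, hP⟩
          obtain ⟨j, rfl⟩ := (adj_iff _ _).1 h
          rcases Fin.eq_zero_or_eq_succ j with rfl | ⟨j, rfl⟩
          · exact absurd (flip_zero_mem.1 hy) hz
          · refine ⟨j, Finset.mem_filter.2 ⟨Finset.mem_univ _, ?_⟩, rfl⟩
            rwa [wsum_flip_succ h2] at hP
        · rintro ⟨j, hj, rfl⟩
          refine ⟨flip_succ_mem.2 hz, (adj_iff _ _).2 ⟨_, rfl⟩, ?_⟩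
          rw [wsum_flip_succ h2]
          exact (Finset.mem_filter.1 hj).2
      rw [e1, Finset.card_image_of_injective _
        (fun a b h => Fin.succ_injective _ (flip_inj z h)), Nat.count_eq_card_filter_range]
      refine Finset.card_bij (fun j _ => (j : ℕ)) ?_ ?_ ?_
      · intro j hj
        rw [Finset.mem_filter] at hj ⊢
        exact ⟨Finset.mem_range.2 j.2, hj.2⟩
      · intro a _ b _ h
        exact Fin.ext h
      · intro j hj
        rw [Finset.mem_filter] at hj
        exact ⟨⟨j, Finset.mem_range.1 hj.1⟩, Finset.mem_filter.2 ⟨Finset.mem_univ _, hj.2⟩, rfl⟩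
    have h3 := himg (fun a => g a = i) (fun _ => inferInstance)
    have h4 := himg (fun _ => True) (fun _ => inferInstance)
    simp only [and_true, Nat.count_true] at h4
    rw [h3, h4]
    exact hmaj _ i

/-! ### the two colourings -/

lemma count_periodic (P : ℕ → Prop) [DecidablePred P] (p b : ℕ) (hp : ∀ k, P (p + k) ↔ P k)
    (hc : 2 * Nat.count P p ≤ p) (q : ℕ) (h : 2 * Nat.count P b < b) :
    2 * Nat.count P (b + p * q) < b + p * q := by
  induction q with
  | zero => simpa using h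
  | succ q ih =>
    have e : b + p * (q + 1) = p + (b + p * q) := by ring
    have e2 : Nat.count P (p + (b + p * q)) = Nat.count P p + Nat.count P (b + p * q) := by
      rw [Nat.count_add]
      congr 1
      rw [Nat.count_eq_card_filter_range, Nat.count_eq_card_filter_range]
      congr 1
      ext k
      simp only [Finset.mem_filter, hp]
    rw [e, e2]
    omega

/-- weights for four types -/
def w4 (j : ℕ) : ZMod 2 × ZMod 2 :=
  match j % 4 with
  | 0 => (0, 0)
  | 1 => (0, 1)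
  | 2 => (1, 0)
  | _ => (1, 1)

/-- four types -/
def g4 (a : ZMod 2 × ZMod 2) : ℕ := 2 * a.1.val + a.2.val

lemma g4_lt (a : ZMod 2 × ZMod 2) : g4 a < 4 := by revert a; decide

lemma w4_periodic (k : ℕ) : w4 (4 + k) = w4 k := by
  unfold w4
  rw [Nat.add_mod_left]

lemma base4 : ∀ s : ZMod 2 × ZMod 2, ∀ c : Fin 4,
    2 * Nat.count (fun j => g4 (s + w4 j) = c) 4 ≤ 4 ∧
    ∀ b ∈ [3, 4, 5, 6], 2 * Nat.count (fun j => g4 (s + w4 j) = c) b < b := by
  decide

lemma maj4 (m : ℕ) (hm : 3 ≤ m) (s : ZMod 2 × ZMod 2) (c : ℕ) :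
    2 * Nat.count (fun j => g4 (s + w4 j) = c) m < m := by
  by_cases hc : c < 4
  · obtain ⟨h1, h2⟩ := base4 s ⟨c, hc⟩
    simp only at h1 h2
    have hb : 3 + (m - 3) % 4 ∈ [3, 4, 5, 6] := by
      have : (m - 3) % 4 < 4 := Nat.mod_lt _ (by norm_num)
      interval_cases (m - 3) % 4 <;> simp
    have h3 := count_periodic (fun j => g4 (s + w4 j) = c) 4 (3 + (m - 3) % 4)
      (fun k => by rw [w4_periodic]) h1 ((m - 3) / 4) (h2 _ hb)
    have h4 : 3 + (m - 3) % 4 + 4 * ((m - 3) / 4) = m := by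
      have := Nat.mod_add_div (m - 3) 4
      omega
    rwa [h4] at h3
  · have : Nat.count (fun j => g4 (s + w4 j) = c) m = 0 := by
      rw [Nat.count_eq_card_filter_range, Finset.card_eq_zero, Finset.filter_eq_empty_iff]
      intro j _ h
      have := g4_lt (s + w4 j)
      omega
    omega

/-- weights for three types -/
def w8 (j : ℕ) : ZMod 2 × ZMod 2 × ZMod 2 :=
  match j % 8 with
  | 0 => (0, 0, 0)
  | 1 => (1, 0, 0)
  | 2 => (0, 0, 1)
  | 3 => (1, 0, 1)
  | 4 => (0, 1, 0)
  | 5 => (0, 1, 1)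
  | 6 => (1, 1, 0)
  | _ => (1, 1, 1)

/-- three types -/
def g8 (a : ZMod 2 × ZMod 2 × ZMod 2) : ℕ := if a.2.1 = 1 ∧ a.2.2 = 1 then 2 else a.1.val

lemma g8_lt (a : ZMod 2 × ZMod 2 × ZMod 2) : g8 a < 3 := by revert a; decide

lemma w8_periodic (k : ℕ) : w8 (8 + k) = w8 k := by
  unfold w8
  rw [Nat.add_mod_left]

set_option maxRecDepth 100000 in
lemma base8 : ∀ s : ZMod 2 × ZMod 2 × ZMod 2, ∀ c : Fin 3,
    2 * Nat.count (fun j => g8 (s + w8 j) = c) 8 ≤ 8 ∧
    ∀ b ∈ [7, 8, 9, 10, 11, 12, 13, 14], 2 * Nat.count (fun j => g8 (s + w8 j) = c) b < b := by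
  decide +kernel

lemma maj8 (m : ℕ) (hm : 7 ≤ m) (s : ZMod 2 × ZMod 2 × ZMod 2) (c : ℕ) :
    2 * Nat.count (fun j => g8 (s + w8 j) = c) m < m := by
  by_cases hc : c < 3
  · obtain ⟨h1, h2⟩ := base8 s ⟨c, hc⟩
    simp only at h1 h2
    have hb : 7 + (m - 7) % 8 ∈ [7, 8, 9, 10, 11, 12, 13, 14] := by
      have : (m - 7) % 8 < 8 := Nat.mod_lt _ (by norm_num)
      interval_cases (m - 7) % 8 <;> simp
    have h3 := count_periodic (fun j => g8 (s + w8 j) = c) 8 (7 + (m - 7) % 8)
      (fun k => by rw [w8_periodic]) h1 ((m - 7) / 8) (h2 _ hb)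
    have h4 : 7 + (m - 7) % 8 + 8 * ((m - 7) / 8) = m := by
      have := Nat.mod_add_div (m - 7) 8
      omega
    rwa [h4] at h3
  · have : Nat.count (fun j => g8 (s + w8 j) = c) m = 0 := by
      rw [Nat.count_eq_card_filter_range, Finset.card_eq_zero, Finset.filter_eq_empty_iff]
      intro j _ h
      have := g8_lt (s + w8 j)
      omega
    omega

lemma two4 (a : ZMod 2 × ZMod 2) : a + a = 0 := by revert a; decide

lemma two8 (a : ZMod 2 × ZMod 2 × ZMod 2) : a + a = 0 := by revert a; decide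

/-- four types on `Q_{m+1}` -/
theorem crit4 (hK : 4 ≤ K) (hm : 3 ≤ m) :
    Crit (hypercube (m + 1)) (cubeD m)
      (fun x => (⟨g4 (wsum w4 x), lt_of_lt_of_le (g4_lt _) hK⟩ : Fin K)) 1 := by
  refine crit_cube two4 w4 (fun a => (⟨g4 a, lt_of_lt_of_le (g4_lt _) hK⟩ : Fin K)) ?_
  intro s i
  have h := maj4 m hm s i
  have e : Nat.count (fun j => (⟨g4 (s + w4 j), lt_of_lt_of_le (g4_lt _) hK⟩ : Fin K) = i) m =
      Nat.count (fun j => g4 (s + w4 j) = (i : ℕ)) m := by
    rw [Nat.count_eq_card_filter_range, Nat.count_eq_card_filter_range]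
    congr 1
    ext k
    simp only [Finset.mem_filter, Fin.ext_iff]
  rw [e]
  exact h

/-- three types on `Q_{m+1}` -/
theorem crit8 (hK : 3 ≤ K) (hm : 7 ≤ m) :
    Crit (hypercube (m + 1)) (cubeD m)
      (fun x => (⟨g8 (wsum w8 x), lt_of_lt_of_le (g8_lt _) hK⟩ : Fin K)) 1 := by
  refine crit_cube two8 w8 (fun a => (⟨g8 a, lt_of_lt_of_le (g8_lt _) hK⟩ : Fin K)) ?_
  intro s i
  have h := maj8 m hm s i
  have e : Nat.count (fun j => (⟨g8 (s + w8 j), lt_of_lt_of_le (g8_lt _) hK⟩ : Fin K) = i) m =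
      Nat.count (fun j => g8 (s + w8 j) = (i : ℕ)) m := by
    rw [Nat.count_eq_card_filter_range, Nat.count_eq_card_filter_range]
    congr 1
    ext k
    simp only [Finset.mem_filter, Fin.ext_iff]
  rw [e]
  exact h

/-- the configuration with the coordinates `a.succ`, `b.succ` equal to `true` -/
def two (a b : Fin m) : Fin (m + 1) → Bool := fun j => j = a.succ ∨ j = b.succ

lemma wsum_two {B : Type} [AddCommGroup B] [DecidableEq B] (w : ℕ → B) {a b : Fin m}
    (hab : a ≠ b) : wsum w (two a b) = w a + w b := by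
  unfold wsum two
  have h : ∀ j : Fin m, (if (decide (j.succ = a.succ ∨ j.succ = b.succ)) = true then w j else 0)
      = (if j = a then w a else 0) + (if j = b then w b else 0) := by
    intro j
    simp only [decide_eq_true_eq, Fin.succ_inj]
    by_cases h1 : j = a
    · subst h1
      simp [hab]
    · by_cases h2 : j = b
      · subst h2
        simp [h1]
      · simp [h1, h2]
  rw [Finset.sum_congr rfl fun j _ => h j, Finset.sum_add_distrib]
  simp

lemma two_mem {a b : Fin m} (hab : a ≠ b) : two a b ∈ cubeD m := by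
  rw [mem_cubeD, wsum_two _ hab]
  exact zmod2 1

lemma zero_mem : (fun _ => false) ∈ cubeD m := by
  rw [mem_cubeD]; unfold wsum; simp

lemma wsum_zero {B : Type} [AddCommGroup B] [DecidableEq B] (w : ℕ → B) :
    wsum (m := m) w (fun _ => false) = 0 := by
  unfold wsum; simp

/-- all four types are present in `cubeD` -/
lemma surj4 (hm : 3 ≤ m) (c : ℕ) (hc : c < 4) : ∃ x ∈ cubeD m, g4 (wsum w4 x) = c := by
  let i0 : Fin m := ⟨0, by omega⟩
  let i1 : Fin m := ⟨1, by omega⟩
  let i2 : Fin m := ⟨2, by omega⟩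
  interval_cases c
  · exact ⟨_, zero_mem, by rw [wsum_zero]; decide⟩
  · exact ⟨_, two_mem (a := i0) (b := i1) (by simp [i0, i1]), by
      rw [wsum_two _ (by simp [i0, i1])]
      change g4 (w4 0 + w4 1) = 1
      decide⟩
  · exact ⟨_, two_mem (a := i0) (b := i2) (by simp [i0, i2]), by
      rw [wsum_two _ (by simp [i0, i2])]
      change g4 (w4 0 + w4 2) = 2
      decide⟩
  · exact ⟨_, two_mem (a := i1) (b := i2) (by simp [i1, i2]), by
      rw [wsum_two _ (by simp [i1, i2])]
      change g4 (w4 1 + w4 2) = 3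
      decide⟩

/-- all three types are present in `cubeD` -/
lemma surj8 (hm : 7 ≤ m) (c : ℕ) (hc : c < 3) : ∃ x ∈ cubeD m, g8 (wsum w8 x) = c := by
  let i0 : Fin m := ⟨0, by omega⟩
  let i1 : Fin m := ⟨1, by omega⟩
  let i5 : Fin m := ⟨5, by omega⟩
  interval_cases c
  · exact ⟨_, zero_mem, by rw [wsum_zero]; decide⟩
  · exact ⟨_, two_mem (a := i0) (b := i1) (by simp [i0, i1]), by
      rw [wsum_two _ (by simp [i0, i1])]
      change g8 (w8 0 + w8 1) = 1
      decide⟩
  · exact ⟨_, two_mem (a := i0) (b := i5) (by simp [i0, i5]), by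
      rw [wsum_two _ (by simp [i0, i5])]
      change g8 (w8 0 + w8 5) = 2
      decide⟩

/-- Coexistence on hypercubes. -/
theorem cube_coexist (K n : ℕ) (h : (4 ≤ K ∧ 4 ≤ n) ∨ (3 ≤ K ∧ 8 ≤ n)) :
    ∃ η₀ : Config (Fin n → Bool) K,
      (∀ v i j, 0 < η₀ v i → 0 < η₀ v j → i = j) ∧ η₀ ≠ 0 ∧
      0 < urnLaw (hypercube n) η₀ {ω | ∀ t : ℝ, 0 ≤ t →
        ∃ m, jumpTime ω m ≤ t ∧ t < jumpTime ω (m + 1) ∧
          ∀ i : Fin K, (i : ℕ) < 3 → ∃ v, 0 < ω.1 m v i} := by
  rcases Nat.lt_or_ge n 8 with hn | hn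
  · obtain ⟨hK, hn4⟩ : 4 ≤ K ∧ 4 ≤ n := by omega
    obtain ⟨m, rfl⟩ : ∃ m, n = m + 1 := ⟨n - 1, by omega⟩
    have hm : 3 ≤ m := by omega
    obtain ⟨η₀, h1, h2, h3⟩ := coexist (crit4 (K := K) hK hm)
    refine ⟨η₀, h1, h2, lt_of_lt_of_le h3 (measure_mono ?_)⟩
    intro ω hω t ht
    obtain ⟨k, hk1, hk2, hk3⟩ := hω t ht
    refine ⟨k, hk1, hk2, fun i hi => ?_⟩
    obtain ⟨x, hx, hgx⟩ := surj4 hm i (by omega)
    refine ⟨x, ?_⟩
    have := hk3 x hx
    convert this using 2
    exact Fin.ext hgx.symm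
  · have hK : 3 ≤ K := by omega
    obtain ⟨m, rfl⟩ : ∃ m, n = m + 1 := ⟨n - 1, by omega⟩
    have hm : 7 ≤ m := by omega
    obtain ⟨η₀, h1, h2, h3⟩ := coexist (crit8 (K := K) hK hm)
    refine ⟨η₀, h1, h2, lt_of_lt_of_le h3 (measure_mono ?_)⟩
    intro ω hω t ht
    obtain ⟨k, hk1, hk2, hk3⟩ := hω t ht
    refine ⟨k, hk1, hk2, fun i hi => ?_⟩
    obtain ⟨x, hx, hgx⟩ := surj8 hm i (by omega)
    refine ⟨x, ?_⟩
    have := hk3 x hx
    convert this using 2
    exact Fin.ext hgx.symm

end Pool.Agent.Helper96.Urn
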